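import Pool.Agent.J6H64.HSC.Surface

/-!
# The hexagon surface as a blow-up of `ℙ¹ × ℙ¹`
-/

namespace Pool.Agent.J6H64.HSC

open Complex Manifold Filter Topology OnePoint Set

/-- The blow-down map: the coordinates number `0` and `5`. -/
def blowDown (s : HexSurface) : P1 × P1 := (s.1 0, s.1 5)

theorem opp (s : HexSurface) (m : Fin 6) : s.1 (m + 3) = invP (s.1 m) := by
  obtain ⟨s, l, z, rfl⟩ := s
  have h : ∀ m, hx z (m + 3) = invP (hx z m) := by
    intro m
    fin_cases m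
    · rfl
    · rfl
    · rfl
    · exact (invP_invP _).symm
    · exact (invP_invP _).symm
    · exact (invP_invP _).symm
  have e : ∀ m l : Fin 6, m + 3 - l = m - l + 3 := by decide
  change hx z (m + 3 - l) = invP (hx z (m - l))
  rw [e, h]

theorem mid (l : Fin 6) (s : HexSurface) (h1 : s.1 l ≠ ∞) (h2 : s.1 (l + 2) ≠ ∞) :
    s.1 (l + 1) ≠ ∞ ∧ toC (s.1 (l + 1)) = toC (s.1 l) * toC (s.1 (l + 2)) := by
  have h := (chartHex l).left_inv (x := s) ⟨h1, h2⟩
  set z := chartHex l s with hz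
  have e : ∀ l : Fin 6, l + 1 - l = 1 := by decide
  have h3 : s.1 (l + 1) = ((z.1 * z.2 : ℂ) : P1) := by
    rw [← h]
    change hx z (l + 1 - l) = _
    rw [e]
    rfl
  rw [h3]
  exact ⟨OnePoint.coe_ne_infty _, rfl⟩

theorem source_ZZ : (chartZ.prod chartZ).source = {p | p.1 ≠ ∞ ∧ p.2 ≠ ∞} := rfl

theorem mem_source_inv (x : P1) : x ∈ chartInv.source ↔ invP x ≠ ∞ := by
  simp [chartInv, invH, chartZ]

theorem mem_atlas_ZZ : chartZ.prod chartZ ∈ atlas (ℂ × ℂ) (P1 × P1) :=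
  ⟨chartZ, Or.inl rfl, chartZ, Or.inl rfl, rfl⟩
theorem mem_atlas_ZI : chartZ.prod chartInv ∈ atlas (ℂ × ℂ) (P1 × P1) :=
  ⟨chartZ, Or.inl rfl, chartInv, Or.inr rfl, rfl⟩
theorem mem_atlas_IZ : chartInv.prod chartZ ∈ atlas (ℂ × ℂ) (P1 × P1) :=
  ⟨chartInv, Or.inr rfl, chartZ, Or.inl rfl, rfl⟩
theorem mem_atlas_II : chartInv.prod chartInv ∈ atlas (ℂ × ℂ) (P1 × P1) :=
  ⟨chartInv, Or.inr rfl, chartInv, Or.inr rfl, rfl⟩

theorem target_I : chartInv.target = univ := by
  simp [chartInv, invH, chartZ]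

theorem mem_maximalAtlas_Y {e : OpenPartialHomeomorph (P1 × P1) (ℂ × ℂ)}
    (h : e ∈ atlas (ℂ × ℂ) (P1 × P1)) :
    e ∈ IsManifold.maximalAtlas 𝓘(ℂ, ℂ × ℂ) (⊤ : WithTop ℕ∞) (P1 × P1) :=
  IsManifold.subset_maximalAtlas h

theorem mem_maximalAtlas_X (l : Fin 6) :
    chartHex l ∈ IsManifold.maximalAtlas 𝓘(ℂ, ℂ × ℂ) (⊤ : WithTop ℕ∞) HexSurface :=
  IsManifold.subset_maximalAtlas (mem_range_self l)

theorem isBlowUp_blowDown : IsBlowUp blowDown
    {(((0 : ℂ) : P1), ((0 : ℂ) : P1)), ((∞ : P1), (∞ : P1))} where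
  away := by
    rintro ⟨x, y⟩ hxy
    have hxy1 : ¬(x = ((0 : ℂ) : P1) ∧ y = ((0 : ℂ) : P1)) := fun h =>
      hxy (Or.inl (Prod.ext h.1 h.2))
    have hxy2 : ¬(x = ∞ ∧ y = ∞) := fun h => hxy (Or.inr (Prod.ext h.1 h.2))
    by_cases hc : x ≠ ∞ ∧ y ≠ ((0 : ℂ) : P1)
    · refine ⟨_, mem_maximalAtlas_Y mem_atlas_ZI, _, mem_maximalAtlas_X 0, ?_, ?_, ?_, ?_⟩
      · refine ⟨hc.1, ?_⟩
        change y ∈ chartInv.source
        rw [mem_source_inv, Ne, invP_eq_infty]
        exact hc.2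
      · ext s
        have h2 := opp s 5
        have e : (s.1 5 ∈ chartInv.source) ↔ s.1 2 ≠ ∞ := by
          rw [mem_source_inv, ← h2]; rfl
        change (s.1 0 ≠ ∞ ∧ s.1 2 ≠ ∞) ↔ (s.1 0 ≠ ∞ ∧ s.1 5 ∈ chartInv.source)
        rw [e]
      · rw [OpenPartialHomeomorph.prod_target, target_I]
        ext; simp [chartHex, chartZ]
      · intro s _
        have h2 := opp s 5
        change (toC (s.1 0), toC (invP (s.1 5))) = (toC (s.1 0), toC (s.1 2))
        rw [← h2]
        rfl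
    · have hc' : x ≠ ((0 : ℂ) : P1) ∧ y ≠ ∞ := by
        by_cases hx : x = ∞
        · subst hx
          exact ⟨OnePoint.infty_ne_coe _, fun h => hxy2 ⟨rfl, h⟩⟩
        · have hy : y = ((0 : ℂ) : P1) := by
            by_contra h
            exact hc ⟨hx, h⟩
          subst hy
          exact ⟨fun h => hxy1 ⟨h, rfl⟩, OnePoint.coe_ne_infty _⟩
      refine ⟨_, mem_maximalAtlas_Y mem_atlas_IZ, _, mem_maximalAtlas_X 3, ?_, ?_, ?_, ?_⟩
      · refine ⟨?_, hc'.2⟩
        change x ∈ chartInv.source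
        rw [mem_source_inv, Ne, invP_eq_infty]
        exact hc'.1
      · ext s
        have h2 := opp s 0
        have e : (s.1 0 ∈ chartInv.source) ↔ s.1 3 ≠ ∞ := by
          rw [mem_source_inv, ← h2]; rfl
        change (s.1 3 ≠ ∞ ∧ s.1 5 ≠ ∞) ↔ (s.1 0 ∈ chartInv.source ∧ s.1 5 ≠ ∞)
        rw [e]
      · rw [OpenPartialHomeomorph.prod_target, target_I]
        ext; simp [chartHex, chartZ]
      · intro s _
        have h2 := opp s 0
        change (toC (invP (s.1 0)), toC (s.1 5)) = (toC (s.1 3), toC (s.1 5))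
        rw [← h2]
        rfl
  near := by
    rintro c (rfl | rfl)
    · refine ⟨_, mem_maximalAtlas_Y mem_atlas_ZZ, _, mem_maximalAtlas_X 4, _,
        mem_maximalAtlas_X 5, ?_, rfl, ?_, ?_, ?_, ?_, ?_⟩
      · ext p
        constructor
        · rintro ⟨h1, (h2 | h2)⟩
          · exact h2
          · rw [h2] at h1
            exact absurd rfl h1.1
        · rintro rfl
          exact ⟨⟨OnePoint.coe_ne_infty _, OnePoint.coe_ne_infty _⟩, Or.inl rfl⟩
      · ext s
        change ((s.1 4 ≠ ∞ ∧ s.1 0 ≠ ∞) ∨ (s.1 5 ≠ ∞ ∧ s.1 1 ≠ ∞)) ↔ (s.1 0 ≠ ∞ ∧ s.1 5 ≠ ∞)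
        constructor
        · rintro (⟨h1, h2⟩ | ⟨h1, h2⟩)
          · exact ⟨h2, (mid 4 s h1 h2).1⟩
          · exact ⟨(mid 5 s h1 h2).1, h1⟩
        · rintro ⟨h1, h2⟩
          by_cases h : s.1 4 = ∞
          · right
            refine ⟨h2, ?_⟩
            have := opp s 4
            change s.1 1 = _ at this
            rw [this, h]
            exact OnePoint.coe_ne_infty _
          · exact Or.inl ⟨h, h1⟩
      · ext; simp [chartHex, chartZ]
      · ext; simp [chartHex, chartZ]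
      · rintro s ⟨h1, h2⟩
        exact Prod.ext rfl (mid 4 s h1 h2).2
      · rintro s ⟨h1, h2⟩
        exact Prod.ext (mid 5 s h1 h2).2 rfl
    · have hs : ∀ s : HexSurface, (chartInv.prod chartInv) (blowDown s) =
          (toC (s.1 3), toC (s.1 2)) := by
        intro s
        have h2 := opp s 0
        have h3 := opp s 5
        change (toC (invP (s.1 0)), toC (invP (s.1 5))) = (toC (s.1 3), toC (s.1 2))
        rw [← h2, ← h3]
        rfl
      refine ⟨_, mem_maximalAtlas_Y mem_atlas_II, _, mem_maximalAtlas_X 1, _,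
        mem_maximalAtlas_X 2, ?_, ?_, ?_, ?_, ?_, ?_, ?_⟩
      · ext p
        constructor
        · rintro ⟨h1, (h2 | h2)⟩
          · rw [h2] at h1
            have h3 := h1.1
            change ((0 : ℂ) : P1) ∈ chartInv.source at h3
            rw [mem_source_inv, invP_zero] at h3
            exact absurd rfl h3
          · exact h2
        · rintro rfl
          have h3 : (∞ : P1) ∈ chartInv.source := by
            rw [mem_source_inv, invP_infty]
            exact OnePoint.coe_ne_infty _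
          exact ⟨⟨h3, h3⟩, Or.inr rfl⟩
      · change (toC (invP ∞), toC (invP ∞)) = ((0, 0) : ℂ × ℂ)
        rw [invP_infty]
        rfl
      · ext s
        have h2 := opp s 0
        have h3 := opp s 5
        have e2 : (s.1 0 ∈ chartInv.source) ↔ s.1 3 ≠ ∞ := by
          rw [mem_source_inv, ← h2]; rfl
        have e3 : (s.1 5 ∈ chartInv.source) ↔ s.1 2 ≠ ∞ := by
          rw [mem_source_inv, ← h3]; rfl
        change ((s.1 1 ≠ ∞ ∧ s.1 3 ≠ ∞) ∨ (s.1 2 ≠ ∞ ∧ s.1 4 ≠ ∞)) ↔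
          (s.1 0 ∈ chartInv.source ∧ s.1 5 ∈ chartInv.source)
        rw [e2, e3]
        constructor
        · rintro (⟨h1, h2⟩ | ⟨h1, h2⟩)
          · exact ⟨h2, (mid 1 s h1 h2).1⟩
          · exact ⟨(mid 2 s h1 h2).1, h1⟩
        · rintro ⟨h1, h2⟩
          by_cases h : s.1 1 = ∞
          · right
            refine ⟨h2, ?_⟩
            have := opp s 1
            change s.1 4 = _ at this
            rw [this, h]
            exact OnePoint.coe_ne_infty _
          · exact Or.inl ⟨h, h1⟩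
      · rw [OpenPartialHomeomorph.prod_target, target_I]
        ext; simp [chartHex]
      · rw [OpenPartialHomeomorph.prod_target, target_I]
        ext; simp [chartHex]
      · rintro s ⟨h1, h2⟩
        rw [hs]
        exact Prod.ext rfl (mid 1 s h1 h2).2
      · rintro s ⟨h1, h2⟩
        rw [hs]
        exact Prod.ext (mid 2 s h1 h2).2 rfl

end Pool.Agent.J6H64.HSC
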