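import Pool.Agent.J6H64.HSC.Sound

/-!
The cell lemma in terms of the plain coordinates `(u, w)`.
-/

namespace Pool.Agent.J6H64.HSC

/-- The value of the affine functions of the certificate. -/
noncomputable def Lin.plain (l : Lin) (u w : ℝ) : ℝ :=
  (((l.p0 : ℝ) - (l.n0 : ℝ)) + ((l.p1 : ℝ) - (l.n1 : ℝ)) * u +
    ((l.p2 : ℝ) - (l.n2 : ℝ)) * w) / 16

theorem Lin.ev_sc (l : Lin) (u E w H : ℝ) :
    l.ev (u * E) E (w * H) H = ((16 : ℕ) : ℝ) * E * H * l.plain u w := by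
  simp only [Lin.ev, Lin.plain]
  push_cast
  ring

/-- The statement certified on every cell. -/
def Good (u w : ℝ) : Prop :=
  ∃ A C₁ B B₁ C A₁ lam : ℝ, 0 ≤ lam ∧ 0 < fAA u 1 w 1 1 A C₁ ∧
    0 < minor2 (fAA u 1 w 1 1 A C₁) (fBB u 1 w 1 1 C A₁) (fAB u 1 w 1 1 A C₁ B B₁ C A₁ lam) ∧
    0 < minor3 (fAA u 1 w 1 1 A C₁) (fBB u 1 w 1 1 C A₁) (fAB u 1 w 1 1 A C₁ B B₁ C A₁ lam)
      (fAR u 1 w 1 1 A C₁ B B₁) (fBR u 1 w 1 1 B B₁ C A₁) (fRR u 1 w 1 1 A C₁ C A₁ lam)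

theorem minor2_sc (q E H a b c : ℝ) :
    minor2 (q ^ 2 * E ^ 20 * H ^ 18 * a) (q ^ 2 * E ^ 18 * H ^ 20 * b)
      (q ^ 2 * E ^ 19 * H ^ 19 * c) = q ^ 4 * E ^ 38 * H ^ 38 * minor2 a b c := by
  simp only [minor2]; ring

theorem minor3_sc (q E H a b c x y r : ℝ) :
    minor3 (q ^ 2 * E ^ 20 * H ^ 18 * a) (q ^ 2 * E ^ 18 * H ^ 20 * b)
      (q ^ 2 * E ^ 19 * H ^ 19 * c) (q ^ 2 * E ^ 19 * H ^ 18 * x) (q ^ 2 * E ^ 18 * H ^ 19 * y)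
      (q ^ 2 * E ^ 18 * H ^ 18 * r) = q ^ 6 * E ^ 56 * H ^ 56 * minor3 a b c x y r := by
  simp only [minor3, minor2]; ring

/-- All checks of a cell. -/
def chkCell (κ D : ℕ) (c : CellCert) (a0 a1 b0 b1 : ℕ) : Bool :=
  chkFun κ D (fun X Y => N1 c a0 a1 b0 b1 X Y) && chkFun κ D (fun X Y => N2 c a0 a1 b0 b1 X Y) &&
    chkFun κ D (fun X Y => N3 c a0 a1 b0 b1 X Y)

theorem cell_sub (a0 a1 : ℕ) (u : ℝ) (h0 : (a0 : ℝ) ≤ 63 * u) (h1 : 63 * u < a1) :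
    ∃ X : ℝ, 0 ≤ X ∧ 0 < cellE X ∧ cellU a0 a1 X = u * cellE X := by
  have hd : (0 : ℝ) < a1 - 63 * u := by linarith
  refine ⟨(63 * u - a0) / (a1 - 63 * u), div_nonneg (by linarith) hd.le, ?_, ?_⟩
  · have : (0 : ℝ) ≤ (63 * u - a0) / (a1 - 63 * u) := div_nonneg (by linarith) hd.le
    simp only [cellE]
    push_cast
    linarith
  · simp only [cellE, cellU]
    push_cast
    field_simp
    ring

theorem cell_sound (κ D : ℕ) (c : CellCert) (a0 a1 b0 b1 : ℕ)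
    (h : chkCell κ D c a0 a1 b0 b1 = true) (u w : ℝ)
    (hu0 : (a0 : ℝ) ≤ 63 * u) (hu1 : 63 * u < a1) (hw0 : (b0 : ℝ) ≤ 63 * w)
    (hw1 : 63 * w < b1) : Good u w := by
  simp only [chkCell, Bool.and_eq_true] at h
  obtain ⟨⟨h1, h2⟩, h3⟩ := h
  obtain ⟨X, hX, hE, hUE⟩ := cell_sub a0 a1 u hu0 hu1
  obtain ⟨Y, hY, hH, hWH⟩ := cell_sub b0 b1 w hw0 hw1
  have p1 := N1_pos c a0 a1 b0 b1 κ D h1 X Y hX hY
  have p2 := N2_pos c a0 a1 b0 b1 κ D h2 X Y hX hY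
  have p3 := N3_pos c a0 a1 b0 b1 κ D h3 X Y hX hY
  rw [N1, hUE, hWH] at p1
  rw [N2, hUE, hWH] at p2
  rw [N3, hUE, hWH] at p3
  generalize cellE X = E at *
  generalize cellE Y = H at *
  simp only [M1, M2, M3, Lin.ev_sc, fAA_sc, fBB_sc, fAB_sc, fAR_sc, fBR_sc, fRR_sc, minor2_sc,
    minor3_sc] at p1 p2 p3
  have hq : (0 : ℝ) < ((16 : ℕ) : ℝ) := by norm_num
  refine ⟨c.A.plain u w, c.C1.plain u w, c.B.plain u w, c.B1.plain u w, c.C.plain u w,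
    c.A1.plain u w, (c.lam : ℝ), Nat.cast_nonneg _, ?_, ?_, ?_⟩
  · exact (mul_pos_iff_of_pos_left (by positivity)).mp p1
  · exact (mul_pos_iff_of_pos_left (by positivity)).mp p2
  · exact (mul_pos_iff_of_pos_left (by positivity)).mp p3

end Pool.Agent.J6H64.HSC
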