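import Pool.Agent.J6H64.HSC.Formula

/-!
The certificate checker.
-/

namespace Pool.Agent.J6H64.HSC

/-- integer data `(p₀ - n₀) + (p₁ - n₁) u + (p₂ - n₂) w`. -/
structure Lin where
  /-- p₀ -/
  p0 : ℕ
  /-- n₀ -/
  n0 : ℕ
  /-- p₁ -/
  p1 : ℕ
  /-- n₁ -/
  n1 : ℕ
  /-- p₂ -/
  p2 : ℕ
  /-- n₂ -/
  n2 : ℕ

/-- certificate data of one cell. -/
structure CellCert where
  /-- A -/
  A : Lin
  /-- C₁ -/
  C1 : Lin
  /-- B -/
  B : Lin
  /-- B₁ -/
  B1 : Lin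
  /-- C -/
  C : Lin
  /-- A₁ -/
  A1 : Lin
  /-- multiplier -/
  lam : ℕ

section
variable {K : Type*} [Add K] [Sub K] [Mul K] [NatCast K]

/-- homogenized affine function. -/
def Lin.ev (l : Lin) (U E W H : K) : K :=
  ((l.p0 : K) - (l.n0 : K)) * (E * H) + ((l.p1 : K) - (l.n1 : K)) * (U * H) +
    ((l.p2 : K) - (l.n2 : K)) * (E * W)

/-- first minor. -/
def M1 (c : CellCert) (U E W H q : K) : K :=
  fAA U E W H (q * E * H) (c.A.ev U E W H) (c.C1.ev U E W H)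

/-- second minor. -/
def M2 (c : CellCert) (U E W H q : K) : K :=
  minor2 (fAA U E W H (q * E * H) (c.A.ev U E W H) (c.C1.ev U E W H))
    (fBB U E W H (q * E * H) (c.C.ev U E W H) (c.A1.ev U E W H))
    (fAB U E W H (q * E * H) (c.A.ev U E W H) (c.C1.ev U E W H) (c.B.ev U E W H)
      (c.B1.ev U E W H) (c.C.ev U E W H) (c.A1.ev U E W H) (c.lam : K))

/-- third minor. -/
def M3 (c : CellCert) (U E W H q : K) : K :=
  minor3 (fAA U E W H (q * E * H) (c.A.ev U E W H) (c.C1.ev U E W H))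
    (fBB U E W H (q * E * H) (c.C.ev U E W H) (c.A1.ev U E W H))
    (fAB U E W H (q * E * H) (c.A.ev U E W H) (c.C1.ev U E W H) (c.B.ev U E W H)
      (c.B1.ev U E W H) (c.C.ev U E W H) (c.A1.ev U E W H) (c.lam : K))
    (fAR U E W H (q * E * H) (c.A.ev U E W H) (c.C1.ev U E W H) (c.B.ev U E W H)
      (c.B1.ev U E W H))
    (fBR U E W H (q * E * H) (c.B.ev U E W H)
      (c.B1.ev U E W H) (c.C.ev U E W H) (c.A1.ev U E W H))
    (fRR U E W H (q * E * H) (c.A.ev U E W H) (c.C1.ev U E W H)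
      (c.C.ev U E W H) (c.A1.ev U E W H) (c.lam : K))

/-- substitution of a cell. -/
def cellU (a0 a1 : ℕ) (X : K) : K := (a0 : K) + (a1 : K) * X

/-- denominators. -/
def cellE (X : K) : K := ((63 : ℕ) : K) * (((1 : ℕ) : K) + X)

/-- first minor on a cell. -/
def N1 (c : CellCert) (a0 a1 b0 b1 : ℕ) (X Y : K) : K :=
  M1 c (cellU a0 a1 X) (cellE X) (cellU b0 b1 Y) (cellE Y) ((16 : ℕ) : K)
/-- second minor on a cell. -/
def N2 (c : CellCert) (a0 a1 b0 b1 : ℕ) (X Y : K) : K :=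
  M2 c (cellU a0 a1 X) (cellE X) (cellU b0 b1 Y) (cellE Y) ((16 : ℕ) : K)
/-- third minor on a cell. -/
def N3 (c : CellCert) (a0 a1 b0 b1 : ℕ) (X Y : K) : K :=
  M3 c (cellU a0 a1 X) (cellE X) (cellU b0 b1 Y) (cellE Y) ((16 : ℕ) : K)
end

/-- digitwise comparison, inner loop. -/
def chkInner (κ mask : ℕ) : ℕ → ℕ → ℕ → Bool
  | 0, _, _ => true
  | k + 1, P, Q => Nat.ble (Nat.land Q mask) (Nat.land P mask) &&
      chkInner κ mask k (Nat.shiftRight P κ) (Nat.shiftRight Q κ)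

/-- digitwise comparison, outer loop. -/
def chkOuter (κ mask κ' mask' D : ℕ) : ℕ → ℕ → ℕ → Bool
  | 0, _, Q => Nat.beq Q 0
  | k + 1, P, Q => chkInner κ mask D (Nat.land P mask') (Nat.land Q mask') &&
      chkOuter κ mask κ' mask' D k (Nat.shiftRight P κ') (Nat.shiftRight Q κ')

/-- the check for one packed difference. -/
def chkPacked (κ D : ℕ) (x : Df ℕ) : Bool :=
  chkOuter κ (2 ^ κ - 1) (κ * D) (2 ^ (κ * D) - 1) D D x.p x.n

/-- bounds -/
def chkLt (b : ℕ) (x : Df ℕ) : Bool := Nat.blt x.p b && Nat.blt x.n b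

/-- constant coefficient strictly positive -/
def chkConst (x : Df ℕ) : Bool := Nat.blt x.n x.p

end Pool.Agent.J6H64.HSC
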