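import Pool.Agent.J6H64.HSC.Cell

/-!
The certificate: 24 cells covering the square `[0, 64/63)²`.
-/

namespace Pool.Agent.J6H64.HSC

set_option maxRecDepth 100000

theorem cell0 : chkCell 930 57 ⟨⟨26, 0, 0, 10, 121, 0⟩, ⟨53, 0, 0, 105, 0, 142⟩, ⟨72, 0, 41, 0, 0, 173⟩, ⟨69, 0, 0, 111, 15, 0⟩, ⟨52, 0, 0, 139, 0, 95⟩, ⟨28, 0, 95, 0, 0, 8⟩, 73⟩ 0 16 0 8 = true := by decide +kernel

theorem cell1 : chkCell 930 57 ⟨⟨31, 0, 0, 10, 79, 0⟩, ⟨36, 0, 0, 41, 0, 69⟩, ⟨64, 0, 22, 0, 0, 87⟩, ⟨69, 0, 0, 131, 37, 0⟩, ⟨38, 0, 0, 75, 0, 51⟩, ⟨28, 0, 95, 0, 0, 13⟩, 8⟩ 0 16 8 16 = true := by decide +kernel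

theorem cell2 : chkCell 930 57 ⟨⟨27, 0, 0, 12, 111, 0⟩, ⟨32, 0, 0, 35, 0, 61⟩, ⟨74, 0, 54, 0, 0, 234⟩, ⟨55, 0, 0, 44, 0, 0⟩, ⟨20, 0, 0, 40, 42, 0⟩, ⟨35, 0, 57, 0, 9, 0⟩, 14⟩ 16 32 0 8 = true := by decide +kernel

theorem cell3 : chkCell 930 57 ⟨⟨34, 0, 0, 18, 72, 0⟩, ⟨22, 0, 0, 20, 0, 23⟩, ⟨66, 0, 36, 0, 0, 107⟩, ⟨53, 0, 0, 46, 23, 0⟩, ⟨17, 0, 0, 19, 0, 4⟩, ⟨37, 0, 60, 0, 0, 17⟩, 0⟩ 16 32 8 16 = true := by decide +kernel

theorem cell4 : chkCell 930 57 ⟨⟨35, 0, 9, 0, 57, 0⟩, ⟨20, 0, 42, 0, 0, 40⟩, ⟨55, 0, 0, 0, 0, 44⟩, ⟨74, 0, 0, 234, 54, 0⟩, ⟨32, 0, 0, 61, 0, 35⟩, ⟨27, 0, 111, 0, 0, 12⟩, 14⟩ 0 8 16 32 = true := by decide +kernel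

theorem cell5 : chkCell 930 57 ⟨⟨37, 0, 0, 17, 60, 0⟩, ⟨17, 0, 0, 4, 0, 19⟩, ⟨53, 0, 23, 0, 0, 46⟩, ⟨66, 0, 0, 107, 36, 0⟩, ⟨22, 0, 0, 23, 0, 20⟩, ⟨34, 0, 72, 0, 0, 18⟩, 0⟩ 8 16 16 32 = true := by decide +kernel

theorem cell6 : chkCell 930 57 ⟨⟨43, 0, 0, 27, 51, 0⟩, ⟨16, 0, 0, 12, 0, 11⟩, ⟨55, 0, 25, 0, 0, 52⟩, ⟨55, 0, 0, 52, 25, 0⟩, ⟨16, 0, 0, 11, 0, 12⟩, ⟨43, 0, 51, 0, 0, 27⟩, 0⟩ 16 32 16 32 = true := by decide +kernel

theorem cell7 : chkCell 930 57 ⟨⟨37, 0, 26, 0, 49, 0⟩, ⟨4, 0, 70, 0, 0, 10⟩, ⟨46, 0, 0, 0, 0, 24⟩, ⟨80, 0, 0, 298, 50, 0⟩, ⟨21, 0, 0, 35, 0, 16⟩, ⟨27, 0, 99, 0, 0, 11⟩, 7⟩ 0 8 32 48 = true := by decide +kernel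

theorem cell8 : chkCell 930 57 ⟨⟨44, 0, 0, 25, 49, 0⟩, ⟨13, 0, 3, 0, 0, 13⟩, ⟨44, 0, 19, 0, 0, 25⟩, ⟨73, 0, 0, 131, 30, 0⟩, ⟨15, 0, 0, 12, 0, 11⟩, ⟨35, 0, 60, 0, 0, 17⟩, 1⟩ 8 16 32 48 = true := by decide +kernel

theorem cell9 : chkCell 930 57 ⟨⟨39, 0, 64, 0, 45, 0⟩, ⟨0, 6, 74, 0, 4, 0⟩, ⟨41, 0, 0, 11, 0, 18⟩, ⟨82, 0, 0, 465, 56, 0⟩, ⟨18, 0, 0, 37, 0, 11⟩, ⟨25, 0, 113, 0, 0, 9⟩, 11⟩ 0 4 48 56 = true := by decide +kernel

theorem cell10 : chkCell 930 57 ⟨⟨40, 0, 10, 0, 47, 0⟩, ⟨8, 0, 24, 0, 0, 10⟩, ⟨40, 0, 10, 0, 0, 17⟩, ⟨86, 0, 0, 268, 38, 0⟩, ⟨15, 0, 0, 18, 0, 9⟩, ⟨29, 0, 76, 0, 0, 11⟩, 4⟩ 4 8 48 56 = true := by decide +kernel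

theorem cell11 : chkCell 930 57 ⟨⟨39, 0, 73, 0, 44, 0⟩, ⟨0, 6, 23, 0, 5, 0⟩, ⟨39, 0, 0, 10, 0, 15⟩, ⟨86, 0, 0, 520, 54, 0⟩, ⟨15, 0, 0, 32, 0, 8⟩, ⟨24, 0, 108, 0, 0, 8⟩, 9⟩ 0 4 56 64 = true := by decide +kernel

theorem cell12 : chkCell 930 57 ⟨⟨42, 0, 9, 0, 46, 0⟩, ⟨11, 0, 7, 0, 0, 12⟩, ⟨37, 0, 10, 0, 0, 14⟩, ⟨91, 0, 0, 294, 35, 0⟩, ⟨13, 0, 0, 15, 0, 7⟩, ⟨29, 0, 71, 0, 0, 10⟩, 3⟩ 4 8 56 64 = true := by decide +kernel

theorem cell13 : chkCell 930 57 ⟨⟨51, 0, 0, 38, 43, 0⟩, ⟨16, 0, 0, 0, 0, 16⟩, ⟨38, 0, 17, 0, 0, 16⟩, ⟨83, 0, 0, 155, 23, 0⟩, ⟨11, 0, 0, 8, 0, 6⟩, ⟨35, 0, 49, 0, 0, 14⟩, 1⟩ 8 16 48 64 = true := by decide +kernel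

theorem cell14 : chkCell 930 57 ⟨⟨60, 0, 0, 49, 34, 0⟩, ⟨14, 0, 0, 6, 0, 12⟩, ⟨44, 0, 15, 0, 0, 23⟩, ⟨67, 0, 0, 68, 15, 0⟩, ⟨11, 0, 0, 7, 0, 6⟩, ⟨46, 0, 34, 0, 0, 23⟩, 0⟩ 16 32 32 64 = true := by decide +kernel

theorem cell15 : chkCell 930 57 ⟨⟨27, 0, 0, 11, 99, 0⟩, ⟨21, 0, 0, 16, 0, 35⟩, ⟨80, 0, 50, 0, 0, 298⟩, ⟨46, 0, 0, 24, 0, 0⟩, ⟨4, 0, 0, 10, 70, 0⟩, ⟨37, 0, 49, 0, 26, 0⟩, 7⟩ 32 48 0 8 = true := by decide +kernel

theorem cell16 : chkCell 930 57 ⟨⟨35, 0, 0, 17, 60, 0⟩, ⟨15, 0, 0, 11, 0, 12⟩, ⟨73, 0, 30, 0, 0, 131⟩, ⟨44, 0, 0, 25, 19, 0⟩, ⟨13, 0, 0, 13, 3, 0⟩, ⟨44, 0, 49, 0, 0, 25⟩, 1⟩ 32 48 8 16 = true := by decide +kernel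

theorem cell17 : chkCell 930 57 ⟨⟨25, 0, 0, 9, 113, 0⟩, ⟨18, 0, 0, 11, 0, 37⟩, ⟨82, 0, 56, 0, 0, 465⟩, ⟨41, 0, 0, 18, 0, 11⟩, ⟨0, 6, 4, 0, 74, 0⟩, ⟨39, 0, 45, 0, 64, 0⟩, 11⟩ 48 56 0 4 = true := by decide +kernel

theorem cell18 : chkCell 930 57 ⟨⟨29, 0, 0, 11, 76, 0⟩, ⟨15, 0, 0, 9, 0, 18⟩, ⟨86, 0, 38, 0, 0, 268⟩, ⟨40, 0, 0, 17, 10, 0⟩, ⟨8, 0, 0, 10, 24, 0⟩, ⟨40, 0, 47, 0, 10, 0⟩, 4⟩ 48 56 4 8 = true := by decide +kernel

theorem cell19 : chkCell 930 57 ⟨⟨24, 0, 0, 8, 108, 0⟩, ⟨15, 0, 0, 8, 0, 32⟩, ⟨86, 0, 54, 0, 0, 520⟩, ⟨39, 0, 0, 15, 0, 10⟩, ⟨0, 6, 5, 0, 23, 0⟩, ⟨39, 0, 44, 0, 73, 0⟩, 9⟩ 56 64 0 4 = true := by decide +kernel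

theorem cell20 : chkCell 930 57 ⟨⟨29, 0, 0, 10, 71, 0⟩, ⟨13, 0, 0, 7, 0, 15⟩, ⟨91, 0, 35, 0, 0, 294⟩, ⟨37, 0, 0, 14, 10, 0⟩, ⟨11, 0, 0, 12, 7, 0⟩, ⟨42, 0, 46, 0, 9, 0⟩, 3⟩ 56 64 4 8 = true := by decide +kernel

theorem cell21 : chkCell 930 57 ⟨⟨35, 0, 0, 14, 49, 0⟩, ⟨11, 0, 0, 6, 0, 8⟩, ⟨83, 0, 23, 0, 0, 155⟩, ⟨38, 0, 0, 16, 17, 0⟩, ⟨16, 0, 0, 16, 0, 0⟩, ⟨51, 0, 43, 0, 0, 38⟩, 1⟩ 48 64 8 16 = true := by decide +kernel

theorem cell22 : chkCell 930 57 ⟨⟨46, 0, 0, 23, 34, 0⟩, ⟨11, 0, 0, 6, 0, 7⟩, ⟨67, 0, 15, 0, 0, 68⟩, ⟨44, 0, 0, 23, 15, 0⟩, ⟨14, 0, 0, 12, 0, 6⟩, ⟨60, 0, 34, 0, 0, 49⟩, 0⟩ 32 64 16 32 = true := by decide +kernel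

theorem cell23 : chkCell 930 57 ⟨⟨62, 0, 0, 33, 20, 0⟩, ⟨8, 0, 0, 3, 0, 6⟩, ⟨52, 0, 8, 0, 0, 28⟩, ⟨52, 0, 0, 28, 8, 0⟩, ⟨8, 0, 0, 6, 0, 3⟩, ⟨62, 0, 20, 0, 0, 33⟩, 0⟩ 32 64 32 64 = true := by decide +kernel

theorem good_all (u w : ℝ) (hu0 : 0 ≤ u) (hu1 : u ≤ 1) (hw0 : 0 ≤ w) (hw1 : w ≤ 1) : Good u w := by
  rcases lt_or_ge (63 * u) 32 with h | h
  · rcases lt_or_ge (63 * w) 32 with h | h
    · rcases lt_or_ge (63 * w) 16 with h | h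
      · rcases lt_or_ge (63 * u) 16 with h | h
        · rcases lt_or_ge (63 * w) 8 with h | h
          · exact cell_sound 930 57 _ 0 16 0 8 cell0 u w (by push_cast; linarith) (by push_cast; linarith) (by push_cast; linarith) (by push_cast; linarith)
          · exact cell_sound 930 57 _ 0 16 8 16 cell1 u w (by push_cast; linarith) (by push_cast; linarith) (by push_cast; linarith) (by push_cast; linarith)
        · rcases lt_or_ge (63 * w) 8 with h | h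
          · exact cell_sound 930 57 _ 16 32 0 8 cell2 u w (by push_cast; linarith) (by push_cast; linarith) (by push_cast; linarith) (by push_cast; linarith)
          · exact cell_sound 930 57 _ 16 32 8 16 cell3 u w (by push_cast; linarith) (by push_cast; linarith) (by push_cast; linarith) (by push_cast; linarith)
      · rcases lt_or_ge (63 * u) 16 with h | h
        · rcases lt_or_ge (63 * u) 8 with h | h
          · exact cell_sound 930 57 _ 0 8 16 32 cell4 u w (by push_cast; linarith) (by push_cast; linarith) (by push_cast; linarith) (by push_cast; linarith)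
          · exact cell_sound 930 57 _ 8 16 16 32 cell5 u w (by push_cast; linarith) (by push_cast; linarith) (by push_cast; linarith) (by push_cast; linarith)
        · exact cell_sound 930 57 _ 16 32 16 32 cell6 u w (by push_cast; linarith) (by push_cast; linarith) (by push_cast; linarith) (by push_cast; linarith)
    · rcases lt_or_ge (63 * u) 16 with h | h
      · rcases lt_or_ge (63 * w) 48 with h | h
        · rcases lt_or_ge (63 * u) 8 with h | h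
          · exact cell_sound 930 57 _ 0 8 32 48 cell7 u w (by push_cast; linarith) (by push_cast; linarith) (by push_cast; linarith) (by push_cast; linarith)
          · exact cell_sound 930 57 _ 8 16 32 48 cell8 u w (by push_cast; linarith) (by push_cast; linarith) (by push_cast; linarith) (by push_cast; linarith)
        · rcases lt_or_ge (63 * u) 8 with h | h
          · rcases lt_or_ge (63 * w) 56 with h | h
            · rcases lt_or_ge (63 * u) 4 with h | h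
              · exact cell_sound 930 57 _ 0 4 48 56 cell9 u w (by push_cast; linarith) (by push_cast; linarith) (by push_cast; linarith) (by push_cast; linarith)
              · exact cell_sound 930 57 _ 4 8 48 56 cell10 u w (by push_cast; linarith) (by push_cast; linarith) (by push_cast; linarith) (by push_cast; linarith)
            · rcases lt_or_ge (63 * u) 4 with h | h
              · exact cell_sound 930 57 _ 0 4 56 64 cell11 u w (by push_cast; linarith) (by push_cast; linarith) (by push_cast; linarith) (by push_cast; linarith)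
              · exact cell_sound 930 57 _ 4 8 56 64 cell12 u w (by push_cast; linarith) (by push_cast; linarith) (by push_cast; linarith) (by push_cast; linarith)
          · exact cell_sound 930 57 _ 8 16 48 64 cell13 u w (by push_cast; linarith) (by push_cast; linarith) (by push_cast; linarith) (by push_cast; linarith)
      · exact cell_sound 930 57 _ 16 32 32 64 cell14 u w (by push_cast; linarith) (by push_cast; linarith) (by push_cast; linarith) (by push_cast; linarith)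
  · rcases lt_or_ge (63 * w) 32 with h | h
    · rcases lt_or_ge (63 * w) 16 with h | h
      · rcases lt_or_ge (63 * u) 48 with h | h
        · rcases lt_or_ge (63 * w) 8 with h | h
          · exact cell_sound 930 57 _ 32 48 0 8 cell15 u w (by push_cast; linarith) (by push_cast; linarith) (by push_cast; linarith) (by push_cast; linarith)
          · exact cell_sound 930 57 _ 32 48 8 16 cell16 u w (by push_cast; linarith) (by push_cast; linarith) (by push_cast; linarith) (by push_cast; linarith)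
        · rcases lt_or_ge (63 * w) 8 with h | h
          · rcases lt_or_ge (63 * u) 56 with h | h
            · rcases lt_or_ge (63 * w) 4 with h | h
              · exact cell_sound 930 57 _ 48 56 0 4 cell17 u w (by push_cast; linarith) (by push_cast; linarith) (by push_cast; linarith) (by push_cast; linarith)
              · exact cell_sound 930 57 _ 48 56 4 8 cell18 u w (by push_cast; linarith) (by push_cast; linarith) (by push_cast; linarith) (by push_cast; linarith)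
            · rcases lt_or_ge (63 * w) 4 with h | h
              · exact cell_sound 930 57 _ 56 64 0 4 cell19 u w (by push_cast; linarith) (by push_cast; linarith) (by push_cast; linarith) (by push_cast; linarith)
              · exact cell_sound 930 57 _ 56 64 4 8 cell20 u w (by push_cast; linarith) (by push_cast; linarith) (by push_cast; linarith) (by push_cast; linarith)
          · exact cell_sound 930 57 _ 48 64 8 16 cell21 u w (by push_cast; linarith) (by push_cast; linarith) (by push_cast; linarith) (by push_cast; linarith)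
      · exact cell_sound 930 57 _ 32 64 16 32 cell22 u w (by push_cast; linarith) (by push_cast; linarith) (by push_cast; linarith) (by push_cast; linarith)
    · exact cell_sound 930 57 _ 32 64 32 64 cell23 u w (by push_cast; linarith) (by push_cast; linarith) (by push_cast; linarith) (by push_cast; linarith)

end Pool.Agent.J6H64.HSC
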