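import Mathlib

/-!
# Kähler metrics on complex surfaces and their holomorphic sectional curvature

Complex surfaces are `ChartedSpace (ℂ × ℂ) X` with holomorphic transition functions.  All
tensors are described by their components in the charts of the atlas, as in the classical
literature.
-/

namespace Pool.Agent.J6H64.HSC

open Complex ComplexConjugate Manifold ContDiff

/-- The Wirtinger derivative `∂_v f = ½ (Df(v) - i Df(iv))` at `z` in the direction `v`. -/
noncomputable def dHol (v : ℂ × ℂ) (f : ℂ × ℂ → ℂ) (z : ℂ × ℂ) : ℂ :=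
  (fderiv ℝ f z v - I * fderiv ℝ f z (I • v)) / 2

/-- The conjugate Wirtinger derivative `∂̄_v f = ½ (Df(v) + i Df(iv))` at `z` in the
direction `v`. -/
noncomputable def dAnti (v : ℂ × ℂ) (f : ℂ × ℂ → ℂ) (z : ℂ × ℂ) : ℂ :=
  (fderiv ℝ f z v + I * fderiv ℝ f z (I • v)) / 2

/-- The standard basis `e₀ = (1, 0)`, `e₁ = (0, 1)` of `ℂ²`. -/
def stdVec (k : Fin 2) : ℂ × ℂ := if k = 0 then (1, 0) else (0, 1)

/-- The matrix `(g_{p q̄})` of a sesquilinear form `g z` in the standard basis. -/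
def coeffMatrix (g : ℂ × ℂ → ℂ × ℂ → ℂ × ℂ → ℂ) (z : ℂ × ℂ) : Matrix (Fin 2) (Fin 2) ℂ :=
  Matrix.of fun p q => g z (stdVec p) (stdVec q)

/-- The component `R(v, v̄, v, v̄)` of the Chern curvature tensor of the metric with local
coefficients `g`, where `g z v w` stands for `g_z(v, w̄)`:
`R(v, v̄, v, v̄) = -∂_v ∂̄_v g(v, v̄) + ∑_{p, q} g^{q̄ p} ∂_v g(v, ē_q) ∂̄_v g(e_p, v̄)`,
with `(g^{q̄ p})` the inverse of the matrix `(g_{p q̄})`. -/
noncomputable def curvature (g : ℂ × ℂ → ℂ × ℂ → ℂ × ℂ → ℂ) (z v : ℂ × ℂ) : ℂ :=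
  -(dHol v (fun x => dAnti v (fun y => g y v v) x) z) +
    ∑ p, ∑ q, (coeffMatrix g z)⁻¹ q p * dHol v (fun x => g x v (stdVec q)) z *
      dAnti v (fun x => g x (stdVec p) v) z

/-- The holomorphic sectional curvature `H_g(v) = R(v, v̄, v, v̄) / g(v, v̄)²` of the metric
with local coefficients `g`, at the point with coordinates `z`. -/
noncomputable def holSecCoord (g : ℂ × ℂ → ℂ × ℂ → ℂ × ℂ → ℂ) (z v : ℂ × ℂ) : ℝ :=
  (curvature g z v / (g z v v) ^ 2).re

/-- A Kähler metric on a complex surface `X`, given by its local expressions in the charts of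
the atlas: `coeff φ z v w` is `g(v, w̄)` at the point `φ.symm z`, for tangent vectors `v, w`
written in the coordinates of the chart `φ`.  The conditions say that every local expression
is a Hermitian inner product depending smoothly on the point, that the expressions in
different charts define the same tensor, and that the associated `(1,1)`-form is closed
(`∂_u g(v, w̄) = ∂_v g(u, w̄)`). -/
structure KahlerMetric (X : Type*) [TopologicalSpace X] [ChartedSpace (ℂ × ℂ) X] where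
  /-- local expression of the metric -/
  coeff : OpenPartialHomeomorph X (ℂ × ℂ) → ℂ × ℂ → ℂ × ℂ → ℂ × ℂ → ℂ
  /-- additivity in the first variable -/
  add_left : ∀ φ ∈ atlas (ℂ × ℂ) X, ∀ z ∈ φ.target, ∀ v v' w,
    coeff φ z (v + v') w = coeff φ z v w + coeff φ z v' w
  /-- complex linearity in the first variable -/
  smul_left : ∀ φ ∈ atlas (ℂ × ℂ) X, ∀ z ∈ φ.target, ∀ (a : ℂ) (v w),
    coeff φ z (a • v) w = a * coeff φ z v w
  /-- Hermitian symmetry -/
  conj_symm : ∀ φ ∈ atlas (ℂ × ℂ) X, ∀ z ∈ φ.target, ∀ v w,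
    coeff φ z w v = conj (coeff φ z v w)
  /-- positive definiteness -/
  pos : ∀ φ ∈ atlas (ℂ × ℂ) X, ∀ z ∈ φ.target, ∀ v, v ≠ 0 → 0 < (coeff φ z v v).re
  /-- smoothness -/
  smooth : ∀ φ ∈ atlas (ℂ × ℂ) X, ∀ v w, ContDiffOn ℝ ∞ (fun z => coeff φ z v w) φ.target
  /-- the local expressions define one tensor on `X` -/
  compat : ∀ φ ∈ atlas (ℂ × ℂ) X, ∀ φ' ∈ atlas (ℂ × ℂ) X,
    ∀ z ∈ (φ.symm.trans φ').source, ∀ v w,
      coeff φ z v w = coeff φ' (φ' (φ.symm z)) (fderiv ℂ (φ' ∘ φ.symm) z v)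
        (fderiv ℂ (φ' ∘ φ.symm) z w)
  /-- the Kähler condition -/
  closed : ∀ φ ∈ atlas (ℂ × ℂ) X, ∀ z ∈ φ.target, ∀ u v w,
    dHol u (fun x => coeff φ x v w) z = dHol v (fun x => coeff φ x u w) z

/-- The Kähler metric `g` has positive holomorphic sectional curvature: `H_g(v) > 0` at every
point and for every nonzero tangent vector `v`, written in any chart of the atlas around the
point. -/
def KahlerMetric.HasPositiveHolSec {X : Type*} [TopologicalSpace X] [ChartedSpace (ℂ × ℂ) X]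
    (g : KahlerMetric X) : Prop :=
  ∀ φ ∈ atlas (ℂ × ℂ) X, ∀ z ∈ φ.target, ∀ v : ℂ × ℂ, v ≠ 0 → 0 < holSecCoord (g.coeff φ) z v

/-- `IsBlowUp π S` says that the map `π : X → Y` of complex surfaces is the blow-up of `Y` at
the points of `S`.

* `away`: over the complement of `S`, `π` is biholomorphic.  Every point outside `S` lies in
  the domain of a holomorphic chart `φ` of `Y` such that `φ ∘ π` is a holomorphic chart of
  `X`, with domain `π ⁻¹' φ.source` and with the same image as `φ`.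
* `near`: over a neighbourhood of every point `c` of `S`, `π` is the standard blow-up of the
  origin of `ℂ²`.  There are a holomorphic chart `φ` of `Y` centred at `c`, whose domain
  contains no other point of `S`, and two holomorphic charts `ψ₁`, `ψ₂` of `X` whose domains
  together make up `π ⁻¹' φ.source`, in which `π` is given by the maps
  `(a, b) ↦ (b, ab)` and `(a, b) ↦ (ab, a)` (the two affine charts of the blow-up of `ℂ²` at
  the origin), the images of `ψ₁`, `ψ₂` being the full preimages of the image of `φ` under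
  these two maps. -/
structure IsBlowUp {X Y : Type*} [TopologicalSpace X] [ChartedSpace (ℂ × ℂ) X]
    [TopologicalSpace Y] [ChartedSpace (ℂ × ℂ) Y] (π : X → Y) (S : Set Y) : Prop where
  /-- over the complement of `S`, `π` is biholomorphic -/
  away : ∀ y ∉ S, ∃ φ ∈ IsManifold.maximalAtlas 𝓘(ℂ, ℂ × ℂ) ω Y,
    ∃ ψ ∈ IsManifold.maximalAtlas 𝓘(ℂ, ℂ × ℂ) ω X,
      y ∈ φ.source ∧ ψ.source = π ⁻¹' φ.source ∧ ψ.target = φ.target ∧
        ∀ x ∈ ψ.source, φ (π x) = ψ x
  /-- near the points of `S`, `π` is the standard blow-up -/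
  near : ∀ c ∈ S, ∃ φ ∈ IsManifold.maximalAtlas 𝓘(ℂ, ℂ × ℂ) ω Y,
    ∃ ψ₁ ∈ IsManifold.maximalAtlas 𝓘(ℂ, ℂ × ℂ) ω X,
    ∃ ψ₂ ∈ IsManifold.maximalAtlas 𝓘(ℂ, ℂ × ℂ) ω X,
      φ.source ∩ S = {c} ∧ φ c = 0 ∧ ψ₁.source ∪ ψ₂.source = π ⁻¹' φ.source ∧
        ψ₁.target = {p | (p.2, p.1 * p.2) ∈ φ.target} ∧
        ψ₂.target = {p | (p.1 * p.2, p.1) ∈ φ.target} ∧
        (∀ x ∈ ψ₁.source, φ (π x) = ((ψ₁ x).2, (ψ₁ x).1 * (ψ₁ x).2)) ∧
        ∀ x ∈ ψ₂.source, φ (π x) = ((ψ₂ x).1 * (ψ₂ x).2, (ψ₂ x).1)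

end Pool.Agent.J6H64.HSC
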