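import Mathlib

/-!
A lower bound for the quadratic form of the inverse of a positive definite matrix.
-/

namespace Pool.Agent.J6H64.HSC

open Matrix ComplexConjugate ComplexOrder

theorem inv_quad_ge (G : Matrix (Fin 2) (Fin 2) ℂ) (hG : G.PosDef) (ξ η : Fin 2 → ℂ) :
    0 ≤ ((∑ p, ∑ q, G⁻¹ q p * ξ q * conj (ξ p)) - (∑ q, ξ q * conj (η q)) -
      (∑ p, conj (ξ p) * η p) + ∑ p, ∑ q, η p * conj (η q) * G p q).re := by
  have hU : IsUnit G := hG.isUnit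
  have hd : IsUnit G.det := (Matrix.isUnit_iff_isUnit_det G).mp hU
  have h1 := hG.inv.posSemidef.dotProduct_mulVec_nonneg (fun p => conj (ξ p) - (G *ᵥ star η) p)
  have hH : Gᴴ = G := hG.isHermitian
  have hx : (fun p => conj (ξ p) - (G *ᵥ star η) p) = star ξ - G *ᵥ star η := by
    ext p; rfl
  have hs : star (star ξ - G *ᵥ star η) = ξ - η ᵥ* G := by
    rw [star_sub, star_star, star_mulVec, star_star, hH]
  rw [hx, hs] at h1
  have h2 : (ξ - η ᵥ* G) ⬝ᵥ (G⁻¹ *ᵥ (star ξ - G *ᵥ star η)) =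
      ξ ⬝ᵥ (G⁻¹ *ᵥ star ξ) - ξ ⬝ᵥ star η - η ⬝ᵥ star ξ + η ⬝ᵥ (G *ᵥ star η) := by
    rw [mulVec_sub, mulVec_mulVec, Matrix.nonsing_inv_mul _ hd, one_mulVec, sub_dotProduct,
      dotProduct_sub, dotProduct_sub]
    have e1 : (η ᵥ* G) ⬝ᵥ (G⁻¹ *ᵥ star ξ) = η ⬝ᵥ star ξ := by
      rw [dotProduct_mulVec, vecMul_vecMul, Matrix.mul_nonsing_inv _ hd, vecMul_one]
    have e2 : (η ᵥ* G) ⬝ᵥ star η = η ⬝ᵥ (G *ᵥ star η) := by
      rw [dotProduct_mulVec]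
    rw [e1, e2]; ring
  rw [h2] at h1
  have h3 := (Complex.le_def.mp h1).1
  refine le_trans (le_of_eq (by simp)) (le_trans h3 (le_of_eq ?_))
  congr 1
  simp only [dotProduct, mulVec, Fin.sum_univ_two, Pi.star_apply, RCLike.star_def]
  ring

end Pool.Agent.J6H64.HSC
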