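import Pool.Agent.J6H64.HSC.Wirt
import Pool.Agent.J6H64.HSC.MatLemma

/-!
Metrics `∂∂̄ log ∑ cᵢ |Zᵢ|²` with `Z` holomorphic, and a lower bound for their curvature.
-/

namespace Pool.Agent.J6H64.HSC

open Complex ComplexConjugate ComplexOrder

section algebra

variable {ι : Type*} [Fintype ι] (c : ι → ℝ)

/-- weighted Hermitian product. -/
noncomputable def hp (x y : ι → ℂ) : ℂ := ∑ i, (c i : ℂ) * (x i * conj (y i))

theorem hp_add_left (x x' y : ι → ℂ) : hp c (x + x') y = hp c x y + hp c x' y := by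
  simp only [hp, Pi.add_apply, ← Finset.sum_add_distrib]
  exact Finset.sum_congr rfl fun i _ => by ring

theorem hp_smul_left (a : ℂ) (x y : ι → ℂ) : hp c (a • x) y = a * hp c x y := by
  simp only [hp, Pi.smul_apply, smul_eq_mul, Finset.mul_sum]
  exact Finset.sum_congr rfl fun i _ => by ring

theorem hp_conj (x y : ι → ℂ) : conj (hp c x y) = hp c y x := by
  simp only [hp, map_sum, map_mul, conj_conj, conj_ofReal]
  exact Finset.sum_congr rfl fun i _ => by ring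

theorem hp_add_right (x y y' : ι → ℂ) : hp c x (y + y') = hp c x y + hp c x y' := by
  rw [← hp_conj c (y + y') x, hp_add_left, map_add, hp_conj, hp_conj]

theorem hp_smul_right (a : ℂ) (x y : ι → ℂ) : hp c x (a • y) = conj a * hp c x y := by
  rw [← hp_conj c (a • y) x, hp_smul_left, map_mul, hp_conj]

theorem hp_self_re (x : ι → ℂ) : (hp c x x).re = ∑ i, c i * Complex.normSq (x i) := by
  simp only [hp, Complex.re_sum]
  refine Finset.sum_congr rfl fun i _ => ?_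
  rw [Complex.mul_conj, ← Complex.ofReal_mul, Complex.ofReal_re]

/-- the form `P ⟨x, y⟩ - ⟨x, Z⟩ ⟨Z, y⟩`. -/
noncomputable def Wf (Z x y : ι → ℂ) : ℂ := hp c Z Z * hp c x y - hp c x Z * hp c Z y

theorem Wf_add_left (Z x x' y : ι → ℂ) : Wf c Z (x + x') y = Wf c Z x y + Wf c Z x' y := by
  simp only [Wf, hp_add_left]; ring

theorem Wf_smul_left (Z : ι → ℂ) (a : ℂ) (x y : ι → ℂ) :
    Wf c Z (a • x) y = a * Wf c Z x y := by
  simp only [Wf, hp_smul_left]; ring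

theorem Wf_conj (Z x y : ι → ℂ) : conj (Wf c Z x y) = Wf c Z y x := by
  simp only [Wf, map_sub, map_mul, hp_conj]; ring

theorem Wf_add_right (Z x y y' : ι → ℂ) : Wf c Z x (y + y') = Wf c Z x y + Wf c Z x y' := by
  simp only [Wf, hp_add_right]; ring

theorem Wf_smul_right (Z : ι → ℂ) (a : ℂ) (x y : ι → ℂ) :
    Wf c Z x (a • y) = conj a * Wf c Z x y := by
  simp only [Wf, hp_smul_right]; ring

theorem Wf_self_left (Z y : ι → ℂ) : Wf c Z Z y = 0 := by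
  simp only [Wf]; ring

theorem Wf_self_right (Z x : ι → ℂ) : Wf c Z x Z = 0 := by
  simp only [Wf]; ring

/-- scaling of the base vector. -/
theorem Wf_smul_base (a : ℂ) (Z x y : ι → ℂ) :
    Wf c (a • Z) x y = a * conj a * Wf c Z x y := by
  simp only [Wf, hp_smul_left, hp_smul_right]; ring

theorem Wf_self_eq (Z x : ι → ℂ) :
    hp c Z Z * Wf c Z x x = hp c (hp c Z Z • x - hp c x Z • Z) (hp c Z Z • x - hp c x Z • Z) := by
  have e : hp c Z Z • x - hp c x Z • Z = hp c Z Z • x + (-hp c x Z) • Z := by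
    rw [sub_eq_add_neg, neg_smul]
  rw [e]
  simp only [hp_add_left, hp_add_right, hp_smul_left, hp_smul_right, Wf, map_neg, hp_conj]
  ring

theorem hp_self_real (x : ι → ℂ) : hp c x x = (((hp c x x).re : ℝ) : ℂ) := by
  have h := hp_conj c x x
  exact (Complex.conj_eq_iff_re.mp h).symm

theorem Wf_self_real (Z x : ι → ℂ) : Wf c Z x x = (((Wf c Z x x).re : ℝ) : ℂ) := by
  have h := Wf_conj c Z x x
  exact (Complex.conj_eq_iff_re.mp h).symm

end algebra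

section calculus

variable {ι : Type*} [Fintype ι] (c : ι → ℝ)

theorem hasW_hp {X Y : ℂ × ℂ → ι → ℂ} {X' Y' : ℂ × ℂ → ι → ℂ} {z : ℂ × ℂ}
    (hX : ∀ i, HasW (fun x => X x i) z (fun u => X' u i) (fun _ => 0))
    (hY : ∀ i, HasW (fun x => Y x i) z (fun u => Y' u i) (fun _ => 0)) :
    HasW (fun x => hp c (X x) (Y x)) z (fun u => hp c (X' u) (Y z))
      (fun u => hp c (X z) (Y' u)) := by
  unfold hp
  refine HasW.congr_right (HasW.sum Finset.univ fun i _ =>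
    (HasW.const (z := z) ((c i : ℂ))).mul ((hX i).mul (hY i).conj')) ?_ ?_
  · intro v
    refine Finset.sum_congr rfl fun i _ => ?_
    simp only [map_zero]; ring
  · intro v
    refine Finset.sum_congr rfl fun i _ => ?_
    ring

/-- Data of a holomorphic map `Z` with its first and second derivatives. -/
structure HolMap (ι : Type*) where
  /-- the map -/
  Z : ℂ × ℂ → ι → ℂ
  /-- its derivative -/
  Z1 : ℂ × ℂ → ℂ × ℂ → ι → ℂ
  /-- its second derivative -/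
  Z2 : ℂ × ℂ → ℂ × ℂ → ℂ × ℂ → ι → ℂ
  /-- its third derivative -/
  Z3 : ℂ × ℂ → ℂ × ℂ → ℂ × ℂ → ℂ × ℂ → ι → ℂ
  hZ : ∀ z i, HasW (fun x => Z x i) z (fun u => Z1 z u i) (fun _ => 0)
  hZ1 : ∀ z v i, HasW (fun x => Z1 x v i) z (fun u => Z2 z v u i) (fun _ => 0)
  hZ2 : ∀ z v w i, HasW (fun x => Z2 x v w i) z (fun u => Z3 z v w u i) (fun _ => 0)
  Z1_add : ∀ z v w, Z1 z (v + w) = Z1 z v + Z1 z w
  Z1_smul : ∀ z (a : ℂ) v, Z1 z (a • v) = a • Z1 z v
  Z2_symm : ∀ z v w, Z2 z v w = Z2 z w v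

variable (F : HolMap ι)

/-- the potential `P = ∑ cᵢ |Zᵢ|²`. -/
noncomputable def HolMap.P (z : ℂ × ℂ) : ℂ := hp c (F.Z z) (F.Z z)

/-- the metric `∂∂̄ log P`. -/
noncomputable def HolMap.g (z v w : ℂ × ℂ) : ℂ :=
  Wf c (F.Z z) (F.Z1 z v) (F.Z1 z w) / (F.P c z) ^ 2

theorem HolMap.g_add_left (z v v' w : ℂ × ℂ) : F.g c z (v + v') w = F.g c z v w + F.g c z v' w := by
  simp only [HolMap.g, F.Z1_add, Wf_add_left]; ring

theorem HolMap.g_smul_left (z : ℂ × ℂ) (a : ℂ) (v w : ℂ × ℂ) :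
    F.g c z (a • v) w = a * F.g c z v w := by
  simp only [HolMap.g, F.Z1_smul, Wf_smul_left]; ring

theorem HolMap.P_conj (z : ℂ × ℂ) : conj (F.P c z) = F.P c z := hp_conj c _ _

theorem HolMap.g_conj (z v w : ℂ × ℂ) : F.g c z w v = conj (F.g c z v w) := by
  simp only [HolMap.g, map_div₀, map_pow, Wf_conj, F.P_conj]

theorem HolMap.g_add_right (z v w w' : ℂ × ℂ) :
    F.g c z v (w + w') = F.g c z v w + F.g c z v w' := by
  simp only [HolMap.g, F.Z1_add, Wf_add_right]; ring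

theorem HolMap.g_smul_right (z : ℂ × ℂ) (a : ℂ) (v w : ℂ × ℂ) :
    F.g c z v (a • w) = conj a * F.g c z v w := by
  simp only [HolMap.g, F.Z1_smul, Wf_smul_right]; ring

theorem HolMap.hasW_P (z : ℂ × ℂ) :
    HasW (F.P c) z (fun u => hp c (F.Z1 z u) (F.Z z)) (fun u => hp c (F.Z z) (F.Z1 z u)) :=
  hasW_hp c (F.hZ z) (F.hZ z)

/-- first derivative of the metric coefficients. -/
theorem HolMap.hasW_g (z v w : ℂ × ℂ) (hP : F.P c z ≠ 0) :
    HasW (fun x => F.g c x v w) z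
      (fun u => (F.P c z * hp c (F.Z2 z v u) (F.Z1 z w) + hp c (F.Z1 z u) (F.Z z) *
          hp c (F.Z1 z v) (F.Z1 z w) - hp c (F.Z2 z v u) (F.Z z) * hp c (F.Z z) (F.Z1 z w) -
          hp c (F.Z1 z v) (F.Z z) * hp c (F.Z1 z u) (F.Z1 z w)) / (F.P c z) ^ 2 -
        2 * Wf c (F.Z z) (F.Z1 z v) (F.Z1 z w) * hp c (F.Z1 z u) (F.Z z) / (F.P c z) ^ 3)
      (fun u => (F.P c z * hp c (F.Z1 z v) (F.Z2 z w u) + hp c (F.Z z) (F.Z1 z u) *
          hp c (F.Z1 z v) (F.Z1 z w) - hp c (F.Z1 z v) (F.Z1 z u) * hp c (F.Z z) (F.Z1 z w) -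
          hp c (F.Z1 z v) (F.Z z) * hp c (F.Z z) (F.Z2 z w u)) / (F.P c z) ^ 2 -
        2 * Wf c (F.Z z) (F.Z1 z v) (F.Z1 z w) * hp c (F.Z z) (F.Z1 z u) / (F.P c z) ^ 3) := by
  have a1 := F.hasW_P c z
  have a2 := hasW_hp c (F.hZ1 z v) (F.hZ1 z w)
  have a3 := hasW_hp c (F.hZ1 z v) (F.hZ z)
  have a4 := hasW_hp c (F.hZ z) (F.hZ1 z w)
  have hP2 : F.P c z * F.P c z ≠ 0 := mul_ne_zero hP hP
  have := (((a1.mul a2).sub (a3.mul a4)).div (a1.mul a1) hP2)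
  have e : (fun x => F.g c x v w) = fun x => (F.P c x * hp c (F.Z1 x v) (F.Z1 x w) -
      hp c (F.Z1 x v) (F.Z x) * hp c (F.Z x) (F.Z1 x w)) / (F.P c x * F.P c x) := by
    funext x
    simp only [HolMap.g, Wf, HolMap.P, sq]
  rw [e]
  refine this.congr_right (fun u => ?_) (fun u => ?_)
  · simp only [Wf]
    have : hp c (F.Z z) (F.Z z) = F.P c z := rfl
    rw [this]
    field_simp
    ring
  · simp only [Wf]
    have : hp c (F.Z z) (F.Z z) = F.P c z := rfl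
    rw [this]
    field_simp
    ring

/-- The Kähler condition. -/
theorem HolMap.closed (z u v w : ℂ × ℂ) (hP : F.P c z ≠ 0) :
    dHol u (fun x => F.g c x v w) z = dHol v (fun x => F.g c x u w) z := by
  rw [(F.hasW_g c z v w hP).dHol_eq, (F.hasW_g c z u w hP).dHol_eq, F.Z2_symm z u v]
  simp only [Wf]
  have : hp c (F.Z z) (F.Z z) = F.P c z := rfl
  rw [this]
  field_simp
  ring


theorem HolMap.Z1_std (z : ℂ × ℂ) (η : Fin 2 → ℂ) :
    F.Z1 z (η 0, η 1) = η 0 • F.Z1 z (stdVec 0) + η 1 • F.Z1 z (stdVec 1) := by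
  rw [← F.Z1_smul, ← F.Z1_smul, ← F.Z1_add]
  congr 1
  simp [stdVec]

/-- the second order term of the curvature. -/
theorem HolMap.second_order (z v : ℂ × ℂ) (hP : ∀ x, F.P c x ≠ 0) :
    dHol v (fun x => dAnti v (fun y => F.g c y v v) x) z =
      (F.P c z * hp c (F.Z2 z v v) (F.Z2 z v v) -
          hp c (F.Z2 z v v) (F.Z z) * hp c (F.Z z) (F.Z2 z v v)) / (F.P c z) ^ 2 -
        2 * (F.P c z * hp c (F.Z1 z v) (F.Z2 z v v) -
          hp c (F.Z1 z v) (F.Z z) * hp c (F.Z z) (F.Z2 z v v)) *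
          hp c (F.Z1 z v) (F.Z z) / (F.P c z) ^ 3 -
        2 * (F.P c z * hp c (F.Z2 z v v) (F.Z1 z v) -
          hp c (F.Z2 z v v) (F.Z z) * hp c (F.Z z) (F.Z1 z v)) *
          hp c (F.Z z) (F.Z1 z v) / (F.P c z) ^ 3 -
        2 * Wf c (F.Z z) (F.Z1 z v) (F.Z1 z v) * hp c (F.Z1 z v) (F.Z1 z v) / (F.P c z) ^ 3 +
        6 * Wf c (F.Z z) (F.Z1 z v) (F.Z1 z v) * hp c (F.Z z) (F.Z1 z v) *
          hp c (F.Z1 z v) (F.Z z) / (F.P c z) ^ 4 := by
  have e : (fun x => dAnti v (fun y => F.g c y v v) x) = fun x =>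
      (F.P c x * hp c (F.Z1 x v) (F.Z2 x v v) -
        hp c (F.Z1 x v) (F.Z x) * hp c (F.Z x) (F.Z2 x v v)) / (F.P c x * F.P c x) -
      (2 * (F.P c x * hp c (F.Z1 x v) (F.Z1 x v) -
        hp c (F.Z1 x v) (F.Z x) * hp c (F.Z x) (F.Z1 x v)) * hp c (F.Z x) (F.Z1 x v)) /
        (F.P c x * (F.P c x * F.P c x)) := by
    funext x
    rw [(F.hasW_g c x v v (hP x)).dAnti_eq]
    simp only [Wf]
    have : hp c (F.Z x) (F.Z x) = F.P c x := rfl
    rw [this]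
    have hx := hP x
    field_simp
    ring
  rw [e]
  have a00 := F.hasW_P c z
  have a11 := hasW_hp c (F.hZ1 z v) (F.hZ1 z v)
  have a10 := hasW_hp c (F.hZ1 z v) (F.hZ z)
  have a01 := hasW_hp c (F.hZ z) (F.hZ1 z v)
  have a12 := hasW_hp c (F.hZ1 z v) (F.hZ2 z v v)
  have a02 := hasW_hp c (F.hZ z) (F.hZ2 z v v)
  have h0 := hP z
  have hP2 : F.P c z * F.P c z ≠ 0 := mul_ne_zero h0 h0
  have hP3 : F.P c z * (F.P c z * F.P c z) ≠ 0 := mul_ne_zero h0 hP2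
  have key := (((a00.mul a12).sub (a10.mul a02)).div (a00.mul a00) hP2).sub
    ((((HasW.const (z := z) 2).mul ((a00.mul a11).sub (a10.mul a01))).mul a01).div
      (a00.mul (a00.mul a00)) hP3)
  rw [key.dHol_eq]
  simp only [Wf]
  have : hp c (F.Z z) (F.Z z) = F.P c z := rfl
  rw [this]
  field_simp
  ring

/-- The lower bound for the curvature. -/
theorem HolMap.curvature_ge (z v η : ℂ × ℂ) (hP : ∀ x, F.P c x ≠ 0)
    (hG : (coeffMatrix (F.g c) z).PosDef) :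
    (2 * (Wf c (F.Z z) (F.Z1 z v) (F.Z1 z v)) ^ 2 / (F.P c z) ^ 4 -
      Wf c (F.Z z) (F.Z2 z v v - F.Z1 z η) (F.Z2 z v v - F.Z1 z η) / (F.P c z) ^ 2).re ≤
    (curvature (F.g c) z v).re := by
  have h0 := hP z
  set P := F.P c z with hPdef
  set k : ℂ := 2 * hp c (F.Z1 z v) (F.Z z) / P with hk
  set ξ : Fin 2 → ℂ := fun q => (Wf c (F.Z z) (F.Z2 z v v) (F.Z1 z (stdVec q)) -
    k * Wf c (F.Z z) (F.Z1 z v) (F.Z1 z (stdVec q))) / P ^ 2 with hξ
  have hξ1 : ∀ q, dHol v (fun x => F.g c x v (stdVec q)) z = ξ q := by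
    intro q
    rw [(F.hasW_g c z v (stdVec q) h0).dHol_eq, hξ, hk]
    simp only [Wf, ← hPdef]
    have : hp c (F.Z z) (F.Z z) = P := rfl
    rw [this]
    field_simp
    ring
  have hξ2 : ∀ p, dAnti v (fun x => F.g c x (stdVec p) v) z = conj (ξ p) := by
    intro p
    rw [(F.hasW_g c z (stdVec p) v h0).dAnti_eq, hξ, hk]
    simp only [map_div₀, map_sub, map_mul, map_pow, Wf_conj, hp_conj, map_ofNat]
    have hPc : conj P = P := F.P_conj c z
    rw [hPc]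
    simp only [Wf, ← hPdef]
    have : hp c (F.Z z) (F.Z z) = P := rfl
    rw [this]
    field_simp
    ring
  set η' : Fin 2 → ℂ := fun q => if q = 0 then η.1 - k * v.1 else η.2 - k * v.2 with hη'
  have hη1 : F.Z1 z (η' 0, η' 1) = F.Z1 z η + (-k) • F.Z1 z v := by
    rw [← F.Z1_smul, ← F.Z1_add]
    congr 1
    simp only [hη', Prod.ext_iff]
    constructor
    · simp; ring
    · simp; ring
  have hq := inv_quad_ge (coeffMatrix (F.g c) z) hG ξ η'
  have hZη := F.Z1_std z η'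
  -- the sums
  have s1 : ∑ q, ξ q * conj (η' q) =
      (Wf c (F.Z z) (F.Z2 z v v) (F.Z1 z (η' 0, η' 1)) -
        k * Wf c (F.Z z) (F.Z1 z v) (F.Z1 z (η' 0, η' 1))) / P ^ 2 := by
    rw [hZη, Fin.sum_univ_two]
    simp only [Wf_add_right, Wf_smul_right, hξ]
    field_simp
    ring
  have s2 : ∑ p, conj (ξ p) * η' p =
      (Wf c (F.Z z) (F.Z1 z (η' 0, η' 1)) (F.Z2 z v v) -
        conj k * Wf c (F.Z z) (F.Z1 z (η' 0, η' 1)) (F.Z1 z v)) / P ^ 2 := by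
    rw [hZη, Fin.sum_univ_two]
    simp only [Wf_add_left, Wf_smul_left, hξ, map_div₀, map_sub, map_mul, map_pow, Wf_conj]
    have hPc : conj P = P := F.P_conj c z
    rw [hPc]
    field_simp
    ring
  have s3 : ∑ p, ∑ q, η' p * conj (η' q) * coeffMatrix (F.g c) z p q =
      Wf c (F.Z z) (F.Z1 z (η' 0, η' 1)) (F.Z1 z (η' 0, η' 1)) / P ^ 2 := by
    rw [hZη]
    simp only [Fin.sum_univ_two, coeffMatrix, Matrix.of_apply, HolMap.g, Wf_add_left,
      Wf_smul_left, Wf_add_right, Wf_smul_right, ← hPdef]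
    field_simp
    ring
  rw [s1, s2, s3, hη1] at hq
  have hcurv : curvature (F.g c) z v = -(dHol v (fun x => dAnti v (fun y => F.g c y v v) x) z) +
      ∑ p, ∑ q, (coeffMatrix (F.g c) z)⁻¹ q p * ξ q * conj (ξ p) := by
    unfold curvature
    simp only [hξ1, hξ2]
  rw [hcurv, F.second_order c z v hP]
  have hkey : (2 * (Wf c (F.Z z) (F.Z1 z v) (F.Z1 z v)) ^ 2 / P ^ 4 -
      Wf c (F.Z z) (F.Z2 z v v - F.Z1 z η) (F.Z2 z v v - F.Z1 z η) / P ^ 2) =
      -((P * hp c (F.Z2 z v v) (F.Z2 z v v) -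
          hp c (F.Z2 z v v) (F.Z z) * hp c (F.Z z) (F.Z2 z v v)) / P ^ 2 -
        2 * (P * hp c (F.Z1 z v) (F.Z2 z v v) -
          hp c (F.Z1 z v) (F.Z z) * hp c (F.Z z) (F.Z2 z v v)) *
          hp c (F.Z1 z v) (F.Z z) / P ^ 3 -
        2 * (P * hp c (F.Z2 z v v) (F.Z1 z v) -
          hp c (F.Z2 z v v) (F.Z z) * hp c (F.Z z) (F.Z1 z v)) *
          hp c (F.Z z) (F.Z1 z v) / P ^ 3 -
        2 * Wf c (F.Z z) (F.Z1 z v) (F.Z1 z v) * hp c (F.Z1 z v) (F.Z1 z v) / P ^ 3 +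
        6 * Wf c (F.Z z) (F.Z1 z v) (F.Z1 z v) * hp c (F.Z z) (F.Z1 z v) *
          hp c (F.Z1 z v) (F.Z z) / P ^ 4) +
      ((Wf c (F.Z z) (F.Z2 z v v) (F.Z1 z η + (-k) • F.Z1 z v) -
        k * Wf c (F.Z z) (F.Z1 z v) (F.Z1 z η + (-k) • F.Z1 z v)) / P ^ 2 +
      (Wf c (F.Z z) (F.Z1 z η + (-k) • F.Z1 z v) (F.Z2 z v v) -
        conj k * Wf c (F.Z z) (F.Z1 z η + (-k) • F.Z1 z v) (F.Z1 z v)) / P ^ 2 -
      Wf c (F.Z z) (F.Z1 z η + (-k) • F.Z1 z v) (F.Z1 z η + (-k) • F.Z1 z v) / P ^ 2) := by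
    have e : F.Z2 z v v - F.Z1 z η = F.Z2 z v v + (-1 : ℂ) • F.Z1 z η := by
      rw [neg_one_smul, sub_eq_add_neg]
    rw [e]
    have hkc : conj k = 2 * hp c (F.Z z) (F.Z1 z v) / P := by
      rw [hk]
      simp only [map_div₀, map_mul, hp_conj, map_ofNat]
      have hPc : conj P = P := F.P_conj c z
      rw [hPc]
    simp only [Wf_add_left, Wf_smul_left, Wf_add_right, Wf_smul_right, map_neg, map_one, hkc]
    simp only [Wf, hk]
    have : hp c (F.Z z) (F.Z z) = P := rfl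
    rw [this]
    field_simp
    ring
  rw [← hPdef, hkey]
  simp only [Complex.add_re, Complex.sub_re, Complex.neg_re] at hq ⊢
  linarith

end calculus

end Pool.Agent.J6H64.HSC
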