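import Mathlib

/-!
Polymorphic formulas for the curvature certificate of the toric metric on the degree six
del Pezzo surface.
-/

namespace Pool.Agent.J6H64.HSC

/-- A formal difference `p - n` of two elements of a semiring. -/
structure Df (R : Type*) where
  /-- positive part -/
  p : R
  /-- negative part -/
  n : R

namespace Df
variable {R : Type*}
instance [Add R] : Add (Df R) := ⟨fun x y => ⟨x.p + y.p, x.n + y.n⟩⟩
instance [Add R] : Sub (Df R) := ⟨fun x y => ⟨x.p + y.n, x.n + y.p⟩⟩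
instance [Add R] [Mul R] : Mul (Df R) :=
  ⟨fun x y => ⟨x.p * y.p + x.n * y.n, x.p * y.n + x.n * y.p⟩⟩
instance [NatCast R] : NatCast (Df R) := ⟨fun k => ⟨(k : R), ((0 : ℕ) : R)⟩⟩
end Df

section
variable {K : Type*} [Add K] [Sub K] [Mul K] [NatCast K]

/-- Gram polynomial (0,0). -/
def gP (U E W H : K) : K :=
    ((3 : ℕ) : K) * E * E * E * E * H * H * H * H +
    ((8 : ℕ) : K) * E * E * E * E * W * H * H * H +
    ((3 : ℕ) : K) * E * E * E * E * W * W * H * H +
    ((8 : ℕ) : K) * U * E * E * E * H * H * H * H +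
    ((36 : ℕ) : K) * U * E * E * E * W * H * H * H +
    ((36 : ℕ) : K) * U * E * E * E * W * W * H * H +
    ((8 : ℕ) : K) * U * E * E * E * W * W * W * H +
    ((3 : ℕ) : K) * U * U * E * E * H * H * H * H +
    ((36 : ℕ) : K) * U * U * E * E * W * H * H * H +
    ((36 : ℕ) : K) * U * U * E * E * W * W * H * H +
    ((36 : ℕ) : K) * U * U * E * E * W * W * W * H +
    ((3 : ℕ) : K) * U * U * E * E * W * W * W * W +
    ((8 : ℕ) : K) * U * U * U * E * W * H * H * H +
    ((36 : ℕ) : K) * U * U * U * E * W * W * H * H +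
    ((36 : ℕ) : K) * U * U * U * E * W * W * W * H +
    ((8 : ℕ) : K) * U * U * U * E * W * W * W * W +
    ((3 : ℕ) : K) * U * U * U * U * W * W * H * H +
    ((8 : ℕ) : K) * U * U * U * U * W * W * W * H +
    ((3 : ℕ) : K) * U * U * U * U * W * W * W * W

/-- Gram polynomial (1,0). -/
def g1 (U E W H : K) : K :=
    ((8 : ℕ) : K) * E * E * E * H * H * H * H +
    ((36 : ℕ) : K) * E * E * E * W * H * H * H +
    ((36 : ℕ) : K) * E * E * E * W * W * H * H +
    ((8 : ℕ) : K) * E * E * E * W * W * W * H +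
    ((6 : ℕ) : K) * U * E * E * H * H * H * H +
    ((72 : ℕ) : K) * U * E * E * W * H * H * H +
    ((72 : ℕ) : K) * U * E * E * W * W * H * H +
    ((72 : ℕ) : K) * U * E * E * W * W * W * H +
    ((6 : ℕ) : K) * U * E * E * W * W * W * W +
    ((24 : ℕ) : K) * U * U * E * W * H * H * H +
    ((108 : ℕ) : K) * U * U * E * W * W * H * H +
    ((108 : ℕ) : K) * U * U * E * W * W * W * H +
    ((24 : ℕ) : K) * U * U * E * W * W * W * W +
    ((12 : ℕ) : K) * U * U * U * W * W * H * H +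
    ((32 : ℕ) : K) * U * U * U * W * W * W * H +
    ((12 : ℕ) : K) * U * U * U * W * W * W * W

/-- Gram polynomial (2,0). -/
def g2 (U E W H : K) : K :=
    ((8 : ℕ) : K) * E * E * E * E * H * H * H +
    ((6 : ℕ) : K) * E * E * E * E * W * H * H +
    ((36 : ℕ) : K) * U * E * E * E * H * H * H +
    ((72 : ℕ) : K) * U * E * E * E * W * H * H +
    ((24 : ℕ) : K) * U * E * E * E * W * W * H +
    ((36 : ℕ) : K) * U * U * E * E * H * H * H +
    ((72 : ℕ) : K) * U * U * E * E * W * H * H +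
    ((108 : ℕ) : K) * U * U * E * E * W * W * H +
    ((12 : ℕ) : K) * U * U * E * E * W * W * W +
    ((8 : ℕ) : K) * U * U * U * E * H * H * H +
    ((72 : ℕ) : K) * U * U * U * E * W * H * H +
    ((108 : ℕ) : K) * U * U * U * E * W * W * H +
    ((32 : ℕ) : K) * U * U * U * E * W * W * W +
    ((6 : ℕ) : K) * U * U * U * U * W * H * H +
    ((24 : ℕ) : K) * U * U * U * U * W * W * H +
    ((12 : ℕ) : K) * U * U * U * U * W * W * W

/-- Gram polynomial (3,0). -/
def g3 (U E W H : K) : K :=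
    ((6 : ℕ) : K) * E * E * H * H * H * H +
    ((72 : ℕ) : K) * E * E * W * H * H * H +
    ((72 : ℕ) : K) * E * E * W * W * H * H +
    ((72 : ℕ) : K) * E * E * W * W * W * H +
    ((6 : ℕ) : K) * E * E * W * W * W * W +
    ((48 : ℕ) : K) * U * E * W * H * H * H +
    ((216 : ℕ) : K) * U * E * W * W * H * H +
    ((216 : ℕ) : K) * U * E * W * W * W * H +
    ((48 : ℕ) : K) * U * E * W * W * W * W +
    ((36 : ℕ) : K) * U * U * W * W * H * H +
    ((96 : ℕ) : K) * U * U * W * W * W * H +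
    ((36 : ℕ) : K) * U * U * W * W * W * W

/-- Gram polynomial (4,0). -/
def g4 (U E W H : K) : K :=
    ((36 : ℕ) : K) * E * E * E * H * H * H +
    ((72 : ℕ) : K) * E * E * E * W * H * H +
    ((24 : ℕ) : K) * E * E * E * W * W * H +
    ((72 : ℕ) : K) * U * E * E * H * H * H +
    ((144 : ℕ) : K) * U * E * E * W * H * H +
    ((216 : ℕ) : K) * U * E * E * W * W * H +
    ((24 : ℕ) : K) * U * E * E * W * W * W +
    ((24 : ℕ) : K) * U * U * E * H * H * H +
    ((216 : ℕ) : K) * U * U * E * W * H * H +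
    ((324 : ℕ) : K) * U * U * E * W * W * H +
    ((96 : ℕ) : K) * U * U * E * W * W * W +
    ((24 : ℕ) : K) * U * U * U * W * H * H +
    ((96 : ℕ) : K) * U * U * U * W * W * H +
    ((48 : ℕ) : K) * U * U * U * W * W * W

/-- Gram polynomial (5,0). -/
def g5 (U E W H : K) : K :=
    ((6 : ℕ) : K) * E * E * E * E * H * H +
    ((72 : ℕ) : K) * U * E * E * E * H * H +
    ((48 : ℕ) : K) * U * E * E * E * W * H +
    ((72 : ℕ) : K) * U * U * E * E * H * H +
    ((216 : ℕ) : K) * U * U * E * E * W * H +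
    ((36 : ℕ) : K) * U * U * E * E * W * W +
    ((72 : ℕ) : K) * U * U * U * E * H * H +
    ((216 : ℕ) : K) * U * U * U * E * W * H +
    ((96 : ℕ) : K) * U * U * U * E * W * W +
    ((6 : ℕ) : K) * U * U * U * U * H * H +
    ((48 : ℕ) : K) * U * U * U * U * W * H +
    ((36 : ℕ) : K) * U * U * U * U * W * W

/-- Gram polynomial (1,1). -/
def g11 (U E W H : K) : K :=
    ((8 : ℕ) : K) * E * E * E * H * H * H * H +
    ((36 : ℕ) : K) * E * E * E * W * H * H * H +
    ((36 : ℕ) : K) * E * E * E * W * W * H * H +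
    ((8 : ℕ) : K) * E * E * E * W * W * W * H +
    ((12 : ℕ) : K) * U * E * E * H * H * H * H +
    ((144 : ℕ) : K) * U * E * E * W * H * H * H +
    ((144 : ℕ) : K) * U * E * E * W * W * H * H +
    ((144 : ℕ) : K) * U * E * E * W * W * W * H +
    ((12 : ℕ) : K) * U * E * E * W * W * W * W +
    ((72 : ℕ) : K) * U * U * E * W * H * H * H +
    ((324 : ℕ) : K) * U * U * E * W * W * H * H +
    ((324 : ℕ) : K) * U * U * E * W * W * W * H +
    ((72 : ℕ) : K) * U * U * E * W * W * W * W +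
    ((48 : ℕ) : K) * U * U * U * W * W * H * H +
    ((128 : ℕ) : K) * U * U * U * W * W * W * H +
    ((48 : ℕ) : K) * U * U * U * W * W * W * W

/-- Gram polynomial (1,2). -/
def g12 (U E W H : K) : K :=
    ((36 : ℕ) : K) * E * E * E * H * H * H +
    ((72 : ℕ) : K) * E * E * E * W * H * H +
    ((24 : ℕ) : K) * E * E * E * W * W * H +
    ((72 : ℕ) : K) * U * E * E * H * H * H +
    ((144 : ℕ) : K) * U * E * E * W * H * H +
    ((216 : ℕ) : K) * U * E * E * W * W * H +
    ((24 : ℕ) : K) * U * E * E * W * W * W +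
    ((24 : ℕ) : K) * U * U * E * H * H * H +
    ((216 : ℕ) : K) * U * U * E * W * H * H +
    ((324 : ℕ) : K) * U * U * E * W * W * H +
    ((96 : ℕ) : K) * U * U * E * W * W * W +
    ((24 : ℕ) : K) * U * U * U * W * H * H +
    ((96 : ℕ) : K) * U * U * U * W * W * H +
    ((48 : ℕ) : K) * U * U * U * W * W * W

/-- Gram polynomial (2,2). -/
def g22 (U E W H : K) : K :=
    ((8 : ℕ) : K) * E * E * E * E * H * H * H +
    ((12 : ℕ) : K) * E * E * E * E * W * H * H +
    ((36 : ℕ) : K) * U * E * E * E * H * H * H +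
    ((144 : ℕ) : K) * U * E * E * E * W * H * H +
    ((72 : ℕ) : K) * U * E * E * E * W * W * H +
    ((36 : ℕ) : K) * U * U * E * E * H * H * H +
    ((144 : ℕ) : K) * U * U * E * E * W * H * H +
    ((324 : ℕ) : K) * U * U * E * E * W * W * H +
    ((48 : ℕ) : K) * U * U * E * E * W * W * W +
    ((8 : ℕ) : K) * U * U * U * E * H * H * H +
    ((144 : ℕ) : K) * U * U * U * E * W * H * H +
    ((324 : ℕ) : K) * U * U * U * E * W * W * H +
    ((128 : ℕ) : K) * U * U * U * E * W * W * W +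
    ((12 : ℕ) : K) * U * U * U * U * W * H * H +
    ((72 : ℕ) : K) * U * U * U * U * W * W * H +
    ((48 : ℕ) : K) * U * U * U * U * W * W * W

/-- Gram polynomial (1,3). -/
def g13 (U E W H : K) : K :=
    ((12 : ℕ) : K) * E * E * H * H * H * H +
    ((144 : ℕ) : K) * E * E * W * H * H * H +
    ((144 : ℕ) : K) * E * E * W * W * H * H +
    ((144 : ℕ) : K) * E * E * W * W * W * H +
    ((12 : ℕ) : K) * E * E * W * W * W * W +
    ((144 : ℕ) : K) * U * E * W * H * H * H +
    ((648 : ℕ) : K) * U * E * W * W * H * H +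
    ((648 : ℕ) : K) * U * E * W * W * W * H +
    ((144 : ℕ) : K) * U * E * W * W * W * W +
    ((144 : ℕ) : K) * U * U * W * W * H * H +
    ((384 : ℕ) : K) * U * U * W * W * W * H +
    ((144 : ℕ) : K) * U * U * W * W * W * W

/-- Gram polynomial (2,3). -/
def g23 (U E W H : K) : K :=
    ((72 : ℕ) : K) * E * E * H * H * H +
    ((144 : ℕ) : K) * E * E * W * H * H +
    ((216 : ℕ) : K) * E * E * W * W * H +
    ((24 : ℕ) : K) * E * E * W * W * W +
    ((48 : ℕ) : K) * U * E * H * H * H +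
    ((432 : ℕ) : K) * U * E * W * H * H +
    ((648 : ℕ) : K) * U * E * W * W * H +
    ((192 : ℕ) : K) * U * E * W * W * W +
    ((72 : ℕ) : K) * U * U * W * H * H +
    ((288 : ℕ) : K) * U * U * W * W * H +
    ((144 : ℕ) : K) * U * U * W * W * W

/-- Gram polynomial (1,4). -/
def g14 (U E W H : K) : K :=
    ((36 : ℕ) : K) * E * E * E * H * H * H +
    ((72 : ℕ) : K) * E * E * E * W * H * H +
    ((24 : ℕ) : K) * E * E * E * W * W * H +
    ((144 : ℕ) : K) * U * E * E * H * H * H +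
    ((288 : ℕ) : K) * U * E * E * W * H * H +
    ((432 : ℕ) : K) * U * E * E * W * W * H +
    ((48 : ℕ) : K) * U * E * E * W * W * W +
    ((72 : ℕ) : K) * U * U * E * H * H * H +
    ((648 : ℕ) : K) * U * U * E * W * H * H +
    ((972 : ℕ) : K) * U * U * E * W * W * H +
    ((288 : ℕ) : K) * U * U * E * W * W * W +
    ((96 : ℕ) : K) * U * U * U * W * H * H +
    ((384 : ℕ) : K) * U * U * U * W * W * H +
    ((192 : ℕ) : K) * U * U * U * W * W * W

/-- Gram polynomial (2,4). -/
def g24 (U E W H : K) : K :=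
    ((36 : ℕ) : K) * E * E * E * H * H * H +
    ((144 : ℕ) : K) * E * E * E * W * H * H +
    ((72 : ℕ) : K) * E * E * E * W * W * H +
    ((72 : ℕ) : K) * U * E * E * H * H * H +
    ((288 : ℕ) : K) * U * E * E * W * H * H +
    ((648 : ℕ) : K) * U * E * E * W * W * H +
    ((96 : ℕ) : K) * U * E * E * W * W * W +
    ((24 : ℕ) : K) * U * U * E * H * H * H +
    ((432 : ℕ) : K) * U * U * E * W * H * H +
    ((972 : ℕ) : K) * U * U * E * W * W * H +
    ((384 : ℕ) : K) * U * U * E * W * W * W +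
    ((48 : ℕ) : K) * U * U * U * W * H * H +
    ((288 : ℕ) : K) * U * U * U * W * W * H +
    ((192 : ℕ) : K) * U * U * U * W * W * W

/-- Gram polynomial (1,5). -/
def g15 (U E W H : K) : K :=
    ((72 : ℕ) : K) * E * E * E * H * H +
    ((48 : ℕ) : K) * E * E * E * W * H +
    ((144 : ℕ) : K) * U * E * E * H * H +
    ((432 : ℕ) : K) * U * E * E * W * H +
    ((72 : ℕ) : K) * U * E * E * W * W +
    ((216 : ℕ) : K) * U * U * E * H * H +
    ((648 : ℕ) : K) * U * U * E * W * H +
    ((288 : ℕ) : K) * U * U * E * W * W +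
    ((24 : ℕ) : K) * U * U * U * H * H +
    ((192 : ℕ) : K) * U * U * U * W * H +
    ((144 : ℕ) : K) * U * U * U * W * W

/-- Gram polynomial (2,5). -/
def g25 (U E W H : K) : K :=
    ((12 : ℕ) : K) * E * E * E * E * H * H +
    ((144 : ℕ) : K) * U * E * E * E * H * H +
    ((144 : ℕ) : K) * U * E * E * E * W * H +
    ((144 : ℕ) : K) * U * U * E * E * H * H +
    ((648 : ℕ) : K) * U * U * E * E * W * H +
    ((144 : ℕ) : K) * U * U * E * E * W * W +
    ((144 : ℕ) : K) * U * U * U * E * H * H +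
    ((648 : ℕ) : K) * U * U * U * E * W * H +
    ((384 : ℕ) : K) * U * U * U * E * W * W +
    ((12 : ℕ) : K) * U * U * U * U * H * H +
    ((144 : ℕ) : K) * U * U * U * U * W * H +
    ((144 : ℕ) : K) * U * U * U * U * W * W

/-- Gram polynomial (3,3). -/
def g33 (U E W H : K) : K :=
    ((12 : ℕ) : K) * E * E * H * H * H * H +
    ((144 : ℕ) : K) * E * E * W * H * H * H +
    ((144 : ℕ) : K) * E * E * W * W * H * H +
    ((144 : ℕ) : K) * E * E * W * W * W * H +
    ((12 : ℕ) : K) * E * E * W * W * W * W +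
    ((288 : ℕ) : K) * U * E * W * H * H * H +
    ((1296 : ℕ) : K) * U * E * W * W * H * H +
    ((1296 : ℕ) : K) * U * E * W * W * W * H +
    ((288 : ℕ) : K) * U * E * W * W * W * W +
    ((432 : ℕ) : K) * U * U * W * W * H * H +
    ((1152 : ℕ) : K) * U * U * W * W * W * H +
    ((432 : ℕ) : K) * U * U * W * W * W * W

/-- Gram polynomial (3,4). -/
def g34 (U E W H : K) : K :=
    ((144 : ℕ) : K) * E * E * H * H * H +
    ((288 : ℕ) : K) * E * E * W * H * H +
    ((432 : ℕ) : K) * E * E * W * W * H +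
    ((48 : ℕ) : K) * E * E * W * W * W +
    ((144 : ℕ) : K) * U * E * H * H * H +
    ((1296 : ℕ) : K) * U * E * W * H * H +
    ((1944 : ℕ) : K) * U * E * W * W * H +
    ((576 : ℕ) : K) * U * E * W * W * W +
    ((288 : ℕ) : K) * U * U * W * H * H +
    ((1152 : ℕ) : K) * U * U * W * W * H +
    ((576 : ℕ) : K) * U * U * W * W * W

/-- Gram polynomial (3,5). -/
def g35 (U E W H : K) : K :=
    ((144 : ℕ) : K) * E * E * H * H +
    ((432 : ℕ) : K) * E * E * W * H +
    ((72 : ℕ) : K) * E * E * W * W +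
    ((432 : ℕ) : K) * U * E * H * H +
    ((1296 : ℕ) : K) * U * E * W * H +
    ((576 : ℕ) : K) * U * E * W * W +
    ((72 : ℕ) : K) * U * U * H * H +
    ((576 : ℕ) : K) * U * U * W * H +
    ((432 : ℕ) : K) * U * U * W * W

/-- Gram polynomial (4,4). -/
def g44 (U E W H : K) : K :=
    ((36 : ℕ) : K) * E * E * E * H * H * H +
    ((144 : ℕ) : K) * E * E * E * W * H * H +
    ((72 : ℕ) : K) * E * E * E * W * W * H +
    ((144 : ℕ) : K) * U * E * E * H * H * H +
    ((576 : ℕ) : K) * U * E * E * W * H * H +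
    ((1296 : ℕ) : K) * U * E * E * W * W * H +
    ((192 : ℕ) : K) * U * E * E * W * W * W +
    ((72 : ℕ) : K) * U * U * E * H * H * H +
    ((1296 : ℕ) : K) * U * U * E * W * H * H +
    ((2916 : ℕ) : K) * U * U * E * W * W * H +
    ((1152 : ℕ) : K) * U * U * E * W * W * W +
    ((192 : ℕ) : K) * U * U * U * W * H * H +
    ((1152 : ℕ) : K) * U * U * U * W * W * H +
    ((768 : ℕ) : K) * U * U * U * W * W * W

/-- Gram polynomial (4,5). -/
def g45 (U E W H : K) : K :=
    ((144 : ℕ) : K) * E * E * E * H * H +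
    ((144 : ℕ) : K) * E * E * E * W * H +
    ((288 : ℕ) : K) * U * E * E * H * H +
    ((1296 : ℕ) : K) * U * E * E * W * H +
    ((288 : ℕ) : K) * U * E * E * W * W +
    ((432 : ℕ) : K) * U * U * E * H * H +
    ((1944 : ℕ) : K) * U * U * E * W * H +
    ((1152 : ℕ) : K) * U * U * E * W * W +
    ((48 : ℕ) : K) * U * U * U * H * H +
    ((576 : ℕ) : K) * U * U * U * W * H +
    ((576 : ℕ) : K) * U * U * U * W * W

/-- Gram polynomial (5,5). -/
def g55 (U E W H : K) : K :=
    ((12 : ℕ) : K) * E * E * E * E * H * H +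
    ((144 : ℕ) : K) * U * E * E * E * H * H +
    ((288 : ℕ) : K) * U * E * E * E * W * H +
    ((144 : ℕ) : K) * U * U * E * E * H * H +
    ((1296 : ℕ) : K) * U * U * E * E * W * H +
    ((432 : ℕ) : K) * U * U * E * E * W * W +
    ((144 : ℕ) : K) * U * U * U * E * H * H +
    ((1296 : ℕ) : K) * U * U * U * E * W * H +
    ((1152 : ℕ) : K) * U * U * U * E * W * W +
    ((12 : ℕ) : K) * U * U * U * U * H * H +
    ((288 : ℕ) : K) * U * U * U * U * W * H +
    ((432 : ℕ) : K) * U * U * U * U * W * W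

/-- Projected Gram polynomial. -/
def w11 (U E W H : K) : K :=
    gP U E W H * g11 U E W H - U * (g1 U E W H * g1 U E W H)

/-- Projected Gram polynomial. -/
def w22 (U E W H : K) : K :=
    gP U E W H * g22 U E W H - W * (g2 U E W H * g2 U E W H)

/-- Projected Gram polynomial. -/
def w12 (U E W H : K) : K :=
    gP U E W H * g12 U E W H - g1 U E W H * g2 U E W H

/-- Projected Gram polynomial. -/
def w31 (U E W H : K) : K :=
    gP U E W H * g13 U E W H - U * (g3 U E W H * g1 U E W H)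

/-- Projected Gram polynomial. -/
def w32 (U E W H : K) : K :=
    gP U E W H * g23 U E W H - g3 U E W H * g2 U E W H

/-- Projected Gram polynomial. -/
def w41 (U E W H : K) : K :=
    gP U E W H * g14 U E W H - U * (g4 U E W H * g1 U E W H)

/-- Projected Gram polynomial. -/
def w42 (U E W H : K) : K :=
    gP U E W H * g24 U E W H - W * (g4 U E W H * g2 U E W H)

/-- Projected Gram polynomial. -/
def w51 (U E W H : K) : K :=
    gP U E W H * g15 U E W H - g5 U E W H * g1 U E W H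

/-- Projected Gram polynomial. -/
def w52 (U E W H : K) : K :=
    gP U E W H * g25 U E W H - W * (g5 U E W H * g2 U E W H)

/-- Projected Gram polynomial. -/
def w33 (U E W H : K) : K :=
    gP U E W H * g33 U E W H - U * U * (g3 U E W H * g3 U E W H)

/-- Projected Gram polynomial. -/
def w44 (U E W H : K) : K :=
    gP U E W H * g44 U E W H - U * W * (g4 U E W H * g4 U E W H)

/-- Projected Gram polynomial. -/
def w55 (U E W H : K) : K :=
    gP U E W H * g55 U E W H - W * W * (g5 U E W H * g5 U E W H)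

/-- Projected Gram polynomial. -/
def w34 (U E W H : K) : K :=
    gP U E W H * g34 U E W H - U * (g3 U E W H * g4 U E W H)

/-- Projected Gram polynomial. -/
def w45 (U E W H : K) : K :=
    gP U E W H * g45 U E W H - W * (g4 U E W H * g5 U E W H)

/-- Projected Gram polynomial. -/
def w35 (U E W H : K) : K :=
    gP U E W H * g35 U E W H - g3 U E W H * g5 U E W H


/-- `⟨ζ₁₁, ζ₁₁⟩`. -/
def z11 (U E W H Q A C₁ : K) : K :=
    Q * Q * (E * E * E * E) * w33 U E W H + (E * E) * U * (A * A) * w11 U E W H +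
    U * U * W * (C₁ * C₁) * w22 U E W H +
    ((2 : ℕ) : K) * E * (U * U * W) * (A * C₁) * w12 U E W H -
    ((2 : ℕ) : K) * Q * (E * E * E) * U * A * w31 U E W H -
    ((2 : ℕ) : K) * Q * (E * E) * (U * U * W) * C₁ * w32 U E W H

/-- `⟨ζ₂₂, ζ₂₂⟩`. -/
def z22 (U E W H Q C A₁ : K) : K :=
    Q * Q * (H * H * H * H) * w55 U E W H + (H * H) * W * (A₁ * A₁) * w22 U E W H +
    U * W * W * (C * C) * w11 U E W H +
    ((2 : ℕ) : K) * H * (U * W * W) * (A₁ * C) * w12 U E W H -
    ((2 : ℕ) : K) * Q * (H * H * H) * W * A₁ * w52 U E W H -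
    ((2 : ℕ) : K) * Q * (H * H) * (U * W * W) * C * w51 U E W H

/-- `⟨ζ₁₂, ζ₁₂⟩`. -/
def z12 (U E W H Q B B₁ : K) : K :=
    Q * Q * (E * E * H * H) * w44 U E W H + (E * E) * W * (B * B) * w11 U E W H +
    (H * H) * U * (B₁ * B₁) * w22 U E W H +
    ((2 : ℕ) : K) * (E * H) * (U * W) * (B * B₁) * w12 U E W H -
    ((2 : ℕ) : K) * Q * (E * E * H) * W * B * w41 U E W H -
    ((2 : ℕ) : K) * Q * (E * H * H) * U * B₁ * w42 U E W H

/-- `⟨ζ₁₁, ζ₁₂⟩` without its phase. -/
def x12 (U E W H Q A C₁ B B₁ : K) : K :=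
    Q * Q * (E * E * E * H) * w34 U E W H + (E * E) * (A * B) * w11 U E W H +
    (E * H * U) * (A * B₁) * w12 U E W H + (E * U * W) * (C₁ * B) * w12 U E W H +
    (H * U) * (C₁ * B₁) * w22 U E W H -
    Q * (E * E * E) * B * w31 U E W H - Q * (E * E * H) * U * B₁ * w32 U E W H -
    Q * (E * E * H) * A * w41 U E W H - Q * (E * H * U) * C₁ * w42 U E W H

/-- `⟨ζ₁₂, ζ₂₂⟩` without its phase. -/
def x23 (U E W H Q B B₁ C A₁ : K) : K :=
    Q * Q * (E * H * H * H) * w45 U E W H + (H * H) * (A₁ * B₁) * w22 U E W H +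
    (E * H * W) * (A₁ * B) * w12 U E W H + (H * U * W) * (C * B₁) * w12 U E W H +
    (E * W) * (C * B) * w11 U E W H -
    Q * (H * H * H) * B₁ * w52 U E W H - Q * (E * H * H) * W * B * w51 U E W H -
    Q * (E * H * H) * A₁ * w42 U E W H - Q * (E * H * W) * C * w41 U E W H

/-- `⟨ζ₁₁, ζ₂₂⟩` without its phase. -/
def x13 (U E W H Q A C₁ C A₁ : K) : K :=
    Q * Q * (E * E * H * H) * w35 U E W H + E * (A * C) * w11 U E W H +
    (E * H) * (A * A₁) * w12 U E W H + (U * W) * (C₁ * C) * w12 U E W H +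
    H * (C₁ * A₁) * w22 U E W H -
    Q * (E * E) * C * w31 U E W H - Q * (E * E * H) * A₁ * w32 U E W H -
    Q * (E * H * H) * A * w51 U E W H - Q * (H * H) * C₁ * w52 U E W H

/-- coefficient of `a²`. -/
def fAA (U E W H Q A C₁ : K) : K :=
    ((2 : ℕ) : K) * (E * E * E * E) * (Q * Q) * (w11 U E W H * w11 U E W H) -
    gP U E W H * gP U E W H * z11 U E W H Q A C₁

/-- coefficient of `b²`. -/
def fBB (U E W H Q C A₁ : K) : K :=
    ((2 : ℕ) : K) * (H * H * H * H) * (Q * Q) * (w22 U E W H * w22 U E W H) -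
    gP U E W H * gP U E W H * z22 U E W H Q C A₁

/-- coefficient of `a b` (with the multiplier term). -/
def fAB (U E W H Q A C₁ B B₁ C A₁ lam : K) : K :=
    ((4 : ℕ) : K) * (E * E * H * H) * (Q * Q) * (w11 U E W H * w22 U E W H) +
    ((2 : ℕ) : K) * (gP U E W H * gP U E W H) * (U * W) * x13 U E W H Q A C₁ C A₁ -
    ((4 : ℕ) : K) * (gP U E W H * gP U E W H) * z12 U E W H Q B B₁ -
    lam * (Q * Q) * (gP U E W H * gP U E W H * (gP U E W H * gP U E W H)) * (U * W)

/-- coefficient of `a r`. -/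
def fAR (U E W H Q A C₁ B B₁ : K) : K :=
    ((8 : ℕ) : K) * (E * E * E * H) * (Q * Q) * (w11 U E W H * w12 U E W H) -
    ((4 : ℕ) : K) * (gP U E W H * gP U E W H) * x12 U E W H Q A C₁ B B₁

/-- coefficient of `b r`. -/
def fBR (U E W H Q B B₁ C A₁ : K) : K :=
    ((8 : ℕ) : K) * (E * H * H * H) * (Q * Q) * (w22 U E W H * w12 U E W H) -
    ((4 : ℕ) : K) * (gP U E W H * gP U E W H) * x23 U E W H Q B B₁ C A₁

/-- coefficient of `r²` (with the multiplier term). -/
def fRR (U E W H Q A C₁ C A₁ lam : K) : K :=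
    ((8 : ℕ) : K) * (E * E * H * H) * (Q * Q) * (w12 U E W H * w12 U E W H) +
    lam * (Q * Q) * (gP U E W H * gP U E W H * (gP U E W H * gP U E W H)) -
    ((4 : ℕ) : K) * (gP U E W H * gP U E W H) * x13 U E W H Q A C₁ C A₁

/-- Twice the second leading minor. -/
def minor2 (a b c : K) : K := ((4 : ℕ) : K) * (a * b) - c * c

/-- The determinant of `[[2a, c, x], [c, 2b, y], [x, y, 2r]]`. -/
def minor3 (a b c x y r : K) : K :=
    ((2 : ℕ) : K) * (minor2 a b c * r) + ((2 : ℕ) : K) * (c * x * y) -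
    ((2 : ℕ) : K) * (a * (y * y)) - ((2 : ℕ) : K) * (b * (x * x))
end

end Pool.Agent.J6H64.HSC
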