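import Pool.Agent.J6H64.HSC.Rot

/-!
Properties of the local metric `hexG`.
-/

namespace Pool.Agent.J6H64.HSC

open Complex ComplexConjugate ComplexOrder ContDiff

theorem cf_nonneg (i : Fin 19) : 0 ≤ cf i := by
  fin_cases i <;> norm_num [cf]

theorem Wf_pos (z v : ℂ × ℂ) (hv : v ≠ 0) :
    0 < (Wf cf (hexMap.Z z) (hexMap.Z1 z v) (hexMap.Z1 z v)).re := by
  have hP := P_pos z
  have key := Wf_self_eq cf (hexMap.Z z) (hexMap.Z1 z v)
  have hPr : hp cf (hexMap.Z z) (hexMap.Z z) = (((hexMap.P cf z).re : ℝ) : ℂ) := P_real z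
  have key2 := congrArg Complex.re key
  rw [hPr, Complex.re_ofReal_mul, hp_self_re] at key2
  set p := (hexMap.P cf z).re with hp'
  set lam := hp cf (hexMap.Z1 z v) (hexMap.Z z) with hlam
  have hpos : 0 < ∑ i, cf i * Complex.normSq
      ((((p : ℝ) : ℂ) • hexMap.Z1 z v - lam • hexMap.Z z) i) := by
    by_contra hcon
    have hnn : ∀ i ∈ Finset.univ, 0 ≤ cf i * Complex.normSq
      ((((p : ℝ) : ℂ) • hexMap.Z1 z v - lam • hexMap.Z z) i) :=
      fun i _ => mul_nonneg (cf_nonneg i) (Complex.normSq_nonneg _)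
    have h0 : ∑ i, cf i * Complex.normSq
      ((((p : ℝ) : ℂ) • hexMap.Z1 z v - lam • hexMap.Z z) i) = 0 :=
      le_antisymm (not_lt.mp hcon) (Finset.sum_nonneg hnn)
    rw [Finset.sum_eq_zero_iff_of_nonneg hnn] at h0
    have c0 := h0 0 (Finset.mem_univ _)
    have c1 := h0 1 (Finset.mem_univ _)
    have c3 := h0 3 (Finset.mem_univ _)
    have hpc : (((p : ℝ) : ℂ)) ≠ 0 := by
      exact_mod_cast hP.ne'
    simp [cf, hexMap, monoMap, mono, ex] at c0 c1 c3
    apply hv
    rw [c0] at c1 c3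
    simp [hP.ne'] at c1 c3
    ext
    · simpa using c1
    · simpa using c3
  rw [← key2] at hpos
  exact (mul_pos_iff_of_pos_left hP).mp hpos

theorem hexG_real (z v : ℂ × ℂ) : hexG z v v =
    ((((Wf cf (hexMap.Z z) (hexMap.Z1 z v) (hexMap.Z1 z v)).re / (hexMap.P cf z).re ^ 2 : ℝ)) : ℂ) := by
  unfold hexG HolMap.g
  rw [P_real z, Wf_self_real]
  push_cast
  simp

theorem hexG_pos (z v : ℂ × ℂ) (hv : v ≠ 0) : 0 < (hexG z v v).re := by
  rw [hexG_real, Complex.ofReal_re]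
  exact div_pos (Wf_pos z v hv) (pow_pos (P_pos z) 2)

theorem hexG_posDef (z : ℂ × ℂ) : (coeffMatrix hexG z).PosDef := by
  refine Matrix.PosDef.of_dotProduct_mulVec_pos ?_ ?_
  · ext p q
    simp only [Matrix.conjTranspose_apply, coeffMatrix, Matrix.of_apply, RCLike.star_def]
    exact (hexMap.g_conj cf z _ _).symm
  · intro x hx
    have hv : ((conj (x 0), conj (x 1)) : ℂ × ℂ) ≠ 0 := by
      intro h
      apply hx
      rw [Prod.ext_iff] at h
      simp only [Prod.fst_zero, Prod.snd_zero, map_eq_zero] at h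
      ext i
      fin_cases i
      · exact h.1
      · exact h.2
    have h1 := hexG_pos z _ hv
    have e : star x ⬝ᵥ (coeffMatrix hexG z).mulVec x =
        hexG z (conj (x 0), conj (x 1)) (conj (x 0), conj (x 1)) := by
      have e1 : ((conj (x 0), conj (x 1)) : ℂ × ℂ) =
          conj (x 0) • stdVec 0 + conj (x 1) • stdVec 1 := by
        simp [stdVec]
      rw [e1]
      simp only [hexG, HolMap.g_add_left, HolMap.g_add_right, HolMap.g_smul_left,
        HolMap.g_smul_right, conj_conj, dotProduct, Matrix.mulVec, Fin.sum_univ_two, coeffMatrix,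
        Matrix.of_apply, Pi.star_apply, RCLike.star_def]
      ring
    rw [e, hexG_real]
    rw [hexG_real, Complex.ofReal_re] at h1
    exact_mod_cast h1

theorem curvature_pos (z v : ℂ × ℂ) (hv : v ≠ 0) : 0 < (curvature hexG z v).re := by
  obtain ⟨η, hη⟩ := allPos z v hv
  have hge := hexMap.curvature_ge cf z v η P_ne (hexG_posDef z)
  refine lt_of_lt_of_le ?_ hge
  have hPr : hexMap.P cf z = (((hexMap.P cf z).re : ℝ) : ℂ) := P_real z
  have hPr' : hp cf (hexMap.Z z) (hexMap.Z z) = (((hexMap.P cf z).re : ℝ) : ℂ) := P_real z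
  rw [hPr'] at hη
  rw [hPr]
  have hp0 := P_pos z
  generalize (hexMap.P cf z).re = p at hη hp0
  have hpc : (p : ℂ) ≠ 0 := by exact_mod_cast hp0.ne'
  have e : 2 * (Wf cf (hexMap.Z z) (hexMap.Z1 z v) (hexMap.Z1 z v)) ^ 2 / (p : ℂ) ^ 4 -
      Wf cf (hexMap.Z z) (hexMap.Z2 z v v - hexMap.Z1 z η) (hexMap.Z2 z v v - hexMap.Z1 z η) /
        (p : ℂ) ^ 2 = (((p ^ 4)⁻¹ : ℝ) : ℂ) *
      (2 * (Wf cf (hexMap.Z z) (hexMap.Z1 z v) (hexMap.Z1 z v)) ^ 2 - (p : ℂ) ^ 2 *
      Wf cf (hexMap.Z z) (hexMap.Z2 z v v - hexMap.Z1 z η)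
        (hexMap.Z2 z v v - hexMap.Z1 z η)) := by
    push_cast
    field_simp
  rw [e, Complex.re_ofReal_mul]
  exact mul_pos (inv_pos.mpr (pow_pos hp0 4)) hη

/-- Positivity of the holomorphic sectional curvature of `hexG`. -/
theorem holSec_pos (z v : ℂ × ℂ) (hv : v ≠ 0) : 0 < holSecCoord hexG z v := by
  unfold holSecCoord
  rw [hexG_real]
  have h1 := hexG_pos z v hv
  rw [hexG_real, Complex.ofReal_re] at h1
  generalize (Wf cf (hexMap.Z z) (hexMap.Z1 z v) (hexMap.Z1 z v)).re /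
    (hexMap.P cf z).re ^ 2 = q at h1
  have e : curvature hexG z v / (q : ℂ) ^ 2 = (((q ^ 2)⁻¹ : ℝ) : ℂ) * curvature hexG z v := by
    push_cast
    rw [div_eq_mul_inv, mul_comm]
  rw [e, Complex.re_ofReal_mul]
  exact mul_pos (inv_pos.mpr (pow_pos h1 2)) (curvature_pos z v hv)

/-- smoothness of Hermitian products of monomial vectors -/
theorem contDiff_mono (n k : ℕ) : ContDiff ℝ ∞ (mono n k) := by
  unfold mono
  fun_prop

theorem contDiff_hp {X Y : ℂ × ℂ → Fin 19 → ℂ} (hX : ∀ i, ContDiff ℝ ∞ fun z => X z i)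
    (hY : ∀ i, ContDiff ℝ ∞ fun z => Y z i) : ContDiff ℝ ∞ fun z => hp cf (X z) (Y z) := by
  unfold hp
  refine ContDiff.sum fun i _ => ?_
  refine contDiff_const.mul ((hX i).mul ?_)
  exact Complex.conjCLE.contDiff.comp (hY i)

theorem contDiff_Z (i : Fin 19) : ContDiff ℝ ∞ fun z => hexMap.Z z i := by
  simp only [hexMap, monoMap]
  exact ((contDiff_mono _ _).comp contDiff_fst).mul ((contDiff_mono _ _).comp contDiff_snd)

theorem contDiff_Z1 (v : ℂ × ℂ) (i : Fin 19) : ContDiff ℝ ∞ fun z => hexMap.Z1 z v i := by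
  simp only [hexMap, monoMap]
  exact ((((contDiff_mono _ _).comp contDiff_fst).mul ((contDiff_mono _ _).comp contDiff_snd)).mul
    contDiff_const).add ((((contDiff_mono _ _).comp contDiff_fst).mul
    ((contDiff_mono _ _).comp contDiff_snd)).mul contDiff_const)

theorem contDiff_hexG (v w : ℂ × ℂ) : ContDiff ℝ ∞ fun z => hexG z v w := by
  unfold hexG HolMap.g Wf HolMap.P
  have a := contDiff_hp contDiff_Z contDiff_Z
  have b := contDiff_hp (contDiff_Z1 v) (contDiff_Z1 w)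
  have c := contDiff_hp (contDiff_Z1 v) contDiff_Z
  have d := contDiff_hp contDiff_Z (contDiff_Z1 w)
  simp only [div_eq_mul_inv]
  exact ((a.mul b).sub (c.mul d)).mul ((a.pow 2).inv (fun z => pow_ne_zero 2 (P_ne z)))

end Pool.Agent.J6H64.HSC
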