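import Pool.Agent.J6H64.HSC.Surface
import Pool.Agent.J6H64.HSC.Metric

/-!
# The Kähler metric on the toric surface of the hexagon
-/

namespace Pool.Agent.J6H64.HSC

open Complex Manifold Filter Topology OnePoint Set

/-- `T` is holomorphic at `z` and preserves the metric there. -/
def IsoAt (T : ℂ × ℂ → ℂ × ℂ) (z : ℂ × ℂ) : Prop :=
  DifferentiableAt ℂ T z ∧ ∀ v w, hexG z v w = hexG (T z) (fderiv ℂ T z v) (fderiv ℂ T z w)

theorem isoAt_id (z : ℂ × ℂ) : IsoAt (fun x => x) z := by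
  refine ⟨differentiableAt_id, fun v w => ?_⟩
  rw [fderiv_fun_id]
  rfl

theorem IsoAt.congr {T T' : ℂ × ℂ → ℂ × ℂ} {z : ℂ × ℂ} (h : IsoAt T z) (h' : T' =ᶠ[𝓝 z] T) :
    IsoAt T' z := by
  refine ⟨h.1.congr_of_eventuallyEq h', fun v w => ?_⟩
  rw [h'.fderiv_eq, h'.eq_of_nhds]
  exact h.2 v w

theorem IsoAt.comp {S T : ℂ × ℂ → ℂ × ℂ} {z : ℂ × ℂ} (hS : IsoAt S (T z)) (hT : IsoAt T z) :
    IsoAt (fun x => S (T x)) z := by
  refine ⟨hS.1.comp z hT.1, fun v w => ?_⟩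
  have e : fderiv ℂ (fun x => S (T x)) z = (fderiv ℂ S (T z)).comp (fderiv ℂ T z) :=
    fderiv_comp z hS.1 hT.1
  rw [e, hT.2 v w, hS.2]
  rfl

theorem hasFDerivAt_rot (z : ℂ × ℂ) (h : z.1 ≠ 0) :
    HasFDerivAt rot ((z.1 • ContinuousLinearMap.snd ℂ ℂ ℂ + z.2 • ContinuousLinearMap.fst ℂ ℂ ℂ).prod
      ((-(z.1 ^ 2)⁻¹) • ContinuousLinearMap.fst ℂ ℂ ℂ)) z := by
  have h1 : HasFDerivAt (fun x : ℂ × ℂ => x.1) (ContinuousLinearMap.fst ℂ ℂ ℂ) z :=
    hasFDerivAt_fst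
  have h2 : HasFDerivAt (fun x : ℂ × ℂ => x.2) (ContinuousLinearMap.snd ℂ ℂ ℂ) z :=
    hasFDerivAt_snd
  have h3 := h1.mul h2
  have h4 := (hasDerivAt_inv h).comp_hasFDerivAt z h1
  exact h3.prodMk h4

theorem fderiv_rot (z v : ℂ × ℂ) (h : z.1 ≠ 0) : fderiv ℂ rot z v = drot z v := by
  rw [(hasFDerivAt_rot z h).fderiv]
  unfold drot
  ext
  · simp [mul_comm]
    ring
  · simp
    ring

theorem isoAt_rot (z : ℂ × ℂ) (h : z.1 ≠ 0) : IsoAt rot z := by
  refine ⟨(hasFDerivAt_rot z h).differentiableAt, fun v w => ?_⟩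
  rw [fderiv_rot z v h, fderiv_rot z w h]
  exact hexG_rot z v w h

theorem tr_one_eq : tr 1 = rot := by
  funext z
  exact tr_one z

theorem isoAt_one (z : ℂ × ℂ) (h : z.1 ≠ 0) : IsoAt (tr 1) z := by
  rw [tr_one_eq]; exact isoAt_rot z h

theorem isOpen_torus : IsOpen {z : ℂ × ℂ | z.1 ≠ 0 ∧ z.2 ≠ 0} :=
  (isOpen_ne.preimage continuous_fst).inter (isOpen_ne.preimage continuous_snd)

theorem isoAt_two (z : ℂ × ℂ) (h : z.1 ≠ 0 ∧ z.2 ≠ 0) : IsoAt (tr 2) z := by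
  have h1 : IsoAt (fun x => rot (tr 1 x)) z := by
    refine IsoAt.comp (isoAt_rot _ ?_) (isoAt_one z h.1)
    rw [tr_one]
    exact mul_ne_zero h.1 h.2
  refine h1.congr ?_
  filter_upwards [isOpen_torus.mem_nhds h] with x hx
  have hx1 := hx.1
  have hx2 := hx.2
  rw [tr_two, tr_one, rot]
  ext
  · simp only; field_simp
  · rfl

theorem isoAt_three (z : ℂ × ℂ) (h : z.1 ≠ 0 ∧ z.2 ≠ 0) : IsoAt (tr 3) z := by
  have h1 : IsoAt (fun x => rot (tr 2 x)) z := by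
    refine IsoAt.comp (isoAt_rot _ ?_) (isoAt_two z h)
    rw [tr_two]
    exact h.2
  refine h1.congr ?_
  filter_upwards [isOpen_torus.mem_nhds h] with x hx
  have hx1 := hx.1
  have hx2 := hx.2
  rw [tr_three, tr_two, rot]
  ext
  · simp only; field_simp
  · rfl

theorem isoAt_four (z : ℂ × ℂ) (h : z.1 ≠ 0 ∧ z.2 ≠ 0) : IsoAt (tr 4) z := by
  have h1 : IsoAt (fun x => rot (tr 3 x)) z := by
    refine IsoAt.comp (isoAt_rot _ ?_) (isoAt_three z h)
    rw [tr_three]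
    exact inv_ne_zero h.1
  refine h1.congr ?_
  filter_upwards [isOpen_torus.mem_nhds h] with x hx
  have hx1 := hx.1
  have hx2 := hx.2
  rw [tr_four, tr_three, rot]
  ext
  · simp only; field_simp
  · simp

theorem differentiableAt_five (z : ℂ × ℂ) (h : z.2 ≠ 0) : DifferentiableAt ℂ (tr 5) z := by
  have h1 : HasFDerivAt (fun x : ℂ × ℂ => x.1) (ContinuousLinearMap.fst ℂ ℂ ℂ) z :=
    hasFDerivAt_fst
  have h2 : HasFDerivAt (fun x : ℂ × ℂ => x.2) (ContinuousLinearMap.snd ℂ ℂ ℂ) z :=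
    hasFDerivAt_snd
  have h3 := h1.mul h2
  have h4 := (hasDerivAt_inv h).comp_hasFDerivAt z h2
  have e : tr 5 = fun x => (x.2⁻¹, x.1 * x.2) := by
    funext x
    exact tr_five x
  rw [e]
  exact (h4.prodMk h3).differentiableAt

theorem isoAt_five (z : ℂ × ℂ) (h : z.2 ≠ 0) : IsoAt (tr 5) z := by
  have hd := differentiableAt_five z h
  refine ⟨hd, fun v w => ?_⟩
  have h5 : (tr 5 z).1 ≠ 0 := by
    rw [tr_five]
    exact inv_ne_zero h
  have hr := isoAt_rot (tr 5 z) h5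
  have e1 : (fun x => rot (tr 5 x)) =ᶠ[𝓝 z] fun x => x := by
    filter_upwards [(isOpen_ne.preimage continuous_snd).mem_nhds h] with x hx
    have hx' : x.2 ≠ 0 := hx
    rw [tr_five, rot]
    ext
    · simp only; field_simp
    · simp
  have e2 : (fderiv ℂ rot (tr 5 z)).comp (fderiv ℂ (tr 5) z) =
      ContinuousLinearMap.id ℂ (ℂ × ℂ) := by
    rw [← fderiv_comp z hr.1 hd]
    exact e1.fderiv_eq.trans fderiv_id
  have e3 : ∀ u, fderiv ℂ rot (tr 5 z) (fderiv ℂ (tr 5) z u) = u := fun u =>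
    congrArg (fun L : (ℂ × ℂ) →L[ℂ] (ℂ × ℂ) => L u) e2
  rw [hr.2, e3, e3, e1.eq_of_nhds]

theorem isoAt_tr (d : Fin 6) (z : ℂ × ℂ) (h1 : hx z d ≠ ∞) (h2 : hx z (d + 2) ≠ ∞) :
    IsoAt (tr d) z := by
  fin_cases d
  · exact isoAt_id z
  · exact isoAt_one z (invP_coe_ne_infty.1 h2)
  · have h := invP_coe_ne_infty.1 h2
    exact isoAt_two z ⟨left_ne_zero_of_mul h, right_ne_zero_of_mul h⟩
  · exact isoAt_three z ⟨invP_coe_ne_infty.1 h1, invP_coe_ne_infty.1 h2⟩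
  · have h := invP_coe_ne_infty.1 h1
    exact isoAt_four z ⟨left_ne_zero_of_mul h, right_ne_zero_of_mul h⟩
  · exact isoAt_five z (invP_coe_ne_infty.1 h1)

/-- The Kähler metric of the hexagon: its local expression is the same in each of the six
charts. -/
noncomputable def hexMetric : KahlerMetric HexSurface where
  coeff := fun _ => hexG
  add_left := fun _ _ z _ v v' w => hexMap.g_add_left cf z v v' w
  smul_left := fun _ _ z _ a v w => hexMap.g_smul_left cf z a v w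
  conj_symm := fun _ _ z _ v w => hexMap.g_conj cf z v w
  pos := fun _ _ z _ v hv => hexG_pos z v hv
  smooth := fun _ _ v w => (contDiff_hexG v w).contDiffOn
  compat := by
    rintro _ ⟨k, rfl⟩ _ ⟨l, rfl⟩ z hz v w
    rw [trans_source_hex] at hz
    have h := isoAt_tr (l - k) z hz.1 hz.2
    have e : (chartHex l ∘ (chartHex k).symm) = tr (l - k) := by
      funext x
      exact trans_hex k l x
    rw [e, trans_hex]
    exact h.2 v w
  closed := fun _ _ z _ u v w => hexMap.closed cf z u v w (P_ne z)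

end Pool.Agent.J6H64.HSC
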