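import Pool.Agent.J6H64.HSC.Mono
import Pool.Agent.J6H64.HSC.Data

/-!
The pointwise positivity statement.
-/

namespace Pool.Agent.J6H64.HSC

open Complex ComplexConjugate

/-- The monomial map of the hexagon. -/
noncomputable def hexMap : HolMap (Fin 19) := monoMap ex

theorem hexMap_Z (z : ℂ × ℂ) : hexMap.Z z = mv 0 0 z.1 z.2 := rfl

theorem hexMap_Z1 (z v : ℂ × ℂ) :
    hexMap.Z1 z v = v.1 • mv 1 0 z.1 z.2 + v.2 • mv 0 1 z.1 z.2 := by
  funext i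
  simp only [hexMap, monoMap, mv, Pi.add_apply, Pi.smul_apply, smul_eq_mul]
  ring

theorem hexMap_Z2 (z v : ℂ × ℂ) :
    hexMap.Z2 z v v = v.1 ^ 2 • mv 2 0 z.1 z.2 + (2 * v.1 * v.2) • mv 1 1 z.1 z.2 +
      v.2 ^ 2 • mv 0 2 z.1 z.2 := by
  funext i
  simp only [hexMap, monoMap, mv, Pi.add_apply, Pi.smul_apply, smul_eq_mul]
  ring

/-- positivity of a ternary quadratic form from its leading minors. -/
theorem quad_pos (a b c x y r : ℝ) (h1 : 0 < a) (h2 : 0 < minor2 a b c)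
    (h3 : 0 < minor3 a b c x y r) (A B R : ℝ) (h : A ≠ 0 ∨ B ≠ 0) :
    0 < a * A ^ 2 + b * B ^ 2 + c * (A * B) + x * (A * R) + y * (B * R) + r * R ^ 2 := by
  simp only [minor2, minor3] at h2 h3
  push_cast at h2 h3
  set m := 4 * (a * b) - c * c with hm
  have key : 4 * a * m * (a * A ^ 2 + b * B ^ 2 + c * (A * B) + x * (A * R) + y * (B * R) +
      r * R ^ 2) = m * (2 * a * A + c * B + x * R) ^ 2 +
      (m * B + (2 * a * y - c * x) * R) ^ 2 +
      2 * a * (2 * (m * r) + 2 * (c * x * y) - 2 * (a * (y * y)) - 2 * (b * (x * x))) *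
        R ^ 2 := by
    rw [hm]; ring
  have hpos : 0 < m * (2 * a * A + c * B + x * R) ^ 2 +
      (m * B + (2 * a * y - c * x) * R) ^ 2 +
      2 * a * (2 * (m * r) + 2 * (c * x * y) - 2 * (a * (y * y)) - 2 * (b * (x * x))) *
        R ^ 2 := by
    by_cases hR : R = 0
    · by_cases hB : B = 0
      · have hA : A ≠ 0 := by
          rcases h with h | h
          · exact h
          · exact absurd hB h
        rw [hR, hB]
        have : 0 < m * (2 * a * A) ^ 2 := by positivity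
        nlinarith
      · have : 0 < (m * B) ^ 2 := by positivity
        rw [hR]
        nlinarith [mul_nonneg h2.le (sq_nonneg (2 * a * A + c * B))]
    · have e1 : 0 < 2 * a * (2 * (m * r) + 2 * (c * x * y) - 2 * (a * (y * y)) -
          2 * (b * (x * x))) * R ^ 2 := by
        have := h3
        positivity
      nlinarith [mul_nonneg h2.le (sq_nonneg (2 * a * A + c * B + x * R)),
        sq_nonneg (m * B + (2 * a * y - c * x) * R)]
  rw [← key] at hpos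
  exact (mul_pos_iff_of_pos_left (by positivity)).mp hpos

/-- The algebraic identity behind the certificate. -/
theorem main_identity (s t v₁ v₂ : ℂ) (u w a b r A C₁ B B₁ C A₁ lam : ℝ)
    (hu : (u : ℂ) = s * conj s) (hw : (w : ℂ) = t * conj t) (ha : (a : ℂ) = v₁ * conj v₁)
    (hb : (b : ℂ) = v₂ * conj v₂)
    (hr : 2 * (r : ℂ) = conj s * t * v₁ * conj v₂ + s * conj t * conj v₁ * v₂) :
    2 * (Wf cf (mv 0 0 s t) (v₁ • mv 1 0 s t + v₂ • mv 0 1 s t)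
        (v₁ • mv 1 0 s t + v₂ • mv 0 1 s t)) ^ 2 -
      (hp cf (mv 0 0 s t) (mv 0 0 s t)) ^ 2 *
      Wf cf (mv 0 0 s t)
        (v₁ ^ 2 • mv 2 0 s t + (2 * v₁ * v₂) • mv 1 1 s t + v₂ ^ 2 • mv 0 2 s t +
          (-(conj s * A * v₁ ^ 2 + 2 * conj t * B * v₁ * v₂ + s * conj t ^ 2 * C * v₂ ^ 2)) •
            mv 1 0 s t +
          (-(conj s ^ 2 * t * C₁ * v₁ ^ 2 + 2 * conj s * B₁ * v₁ * v₂ + conj t * A₁ * v₂ ^ 2)) •
            mv 0 1 s t)
        (v₁ ^ 2 • mv 2 0 s t + (2 * v₁ * v₂) • mv 1 1 s t + v₂ ^ 2 • mv 0 2 s t +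
          (-(conj s * A * v₁ ^ 2 + 2 * conj t * B * v₁ * v₂ + s * conj t ^ 2 * C * v₂ ^ 2)) •
            mv 1 0 s t +
          (-(conj s ^ 2 * t * C₁ * v₁ ^ 2 + 2 * conj s * B₁ * v₁ * v₂ + conj t * A₁ * v₂ ^ 2)) •
            mv 0 1 s t) =
    ((fAA u 1 w 1 1 A C₁ * a ^ 2 + fBB u 1 w 1 1 C A₁ * b ^ 2 +
      fAB u 1 w 1 1 A C₁ B B₁ C A₁ lam * (a * b) + fAR u 1 w 1 1 A C₁ B B₁ * (a * r) +
      fBR u 1 w 1 1 B B₁ C A₁ * (b * r) + fRR u 1 w 1 1 A C₁ C A₁ lam * r ^ 2 +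
      lam * (gP u 1 w 1 * gP u 1 w 1 * (gP u 1 w 1 * gP u 1 w 1)) *
        (u * w * (a * b) - r ^ 2) : ℝ) : ℂ) := by
  simp only [Wf_add_left, Wf_smul_left, Wf_add_right, Wf_smul_right,
    W_w11 s t u w hu hw, W_w22 s t u w hu hw, W_w12 s t u w hu hw, W_w12' s t u w hu hw,
    W_w31 s t u w hu hw, W_w31' s t u w hu hw, W_w32 s t u w hu hw, W_w32' s t u w hu hw,
    W_w41 s t u w hu hw, W_w41' s t u w hu hw, W_w42 s t u w hu hw, W_w42' s t u w hu hw,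
    W_w51 s t u w hu hw, W_w51' s t u w hu hw, W_w52 s t u w hu hw, W_w52' s t u w hu hw,
    W_w33 s t u w hu hw, W_w44 s t u w hu hw, W_w55 s t u w hu hw,
    W_w34 s t u w hu hw, W_w34' s t u w hu hw, W_w45 s t u w hu hw, W_w45' s t u w hu hw,
    W_w35 s t u w hu hw, W_w35' s t u w hu hw, hp_gP s t u w hu hw]
  simp only [map_neg, map_add, map_mul, map_pow, conj_conj, conj_ofReal, map_ofNat]
  have hr' : (r : ℂ) = (conj s * t * v₁ * conj v₂ + s * conj t * conj v₁ * v₂) / 2 := by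
    rw [← hr]; ring
  push_cast [fAA, fBB, fAB, fAR, fBR, fRR, z11, z22, z12, x12, x23, x13]
  generalize (w11 u 1 w 1 : ℝ) = W11
  generalize (w22 u 1 w 1 : ℝ) = W22
  generalize (w12 u 1 w 1 : ℝ) = W12
  generalize (w31 u 1 w 1 : ℝ) = W31
  generalize (w32 u 1 w 1 : ℝ) = W32
  generalize (w41 u 1 w 1 : ℝ) = W41
  generalize (w42 u 1 w 1 : ℝ) = W42
  generalize (w51 u 1 w 1 : ℝ) = W51
  generalize (w52 u 1 w 1 : ℝ) = W52
  generalize (w33 u 1 w 1 : ℝ) = W33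
  generalize (w44 u 1 w 1 : ℝ) = W44
  generalize (w55 u 1 w 1 : ℝ) = W55
  generalize (w34 u 1 w 1 : ℝ) = W34
  generalize (w45 u 1 w 1 : ℝ) = W45
  generalize (w35 u 1 w 1 : ℝ) = W35
  generalize (gP u 1 w 1 : ℝ) = PP
  rw [hr', hu, hw, ha, hb]
  generalize conj s = S
  generalize conj t = T
  generalize conj v₁ = V₁
  generalize conj v₂ = V₂
  ring

/-- The pointwise condition implying positive holomorphic sectional curvature. -/
def PosAt (z v : ℂ × ℂ) : Prop :=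
  ∃ η : ℂ × ℂ, 0 < (2 * (Wf cf (hexMap.Z z) (hexMap.Z1 z v) (hexMap.Z1 z v)) ^ 2 -
    (hp cf (hexMap.Z z) (hexMap.Z z)) ^ 2 * Wf cf (hexMap.Z z)
      (hexMap.Z2 z v v - hexMap.Z1 z η) (hexMap.Z2 z v v - hexMap.Z1 z η)).re

theorem posAt_of_mem (z v : ℂ × ℂ) (h1 : ‖z.1‖ ≤ 1) (h2 : ‖z.2‖ ≤ 1) (hv : v ≠ 0) :
    PosAt z v := by
  obtain ⟨s, t⟩ := z
  obtain ⟨v₁, v₂⟩ := v
  simp only at h1 h2
  set u := Complex.normSq s with hudef
  set w := Complex.normSq t with hwdef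
  have hu : (u : ℂ) = s * conj s := (Complex.mul_conj s).symm
  have hw : (w : ℂ) = t * conj t := (Complex.mul_conj t).symm
  have hu1 : u ≤ 1 := by
    rw [hudef, Complex.normSq_eq_norm_sq]; exact pow_le_one₀ (norm_nonneg _) h1
  have hw1 : w ≤ 1 := by
    rw [hwdef, Complex.normSq_eq_norm_sq]; exact pow_le_one₀ (norm_nonneg _) h2
  have hu0 : 0 ≤ u := Complex.normSq_nonneg _
  have hw0 : 0 ≤ w := Complex.normSq_nonneg _
  obtain ⟨A, C₁, B, B₁, C, A₁, lam, hlam, p1, p2, p3⟩ := good_all u w hu0 hu1 hw0 hw1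
  refine ⟨(conj s * A * v₁ ^ 2 + 2 * conj t * B * v₁ * v₂ + s * conj t ^ 2 * C * v₂ ^ 2,
    conj s ^ 2 * t * C₁ * v₁ ^ 2 + 2 * conj s * B₁ * v₁ * v₂ + conj t * A₁ * v₂ ^ 2), ?_⟩
  set a := Complex.normSq v₁ with hadef
  set b := Complex.normSq v₂ with hbdef
  have ha : (a : ℂ) = v₁ * conj v₁ := (Complex.mul_conj v₁).symm
  have hb : (b : ℂ) = v₂ * conj v₂ := (Complex.mul_conj v₂).symm
  set r : ℝ := (conj s * t * v₁ * conj v₂).re with hrdef
  have hr : 2 * (r : ℂ) = conj s * t * v₁ * conj v₂ + s * conj t * conj v₁ * v₂ := by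
    have := Complex.add_conj (conj s * t * v₁ * conj v₂)
    simp only [map_mul, conj_conj] at this
    rw [this]
    push_cast
    ring
  have key := main_identity s t v₁ v₂ u w a b r A C₁ B B₁ C A₁ lam hu hw ha hb hr
  have e1 : hexMap.Z2 (s, t) (v₁, v₂) (v₁, v₂) - hexMap.Z1 (s, t)
      (conj s * A * v₁ ^ 2 + 2 * conj t * B * v₁ * v₂ + s * conj t ^ 2 * C * v₂ ^ 2,
      conj s ^ 2 * t * C₁ * v₁ ^ 2 + 2 * conj s * B₁ * v₁ * v₂ + conj t * A₁ * v₂ ^ 2) =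
      v₁ ^ 2 • mv 2 0 s t + (2 * v₁ * v₂) • mv 1 1 s t + v₂ ^ 2 • mv 0 2 s t +
          (-(conj s * A * v₁ ^ 2 + 2 * conj t * B * v₁ * v₂ + s * conj t ^ 2 * C * v₂ ^ 2)) •
            mv 1 0 s t +
          (-(conj s ^ 2 * t * C₁ * v₁ ^ 2 + 2 * conj s * B₁ * v₁ * v₂ + conj t * A₁ * v₂ ^ 2)) •
            mv 0 1 s t := by
    rw [hexMap_Z2, hexMap_Z1]
    simp only [neg_smul]
    abel
  rw [e1, hexMap_Z1, hexMap_Z, key, Complex.ofReal_re]
  have hab : a ≠ 0 ∨ b ≠ 0 := by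
    by_contra hcon
    push Not at hcon
    apply hv
    have e1 : v₁ = 0 := Complex.normSq_eq_zero.mp hcon.1
    have e2 : v₂ = 0 := Complex.normSq_eq_zero.mp hcon.2
    rw [e1, e2]; rfl
  have hq := quad_pos _ _ _ _ _ _ p1 p2 p3 a b r hab
  have hr2 : r ^ 2 ≤ u * w * (a * b) := by
    have h3 : r ^ 2 ≤ Complex.normSq (conj s * t * v₁ * conj v₂) := by
      rw [Complex.normSq_apply, hrdef]
      nlinarith [sq_nonneg (conj s * t * v₁ * conj v₂).im]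
    refine h3.trans (le_of_eq ?_)
    simp only [map_mul, Complex.normSq_conj, ← hudef, ← hwdef, ← hadef, ← hbdef]
    ring
  have hlast : 0 ≤ lam * (gP u 1 w 1 * gP u 1 w 1 * (gP u 1 w 1 * gP u 1 w 1)) *
      (u * w * (a * b) - r ^ 2) := by
    have h4 : 0 ≤ u * w * (a * b) - r ^ 2 := by linarith
    exact mul_nonneg (mul_nonneg hlam (mul_self_nonneg _)) h4
  linarith

end Pool.Agent.J6H64.HSC
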