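import Pool.Agent.J6H64.HSC.Packed

/-!
All formulas commute with maps preserving `+`, `-`, `*` and numerals.
-/

set_option linter.unusedSimpArgs false
namespace Pool.Agent.J6H64.HSC

/-- maps preserving `+`, `-`, `*` and numerals. -/
structure IsPre {K K' : Type*} [Add K] [Sub K] [Mul K] [NatCast K] [Add K'] [Sub K'] [Mul K']
    [NatCast K'] (φ : K → K') : Prop where
  add : ∀ x y, φ (x + y) = φ x + φ y
  sub : ∀ x y, φ (x - y) = φ x - φ y
  mul : ∀ x y, φ (x * y) = φ x * φ y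
  nat : ∀ n : ℕ, φ (n : K) = (n : K')

section
variable {K K' : Type*} [Add K] [Sub K] [Mul K] [NatCast K] [Add K'] [Sub K'] [Mul K']
    [NatCast K'] {φ : K → K'}

theorem gP_map (h : IsPre φ) (U E W H : K) :
    φ (gP U E W H) = gP (φ U) (φ E) (φ W) (φ H) := by
  simp only [gP, h.add, h.mul, h.nat]

theorem g1_map (h : IsPre φ) (U E W H : K) :
    φ (g1 U E W H) = g1 (φ U) (φ E) (φ W) (φ H) := by
  simp only [g1, h.add, h.mul, h.nat]

theorem g2_map (h : IsPre φ) (U E W H : K) :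
    φ (g2 U E W H) = g2 (φ U) (φ E) (φ W) (φ H) := by
  simp only [g2, h.add, h.mul, h.nat]

theorem g3_map (h : IsPre φ) (U E W H : K) :
    φ (g3 U E W H) = g3 (φ U) (φ E) (φ W) (φ H) := by
  simp only [g3, h.add, h.mul, h.nat]

theorem g4_map (h : IsPre φ) (U E W H : K) :
    φ (g4 U E W H) = g4 (φ U) (φ E) (φ W) (φ H) := by
  simp only [g4, h.add, h.mul, h.nat]

theorem g5_map (h : IsPre φ) (U E W H : K) :
    φ (g5 U E W H) = g5 (φ U) (φ E) (φ W) (φ H) := by
  simp only [g5, h.add, h.mul, h.nat]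

theorem g11_map (h : IsPre φ) (U E W H : K) :
    φ (g11 U E W H) = g11 (φ U) (φ E) (φ W) (φ H) := by
  simp only [g11, h.add, h.mul, h.nat]

theorem g12_map (h : IsPre φ) (U E W H : K) :
    φ (g12 U E W H) = g12 (φ U) (φ E) (φ W) (φ H) := by
  simp only [g12, h.add, h.mul, h.nat]

theorem g22_map (h : IsPre φ) (U E W H : K) :
    φ (g22 U E W H) = g22 (φ U) (φ E) (φ W) (φ H) := by
  simp only [g22, h.add, h.mul, h.nat]

theorem g13_map (h : IsPre φ) (U E W H : K) :
    φ (g13 U E W H) = g13 (φ U) (φ E) (φ W) (φ H) := by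
  simp only [g13, h.add, h.mul, h.nat]

theorem g23_map (h : IsPre φ) (U E W H : K) :
    φ (g23 U E W H) = g23 (φ U) (φ E) (φ W) (φ H) := by
  simp only [g23, h.add, h.mul, h.nat]

theorem g14_map (h : IsPre φ) (U E W H : K) :
    φ (g14 U E W H) = g14 (φ U) (φ E) (φ W) (φ H) := by
  simp only [g14, h.add, h.mul, h.nat]

theorem g24_map (h : IsPre φ) (U E W H : K) :
    φ (g24 U E W H) = g24 (φ U) (φ E) (φ W) (φ H) := by
  simp only [g24, h.add, h.mul, h.nat]

theorem g15_map (h : IsPre φ) (U E W H : K) :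
    φ (g15 U E W H) = g15 (φ U) (φ E) (φ W) (φ H) := by
  simp only [g15, h.add, h.mul, h.nat]

theorem g25_map (h : IsPre φ) (U E W H : K) :
    φ (g25 U E W H) = g25 (φ U) (φ E) (φ W) (φ H) := by
  simp only [g25, h.add, h.mul, h.nat]

theorem g33_map (h : IsPre φ) (U E W H : K) :
    φ (g33 U E W H) = g33 (φ U) (φ E) (φ W) (φ H) := by
  simp only [g33, h.add, h.mul, h.nat]

theorem g34_map (h : IsPre φ) (U E W H : K) :
    φ (g34 U E W H) = g34 (φ U) (φ E) (φ W) (φ H) := by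
  simp only [g34, h.add, h.mul, h.nat]

theorem g35_map (h : IsPre φ) (U E W H : K) :
    φ (g35 U E W H) = g35 (φ U) (φ E) (φ W) (φ H) := by
  simp only [g35, h.add, h.mul, h.nat]

theorem g44_map (h : IsPre φ) (U E W H : K) :
    φ (g44 U E W H) = g44 (φ U) (φ E) (φ W) (φ H) := by
  simp only [g44, h.add, h.mul, h.nat]

theorem g45_map (h : IsPre φ) (U E W H : K) :
    φ (g45 U E W H) = g45 (φ U) (φ E) (φ W) (φ H) := by
  simp only [g45, h.add, h.mul, h.nat]

theorem g55_map (h : IsPre φ) (U E W H : K) :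
    φ (g55 U E W H) = g55 (φ U) (φ E) (φ W) (φ H) := by
  simp only [g55, h.add, h.mul, h.nat]

theorem w11_map (h : IsPre φ) (U E W H : K) :
    φ (w11 U E W H) = w11 (φ U) (φ E) (φ W) (φ H) := by
  simp only [w11, h.sub, h.mul, gP_map h, g11_map h, g1_map h]

theorem w22_map (h : IsPre φ) (U E W H : K) :
    φ (w22 U E W H) = w22 (φ U) (φ E) (φ W) (φ H) := by
  simp only [w22, h.sub, h.mul, gP_map h, g22_map h, g2_map h]

theorem w12_map (h : IsPre φ) (U E W H : K) :
    φ (w12 U E W H) = w12 (φ U) (φ E) (φ W) (φ H) := by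
  simp only [w12, h.sub, h.mul, gP_map h, g12_map h, g1_map h, g2_map h]

theorem w31_map (h : IsPre φ) (U E W H : K) :
    φ (w31 U E W H) = w31 (φ U) (φ E) (φ W) (φ H) := by
  simp only [w31, h.sub, h.mul, gP_map h, g13_map h, g3_map h, g1_map h]

theorem w32_map (h : IsPre φ) (U E W H : K) :
    φ (w32 U E W H) = w32 (φ U) (φ E) (φ W) (φ H) := by
  simp only [w32, h.sub, h.mul, gP_map h, g23_map h, g3_map h, g2_map h]

theorem w41_map (h : IsPre φ) (U E W H : K) :
    φ (w41 U E W H) = w41 (φ U) (φ E) (φ W) (φ H) := by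
  simp only [w41, h.sub, h.mul, gP_map h, g14_map h, g4_map h, g1_map h]

theorem w42_map (h : IsPre φ) (U E W H : K) :
    φ (w42 U E W H) = w42 (φ U) (φ E) (φ W) (φ H) := by
  simp only [w42, h.sub, h.mul, gP_map h, g24_map h, g4_map h, g2_map h]

theorem w51_map (h : IsPre φ) (U E W H : K) :
    φ (w51 U E W H) = w51 (φ U) (φ E) (φ W) (φ H) := by
  simp only [w51, h.sub, h.mul, gP_map h, g15_map h, g5_map h, g1_map h]

theorem w52_map (h : IsPre φ) (U E W H : K) :
    φ (w52 U E W H) = w52 (φ U) (φ E) (φ W) (φ H) := by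
  simp only [w52, h.sub, h.mul, gP_map h, g25_map h, g5_map h, g2_map h]

theorem w33_map (h : IsPre φ) (U E W H : K) :
    φ (w33 U E W H) = w33 (φ U) (φ E) (φ W) (φ H) := by
  simp only [w33, h.sub, h.mul, gP_map h, g33_map h, g3_map h]

theorem w44_map (h : IsPre φ) (U E W H : K) :
    φ (w44 U E W H) = w44 (φ U) (φ E) (φ W) (φ H) := by
  simp only [w44, h.sub, h.mul, gP_map h, g44_map h, g4_map h]

theorem w55_map (h : IsPre φ) (U E W H : K) :
    φ (w55 U E W H) = w55 (φ U) (φ E) (φ W) (φ H) := by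
  simp only [w55, h.sub, h.mul, gP_map h, g55_map h, g5_map h]

theorem w34_map (h : IsPre φ) (U E W H : K) :
    φ (w34 U E W H) = w34 (φ U) (φ E) (φ W) (φ H) := by
  simp only [w34, h.sub, h.mul, gP_map h, g34_map h, g3_map h, g4_map h]

theorem w45_map (h : IsPre φ) (U E W H : K) :
    φ (w45 U E W H) = w45 (φ U) (φ E) (φ W) (φ H) := by
  simp only [w45, h.sub, h.mul, gP_map h, g45_map h, g4_map h, g5_map h]

theorem w35_map (h : IsPre φ) (U E W H : K) :
    φ (w35 U E W H) = w35 (φ U) (φ E) (φ W) (φ H) := by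
  simp only [w35, h.sub, h.mul, gP_map h, g35_map h, g3_map h, g5_map h]

theorem z11_map (h : IsPre φ) (U E W H Q A C₁ : K) :
    φ (z11 U E W H Q A C₁) = z11 (φ U) (φ E) (φ W) (φ H) (φ Q) (φ A) (φ C₁) := by
  simp only [z11, h.add, h.sub, h.mul, h.nat, w11_map h, w22_map h, w12_map h, w31_map h, w32_map h, w41_map h, w42_map h, w51_map h, w52_map h, w33_map h, w44_map h, w55_map h, w34_map h, w45_map h, w35_map h]

theorem z22_map (h : IsPre φ) (U E W H Q C A₁ : K) :
    φ (z22 U E W H Q C A₁) = z22 (φ U) (φ E) (φ W) (φ H) (φ Q) (φ C) (φ A₁) := by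
  simp only [z22, h.add, h.sub, h.mul, h.nat, w11_map h, w22_map h, w12_map h, w31_map h, w32_map h, w41_map h, w42_map h, w51_map h, w52_map h, w33_map h, w44_map h, w55_map h, w34_map h, w45_map h, w35_map h]

theorem z12_map (h : IsPre φ) (U E W H Q B B₁ : K) :
    φ (z12 U E W H Q B B₁) = z12 (φ U) (φ E) (φ W) (φ H) (φ Q) (φ B) (φ B₁) := by
  simp only [z12, h.add, h.sub, h.mul, h.nat, w11_map h, w22_map h, w12_map h, w31_map h, w32_map h, w41_map h, w42_map h, w51_map h, w52_map h, w33_map h, w44_map h, w55_map h, w34_map h, w45_map h, w35_map h]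

theorem x12_map (h : IsPre φ) (U E W H Q A C₁ B B₁ : K) :
    φ (x12 U E W H Q A C₁ B B₁) = x12 (φ U) (φ E) (φ W) (φ H) (φ Q) (φ A) (φ C₁) (φ B) (φ B₁) := by
  simp only [x12, h.add, h.sub, h.mul, h.nat, w11_map h, w22_map h, w12_map h, w31_map h, w32_map h, w41_map h, w42_map h, w51_map h, w52_map h, w33_map h, w44_map h, w55_map h, w34_map h, w45_map h, w35_map h]

theorem x23_map (h : IsPre φ) (U E W H Q B B₁ C A₁ : K) :
    φ (x23 U E W H Q B B₁ C A₁) = x23 (φ U) (φ E) (φ W) (φ H) (φ Q) (φ B) (φ B₁) (φ C) (φ A₁) := by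
  simp only [x23, h.add, h.sub, h.mul, h.nat, w11_map h, w22_map h, w12_map h, w31_map h, w32_map h, w41_map h, w42_map h, w51_map h, w52_map h, w33_map h, w44_map h, w55_map h, w34_map h, w45_map h, w35_map h]

theorem x13_map (h : IsPre φ) (U E W H Q A C₁ C A₁ : K) :
    φ (x13 U E W H Q A C₁ C A₁) = x13 (φ U) (φ E) (φ W) (φ H) (φ Q) (φ A) (φ C₁) (φ C) (φ A₁) := by
  simp only [x13, h.add, h.sub, h.mul, h.nat, w11_map h, w22_map h, w12_map h, w31_map h, w32_map h, w41_map h, w42_map h, w51_map h, w52_map h, w33_map h, w44_map h, w55_map h, w34_map h, w45_map h, w35_map h]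

theorem fAA_map (h : IsPre φ) (U E W H Q A C₁ : K) :
    φ (fAA U E W H Q A C₁) = fAA (φ U) (φ E) (φ W) (φ H) (φ Q) (φ A) (φ C₁) := by
  simp only [fAA, h.add, h.sub, h.mul, h.nat, gP_map h, w11_map h, w22_map h, w12_map h, w31_map h, w32_map h, w41_map h, w42_map h, w51_map h, w52_map h, w33_map h, w44_map h, w55_map h, w34_map h, w45_map h, w35_map h, z11_map h, z22_map h, z12_map h, x12_map h, x23_map h, x13_map h]

theorem fBB_map (h : IsPre φ) (U E W H Q C A₁ : K) :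
    φ (fBB U E W H Q C A₁) = fBB (φ U) (φ E) (φ W) (φ H) (φ Q) (φ C) (φ A₁) := by
  simp only [fBB, h.add, h.sub, h.mul, h.nat, gP_map h, w11_map h, w22_map h, w12_map h, w31_map h, w32_map h, w41_map h, w42_map h, w51_map h, w52_map h, w33_map h, w44_map h, w55_map h, w34_map h, w45_map h, w35_map h, z11_map h, z22_map h, z12_map h, x12_map h, x23_map h, x13_map h]

theorem fAB_map (h : IsPre φ) (U E W H Q A C₁ B B₁ C A₁ lam : K) :
    φ (fAB U E W H Q A C₁ B B₁ C A₁ lam) = fAB (φ U) (φ E) (φ W) (φ H) (φ Q) (φ A) (φ C₁) (φ B) (φ B₁) (φ C) (φ A₁) (φ lam) := by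
  simp only [fAB, h.add, h.sub, h.mul, h.nat, gP_map h, w11_map h, w22_map h, w12_map h, w31_map h, w32_map h, w41_map h, w42_map h, w51_map h, w52_map h, w33_map h, w44_map h, w55_map h, w34_map h, w45_map h, w35_map h, z11_map h, z22_map h, z12_map h, x12_map h, x23_map h, x13_map h]

theorem fAR_map (h : IsPre φ) (U E W H Q A C₁ B B₁ : K) :
    φ (fAR U E W H Q A C₁ B B₁) = fAR (φ U) (φ E) (φ W) (φ H) (φ Q) (φ A) (φ C₁) (φ B) (φ B₁) := by
  simp only [fAR, h.add, h.sub, h.mul, h.nat, gP_map h, w11_map h, w22_map h, w12_map h, w31_map h, w32_map h, w41_map h, w42_map h, w51_map h, w52_map h, w33_map h, w44_map h, w55_map h, w34_map h, w45_map h, w35_map h, z11_map h, z22_map h, z12_map h, x12_map h, x23_map h, x13_map h]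

theorem fBR_map (h : IsPre φ) (U E W H Q B B₁ C A₁ : K) :
    φ (fBR U E W H Q B B₁ C A₁) = fBR (φ U) (φ E) (φ W) (φ H) (φ Q) (φ B) (φ B₁) (φ C) (φ A₁) := by
  simp only [fBR, h.add, h.sub, h.mul, h.nat, gP_map h, w11_map h, w22_map h, w12_map h, w31_map h, w32_map h, w41_map h, w42_map h, w51_map h, w52_map h, w33_map h, w44_map h, w55_map h, w34_map h, w45_map h, w35_map h, z11_map h, z22_map h, z12_map h, x12_map h, x23_map h, x13_map h]

theorem fRR_map (h : IsPre φ) (U E W H Q A C₁ C A₁ lam : K) :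
    φ (fRR U E W H Q A C₁ C A₁ lam) = fRR (φ U) (φ E) (φ W) (φ H) (φ Q) (φ A) (φ C₁) (φ C) (φ A₁) (φ lam) := by
  simp only [fRR, h.add, h.sub, h.mul, h.nat, gP_map h, w11_map h, w22_map h, w12_map h, w31_map h, w32_map h, w41_map h, w42_map h, w51_map h, w52_map h, w33_map h, w44_map h, w55_map h, w34_map h, w45_map h, w35_map h, z11_map h, z22_map h, z12_map h, x12_map h, x23_map h, x13_map h]

theorem minor2_map (h : IsPre φ) (a b c : K) :
    φ (minor2 a b c) = minor2 (φ a) (φ b) (φ c) := by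
  simp only [minor2, h.sub, h.mul, h.nat]

theorem minor3_map (h : IsPre φ) (a b c x y r : K) :
    φ (minor3 a b c x y r) = minor3 (φ a) (φ b) (φ c) (φ x) (φ y) (φ r) := by
  simp only [minor3, minor2_map h, h.add, h.sub, h.mul, h.nat]

theorem Lin.ev_map (h : IsPre φ) (l : Lin) (U E W H : K) :
    φ (l.ev U E W H) = l.ev (φ U) (φ E) (φ W) (φ H) := by
  simp only [Lin.ev, h.add, h.sub, h.mul, h.nat]

theorem M1_map (h : IsPre φ) (c : CellCert) (U E W H q : K) :
    φ (M1 c U E W H q) = M1 c (φ U) (φ E) (φ W) (φ H) (φ q) := by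
  simp only [M1, fAA_map h, Lin.ev_map h, h.mul]

theorem M2_map (h : IsPre φ) (c : CellCert) (U E W H q : K) :
    φ (M2 c U E W H q) = M2 c (φ U) (φ E) (φ W) (φ H) (φ q) := by
  simp only [M2, minor2_map h, fAA_map h, fBB_map h, fAB_map h, fAR_map h, fBR_map h, fRR_map h, Lin.ev_map h, h.mul, h.nat]

theorem M3_map (h : IsPre φ) (c : CellCert) (U E W H q : K) :
    φ (M3 c U E W H q) = M3 c (φ U) (φ E) (φ W) (φ H) (φ q) := by
  simp only [M3, minor3_map h, fAA_map h, fBB_map h, fAB_map h, fAR_map h, fBR_map h, fRR_map h, Lin.ev_map h, h.mul, h.nat]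

theorem cellU_map (h : IsPre φ) (a0 a1 : ℕ) (X : K) :
    φ (cellU a0 a1 X) = cellU a0 a1 (φ X) := by
  simp only [cellU, h.add, h.mul, h.nat]

theorem cellE_map (h : IsPre φ) (X : K) : φ (cellE X) = cellE (φ X) := by
  simp only [cellE, h.add, h.mul, h.nat]

theorem N1_map (h : IsPre φ) (c : CellCert) (a0 a1 b0 b1 : ℕ) (X Y : K) :
    φ (N1 c a0 a1 b0 b1 X Y) = N1 c a0 a1 b0 b1 (φ X) (φ Y) := by
  simp only [N1, M1_map h, cellU_map h, cellE_map h, h.nat]

theorem N2_map (h : IsPre φ) (c : CellCert) (a0 a1 b0 b1 : ℕ) (X Y : K) :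
    φ (N2 c a0 a1 b0 b1 X Y) = N2 c a0 a1 b0 b1 (φ X) (φ Y) := by
  simp only [N2, M2_map h, cellU_map h, cellE_map h, h.nat]

theorem N3_map (h : IsPre φ) (c : CellCert) (a0 a1 b0 b1 : ℕ) (X Y : K) :
    φ (N3 c a0 a1 b0 b1 X Y) = N3 c a0 a1 b0 b1 (φ X) (φ Y) := by
  simp only [N3, M3_map h, cellU_map h, cellE_map h, h.nat]

end

end Pool.Agent.J6H64.HSC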