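import Pool.Agent.J6H64.HSC.FS
import Pool.Agent.J6H64.HSC.Cell

/-!
The monomial map attached to the 19 lattice points of the hexagon.
-/

set_option linter.unusedSimpArgs false
set_option linter.unusedTactic false
set_option linter.unreachableTactic false
namespace Pool.Agent.J6H64.HSC

open Complex ComplexConjugate

/-- `k`-th derivative of `x ^ n`. -/
noncomputable def mono (n k : ℕ) (x : ℂ) : ℂ := (n.descFactorial k : ℂ) * x ^ (n - k)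

theorem hasDerivAt_mono (n k : ℕ) (x : ℂ) : HasDerivAt (mono n k) (mono n (k + 1) x) x := by
  unfold mono
  have h := ((hasDerivAt_pow (n - k) x).const_mul (n.descFactorial k : ℂ))
  refine h.congr_deriv ?_
  rw [Nat.descFactorial_succ, Nat.sub_sub]
  push_cast
  ring

theorem hasW_mono2 (i j k l : ℕ) (z : ℂ × ℂ) :
    HasW (fun x => mono i k x.1 * mono j l x.2) z
      (fun u => mono i (k + 1) z.1 * mono j l z.2 * u.1 + mono i k z.1 * mono j (l + 1) z.2 * u.2)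
      (fun _ => 0) := by
  have h1 : HasFDerivAt (fun x : ℂ × ℂ => mono i k x.1)
      ((mono i (k + 1) z.1) • ContinuousLinearMap.fst ℂ ℂ ℂ) z := by
    have := (hasDerivAt_mono i k z.1).comp_hasFDerivAt z (hasFDerivAt_fst (𝕜 := ℂ) (p := z))
    exact this
  have h2 : HasFDerivAt (fun x : ℂ × ℂ => mono j l x.2)
      ((mono j (l + 1) z.2) • ContinuousLinearMap.snd ℂ ℂ ℂ) z := by
    have := (hasDerivAt_mono j l z.2).comp_hasFDerivAt z (hasFDerivAt_snd (𝕜 := ℂ) (p := z))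
    exact this
  have h3 := (HasW.holo h1).mul (HasW.holo h2)
  refine h3.congr_right (fun u => ?_) (fun u => ?_)
  · simp
    ring
  · simp

/-- The monomial map. -/
noncomputable def monoMap {ι : Type*} (ex : ι → ℕ × ℕ) : HolMap ι where
  Z z i := mono (ex i).1 0 z.1 * mono (ex i).2 0 z.2
  Z1 z v i := mono (ex i).1 1 z.1 * mono (ex i).2 0 z.2 * v.1 +
    mono (ex i).1 0 z.1 * mono (ex i).2 1 z.2 * v.2
  Z2 z v w i := mono (ex i).1 2 z.1 * mono (ex i).2 0 z.2 * (v.1 * w.1) +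
    mono (ex i).1 1 z.1 * mono (ex i).2 1 z.2 * (v.1 * w.2 + v.2 * w.1) +
    mono (ex i).1 0 z.1 * mono (ex i).2 2 z.2 * (v.2 * w.2)
  Z3 z v w u i := mono (ex i).1 3 z.1 * mono (ex i).2 0 z.2 * (v.1 * w.1 * u.1) +
    mono (ex i).1 2 z.1 * mono (ex i).2 1 z.2 * (v.1 * w.1 * u.2 + (v.1 * w.2 + v.2 * w.1) * u.1) +
    mono (ex i).1 1 z.1 * mono (ex i).2 2 z.2 * ((v.1 * w.2 + v.2 * w.1) * u.2 + v.2 * w.2 * u.1) +
    mono (ex i).1 0 z.1 * mono (ex i).2 3 z.2 * (v.2 * w.2 * u.2)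
  hZ z i := hasW_mono2 _ _ 0 0 z
  hZ1 z v i := by
    have h1 := (hasW_mono2 (ex i).1 (ex i).2 1 0 z).mul (HasW.const (z := z) v.1)
    have h2 := (hasW_mono2 (ex i).1 (ex i).2 0 1 z).mul (HasW.const (z := z) v.2)
    exact (h1.add h2).congr_right (fun u => by ring) (fun u => by ring)
  hZ2 z v w i := by
    have h1 := (hasW_mono2 (ex i).1 (ex i).2 2 0 z).mul (HasW.const (z := z) (v.1 * w.1))
    have h2 := (hasW_mono2 (ex i).1 (ex i).2 1 1 z).mul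
      (HasW.const (z := z) (v.1 * w.2 + v.2 * w.1))
    have h3 := (hasW_mono2 (ex i).1 (ex i).2 0 2 z).mul (HasW.const (z := z) (v.2 * w.2))
    exact ((h1.add h2).add h3).congr_right (fun u => by ring) (fun u => by ring)
  Z1_add z v w := by
    funext i
    simp only [Pi.add_apply, Prod.fst_add, Prod.snd_add]; ring
  Z1_smul z a v := by
    funext i
    simp only [Pi.smul_apply, Prod.smul_fst, Prod.smul_snd, smul_eq_mul]; ring
  Z2_symm z v w := by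
    funext i
    ring

/-- exponents -/
def ex : Fin 19 → ℕ × ℕ :=
  ![(0, 0), (1, 0), (2, 0), (0, 1), (1, 1), (2, 1), (3, 1), (0, 2), (1, 2), (2, 2), (3, 2), (4, 2),
    (1, 3), (2, 3), (3, 3), (4, 3), (2, 4), (3, 4), (4, 4)]

/-- coefficients -/
def cf : Fin 19 → ℝ :=
  ![3, 8, 3, 8, 36, 36, 8, 3, 36, 36, 36, 3, 8, 36, 36, 8, 3, 8, 3]

/-- the vectors of derivatives: index `(a, b)` stands for `∂₁^a ∂₂^b`. -/
noncomputable def mv (a b : ℕ) (s t : ℂ) : Fin 19 → ℂ :=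
  fun i => mono (ex i).1 a s * mono (ex i).2 b t

theorem hp_gP (s t : ℂ) (u w : ℝ) (hu : (u : ℂ) = s * conj s) (hw : (w : ℂ) = t * conj t) :
    hp cf (mv 0 0 s t) (mv 0 0 s t) = ((gP u 1 w 1 : ℝ) : ℂ) := by
  simp only [hp, mv, mono, Fin.sum_univ_succ, cf, ex]
  simp [gP, hu, hw, Complex.conj_ofNat]
  try ring

theorem hp_g1 (s t : ℂ) (u w : ℝ) (hu : (u : ℂ) = s * conj s) (hw : (w : ℂ) = t * conj t) :
    hp cf (mv 1 0 s t) (mv 0 0 s t) = conj s * ((g1 u 1 w 1 : ℝ) : ℂ) := by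
  simp only [hp, mv, mono, Fin.sum_univ_succ, cf, ex]
  simp [g1, hu, hw, Complex.conj_ofNat]
  try ring

theorem hp_g2 (s t : ℂ) (u w : ℝ) (hu : (u : ℂ) = s * conj s) (hw : (w : ℂ) = t * conj t) :
    hp cf (mv 0 1 s t) (mv 0 0 s t) = conj t * ((g2 u 1 w 1 : ℝ) : ℂ) := by
  simp only [hp, mv, mono, Fin.sum_univ_succ, cf, ex]
  simp [g2, hu, hw, Complex.conj_ofNat]
  try ring

theorem hp_g3 (s t : ℂ) (u w : ℝ) (hu : (u : ℂ) = s * conj s) (hw : (w : ℂ) = t * conj t) :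
    hp cf (mv 2 0 s t) (mv 0 0 s t) = conj s ^ 2 * ((g3 u 1 w 1 : ℝ) : ℂ) := by
  simp only [hp, mv, mono, Fin.sum_univ_succ, cf, ex]
  simp [g3, hu, hw, Complex.conj_ofNat]
  try ring

theorem hp_g4 (s t : ℂ) (u w : ℝ) (hu : (u : ℂ) = s * conj s) (hw : (w : ℂ) = t * conj t) :
    hp cf (mv 1 1 s t) (mv 0 0 s t) = conj s * conj t * ((g4 u 1 w 1 : ℝ) : ℂ) := by
  simp only [hp, mv, mono, Fin.sum_univ_succ, cf, ex]
  simp [g4, hu, hw, Complex.conj_ofNat]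
  try ring

theorem hp_g5 (s t : ℂ) (u w : ℝ) (hu : (u : ℂ) = s * conj s) (hw : (w : ℂ) = t * conj t) :
    hp cf (mv 0 2 s t) (mv 0 0 s t) = conj t ^ 2 * ((g5 u 1 w 1 : ℝ) : ℂ) := by
  simp only [hp, mv, mono, Fin.sum_univ_succ, cf, ex]
  simp [g5, hu, hw, Complex.conj_ofNat]
  try ring

theorem hp_g11 (s t : ℂ) (u w : ℝ) (hu : (u : ℂ) = s * conj s) (hw : (w : ℂ) = t * conj t) :
    hp cf (mv 1 0 s t) (mv 1 0 s t) = ((g11 u 1 w 1 : ℝ) : ℂ) := by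
  simp only [hp, mv, mono, Fin.sum_univ_succ, cf, ex]
  simp [g11, hu, hw, Complex.conj_ofNat]
  try ring

theorem hp_g12 (s t : ℂ) (u w : ℝ) (hu : (u : ℂ) = s * conj s) (hw : (w : ℂ) = t * conj t) :
    hp cf (mv 1 0 s t) (mv 0 1 s t) = conj s * t * ((g12 u 1 w 1 : ℝ) : ℂ) := by
  simp only [hp, mv, mono, Fin.sum_univ_succ, cf, ex]
  simp [g12, hu, hw, Complex.conj_ofNat]
  try ring

theorem hp_g22 (s t : ℂ) (u w : ℝ) (hu : (u : ℂ) = s * conj s) (hw : (w : ℂ) = t * conj t) :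
    hp cf (mv 0 1 s t) (mv 0 1 s t) = ((g22 u 1 w 1 : ℝ) : ℂ) := by
  simp only [hp, mv, mono, Fin.sum_univ_succ, cf, ex]
  simp [g22, hu, hw, Complex.conj_ofNat]
  try ring

theorem hp_g13 (s t : ℂ) (u w : ℝ) (hu : (u : ℂ) = s * conj s) (hw : (w : ℂ) = t * conj t) :
    hp cf (mv 2 0 s t) (mv 1 0 s t) = conj s * ((g13 u 1 w 1 : ℝ) : ℂ) := by
  simp only [hp, mv, mono, Fin.sum_univ_succ, cf, ex]
  simp [g13, hu, hw, Complex.conj_ofNat]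
  try ring

theorem hp_g23 (s t : ℂ) (u w : ℝ) (hu : (u : ℂ) = s * conj s) (hw : (w : ℂ) = t * conj t) :
    hp cf (mv 2 0 s t) (mv 0 1 s t) = conj s ^ 2 * t * ((g23 u 1 w 1 : ℝ) : ℂ) := by
  simp only [hp, mv, mono, Fin.sum_univ_succ, cf, ex]
  simp [g23, hu, hw, Complex.conj_ofNat]
  try ring

theorem hp_g14 (s t : ℂ) (u w : ℝ) (hu : (u : ℂ) = s * conj s) (hw : (w : ℂ) = t * conj t) :
    hp cf (mv 1 1 s t) (mv 1 0 s t) = conj t * ((g14 u 1 w 1 : ℝ) : ℂ) := by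
  simp only [hp, mv, mono, Fin.sum_univ_succ, cf, ex]
  simp [g14, hu, hw, Complex.conj_ofNat]
  try ring

theorem hp_g24 (s t : ℂ) (u w : ℝ) (hu : (u : ℂ) = s * conj s) (hw : (w : ℂ) = t * conj t) :
    hp cf (mv 1 1 s t) (mv 0 1 s t) = conj s * ((g24 u 1 w 1 : ℝ) : ℂ) := by
  simp only [hp, mv, mono, Fin.sum_univ_succ, cf, ex]
  simp [g24, hu, hw, Complex.conj_ofNat]
  try ring

theorem hp_g15 (s t : ℂ) (u w : ℝ) (hu : (u : ℂ) = s * conj s) (hw : (w : ℂ) = t * conj t) :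
    hp cf (mv 0 2 s t) (mv 1 0 s t) = s * conj t ^ 2 * ((g15 u 1 w 1 : ℝ) : ℂ) := by
  simp only [hp, mv, mono, Fin.sum_univ_succ, cf, ex]
  simp [g15, hu, hw, Complex.conj_ofNat]
  try ring

theorem hp_g25 (s t : ℂ) (u w : ℝ) (hu : (u : ℂ) = s * conj s) (hw : (w : ℂ) = t * conj t) :
    hp cf (mv 0 2 s t) (mv 0 1 s t) = conj t * ((g25 u 1 w 1 : ℝ) : ℂ) := by
  simp only [hp, mv, mono, Fin.sum_univ_succ, cf, ex]
  simp [g25, hu, hw, Complex.conj_ofNat]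
  try ring

theorem hp_g33 (s t : ℂ) (u w : ℝ) (hu : (u : ℂ) = s * conj s) (hw : (w : ℂ) = t * conj t) :
    hp cf (mv 2 0 s t) (mv 2 0 s t) = ((g33 u 1 w 1 : ℝ) : ℂ) := by
  simp only [hp, mv, mono, Fin.sum_univ_succ, cf, ex]
  simp [g33, hu, hw, Complex.conj_ofNat]
  try ring

theorem hp_g34 (s t : ℂ) (u w : ℝ) (hu : (u : ℂ) = s * conj s) (hw : (w : ℂ) = t * conj t) :
    hp cf (mv 2 0 s t) (mv 1 1 s t) = conj s * t * ((g34 u 1 w 1 : ℝ) : ℂ) := by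
  simp only [hp, mv, mono, Fin.sum_univ_succ, cf, ex]
  simp [g34, hu, hw, Complex.conj_ofNat]
  try ring

theorem hp_g35 (s t : ℂ) (u w : ℝ) (hu : (u : ℂ) = s * conj s) (hw : (w : ℂ) = t * conj t) :
    hp cf (mv 2 0 s t) (mv 0 2 s t) = conj s ^ 2 * t ^ 2 * ((g35 u 1 w 1 : ℝ) : ℂ) := by
  simp only [hp, mv, mono, Fin.sum_univ_succ, cf, ex]
  simp [g35, hu, hw, Complex.conj_ofNat]
  try ring

theorem hp_g44 (s t : ℂ) (u w : ℝ) (hu : (u : ℂ) = s * conj s) (hw : (w : ℂ) = t * conj t) :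
    hp cf (mv 1 1 s t) (mv 1 1 s t) = ((g44 u 1 w 1 : ℝ) : ℂ) := by
  simp only [hp, mv, mono, Fin.sum_univ_succ, cf, ex]
  simp [g44, hu, hw, Complex.conj_ofNat]
  try ring

theorem hp_g45 (s t : ℂ) (u w : ℝ) (hu : (u : ℂ) = s * conj s) (hw : (w : ℂ) = t * conj t) :
    hp cf (mv 1 1 s t) (mv 0 2 s t) = conj s * t * ((g45 u 1 w 1 : ℝ) : ℂ) := by
  simp only [hp, mv, mono, Fin.sum_univ_succ, cf, ex]
  simp [g45, hu, hw, Complex.conj_ofNat]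
  try ring

theorem hp_g55 (s t : ℂ) (u w : ℝ) (hu : (u : ℂ) = s * conj s) (hw : (w : ℂ) = t * conj t) :
    hp cf (mv 0 2 s t) (mv 0 2 s t) = ((g55 u 1 w 1 : ℝ) : ℂ) := by
  simp only [hp, mv, mono, Fin.sum_univ_succ, cf, ex]
  simp [g55, hu, hw, Complex.conj_ofNat]
  try ring

theorem W_w11 (s t : ℂ) (u w : ℝ) (hu : (u : ℂ) = s * conj s) (hw : (w : ℂ) = t * conj t) :
    Wf cf (mv 0 0 s t) (mv 1 0 s t) (mv 1 0 s t) = ((w11 u 1 w 1 : ℝ) : ℂ) := by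
  rw [Wf, ← hp_conj cf (mv 1 0 s t) (mv 0 0 s t), hp_gP s t u w hu hw, hp_g11 s t u w hu hw,
    hp_g1 s t u w hu hw]
  simp only [w11, map_mul, map_pow, conj_conj, conj_ofReal]
  push_cast
  try simp only [hu, hw]
  ring

theorem W_w22 (s t : ℂ) (u w : ℝ) (hu : (u : ℂ) = s * conj s) (hw : (w : ℂ) = t * conj t) :
    Wf cf (mv 0 0 s t) (mv 0 1 s t) (mv 0 1 s t) = ((w22 u 1 w 1 : ℝ) : ℂ) := by
  rw [Wf, ← hp_conj cf (mv 0 1 s t) (mv 0 0 s t), hp_gP s t u w hu hw, hp_g22 s t u w hu hw,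
    hp_g2 s t u w hu hw]
  simp only [w22, map_mul, map_pow, conj_conj, conj_ofReal]
  push_cast
  try simp only [hu, hw]
  ring

theorem W_w12 (s t : ℂ) (u w : ℝ) (hu : (u : ℂ) = s * conj s) (hw : (w : ℂ) = t * conj t) :
    Wf cf (mv 0 0 s t) (mv 1 0 s t) (mv 0 1 s t) = conj s * t * ((w12 u 1 w 1 : ℝ) : ℂ) := by
  rw [Wf, ← hp_conj cf (mv 0 1 s t) (mv 0 0 s t), hp_gP s t u w hu hw, hp_g12 s t u w hu hw,
    hp_g1 s t u w hu hw, hp_g2 s t u w hu hw]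
  simp only [w12, map_mul, map_pow, conj_conj, conj_ofReal]
  push_cast
  try simp only [hu, hw]
  ring

theorem W_w12' (s t : ℂ) (u w : ℝ) (hu : (u : ℂ) = s * conj s) (hw : (w : ℂ) = t * conj t) :
    Wf cf (mv 0 0 s t) (mv 0 1 s t) (mv 1 0 s t) = s * conj t * ((w12 u 1 w 1 : ℝ) : ℂ) := by
  rw [← Wf_conj, W_w12 s t u w hu hw]
  simp only [map_mul, map_pow, conj_conj, conj_ofReal]

theorem W_w31 (s t : ℂ) (u w : ℝ) (hu : (u : ℂ) = s * conj s) (hw : (w : ℂ) = t * conj t) :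
    Wf cf (mv 0 0 s t) (mv 2 0 s t) (mv 1 0 s t) = conj s * ((w31 u 1 w 1 : ℝ) : ℂ) := by
  rw [Wf, ← hp_conj cf (mv 1 0 s t) (mv 0 0 s t), hp_gP s t u w hu hw, hp_g13 s t u w hu hw,
    hp_g3 s t u w hu hw, hp_g1 s t u w hu hw]
  simp only [w31, map_mul, map_pow, conj_conj, conj_ofReal]
  push_cast
  try simp only [hu, hw]
  ring

theorem W_w31' (s t : ℂ) (u w : ℝ) (hu : (u : ℂ) = s * conj s) (hw : (w : ℂ) = t * conj t) :
    Wf cf (mv 0 0 s t) (mv 1 0 s t) (mv 2 0 s t) = s * ((w31 u 1 w 1 : ℝ) : ℂ) := by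
  rw [← Wf_conj, W_w31 s t u w hu hw]
  simp only [map_mul, map_pow, conj_conj, conj_ofReal]

theorem W_w32 (s t : ℂ) (u w : ℝ) (hu : (u : ℂ) = s * conj s) (hw : (w : ℂ) = t * conj t) :
    Wf cf (mv 0 0 s t) (mv 2 0 s t) (mv 0 1 s t) = conj s ^ 2 * t * ((w32 u 1 w 1 : ℝ) : ℂ) := by
  rw [Wf, ← hp_conj cf (mv 0 1 s t) (mv 0 0 s t), hp_gP s t u w hu hw, hp_g23 s t u w hu hw,
    hp_g3 s t u w hu hw, hp_g2 s t u w hu hw]
  simp only [w32, map_mul, map_pow, conj_conj, conj_ofReal]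
  push_cast
  try simp only [hu, hw]
  ring

theorem W_w32' (s t : ℂ) (u w : ℝ) (hu : (u : ℂ) = s * conj s) (hw : (w : ℂ) = t * conj t) :
    Wf cf (mv 0 0 s t) (mv 0 1 s t) (mv 2 0 s t) = s ^ 2 * conj t * ((w32 u 1 w 1 : ℝ) : ℂ) := by
  rw [← Wf_conj, W_w32 s t u w hu hw]
  simp only [map_mul, map_pow, conj_conj, conj_ofReal]

theorem W_w41 (s t : ℂ) (u w : ℝ) (hu : (u : ℂ) = s * conj s) (hw : (w : ℂ) = t * conj t) :
    Wf cf (mv 0 0 s t) (mv 1 1 s t) (mv 1 0 s t) = conj t * ((w41 u 1 w 1 : ℝ) : ℂ) := by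
  rw [Wf, ← hp_conj cf (mv 1 0 s t) (mv 0 0 s t), hp_gP s t u w hu hw, hp_g14 s t u w hu hw,
    hp_g4 s t u w hu hw, hp_g1 s t u w hu hw]
  simp only [w41, map_mul, map_pow, conj_conj, conj_ofReal]
  push_cast
  try simp only [hu, hw]
  ring

theorem W_w41' (s t : ℂ) (u w : ℝ) (hu : (u : ℂ) = s * conj s) (hw : (w : ℂ) = t * conj t) :
    Wf cf (mv 0 0 s t) (mv 1 0 s t) (mv 1 1 s t) = t * ((w41 u 1 w 1 : ℝ) : ℂ) := by
  rw [← Wf_conj, W_w41 s t u w hu hw]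
  simp only [map_mul, map_pow, conj_conj, conj_ofReal]

theorem W_w42 (s t : ℂ) (u w : ℝ) (hu : (u : ℂ) = s * conj s) (hw : (w : ℂ) = t * conj t) :
    Wf cf (mv 0 0 s t) (mv 1 1 s t) (mv 0 1 s t) = conj s * ((w42 u 1 w 1 : ℝ) : ℂ) := by
  rw [Wf, ← hp_conj cf (mv 0 1 s t) (mv 0 0 s t), hp_gP s t u w hu hw, hp_g24 s t u w hu hw,
    hp_g4 s t u w hu hw, hp_g2 s t u w hu hw]
  simp only [w42, map_mul, map_pow, conj_conj, conj_ofReal]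
  push_cast
  try simp only [hu, hw]
  ring

theorem W_w42' (s t : ℂ) (u w : ℝ) (hu : (u : ℂ) = s * conj s) (hw : (w : ℂ) = t * conj t) :
    Wf cf (mv 0 0 s t) (mv 0 1 s t) (mv 1 1 s t) = s * ((w42 u 1 w 1 : ℝ) : ℂ) := by
  rw [← Wf_conj, W_w42 s t u w hu hw]
  simp only [map_mul, map_pow, conj_conj, conj_ofReal]

theorem W_w51 (s t : ℂ) (u w : ℝ) (hu : (u : ℂ) = s * conj s) (hw : (w : ℂ) = t * conj t) :
    Wf cf (mv 0 0 s t) (mv 0 2 s t) (mv 1 0 s t) = s * conj t ^ 2 * ((w51 u 1 w 1 : ℝ) : ℂ) := by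
  rw [Wf, ← hp_conj cf (mv 1 0 s t) (mv 0 0 s t), hp_gP s t u w hu hw, hp_g15 s t u w hu hw,
    hp_g5 s t u w hu hw, hp_g1 s t u w hu hw]
  simp only [w51, map_mul, map_pow, conj_conj, conj_ofReal]
  push_cast
  try simp only [hu, hw]
  ring

theorem W_w51' (s t : ℂ) (u w : ℝ) (hu : (u : ℂ) = s * conj s) (hw : (w : ℂ) = t * conj t) :
    Wf cf (mv 0 0 s t) (mv 1 0 s t) (mv 0 2 s t) = conj s * t ^ 2 * ((w51 u 1 w 1 : ℝ) : ℂ) := by
  rw [← Wf_conj, W_w51 s t u w hu hw]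
  simp only [map_mul, map_pow, conj_conj, conj_ofReal]

theorem W_w52 (s t : ℂ) (u w : ℝ) (hu : (u : ℂ) = s * conj s) (hw : (w : ℂ) = t * conj t) :
    Wf cf (mv 0 0 s t) (mv 0 2 s t) (mv 0 1 s t) = conj t * ((w52 u 1 w 1 : ℝ) : ℂ) := by
  rw [Wf, ← hp_conj cf (mv 0 1 s t) (mv 0 0 s t), hp_gP s t u w hu hw, hp_g25 s t u w hu hw,
    hp_g5 s t u w hu hw, hp_g2 s t u w hu hw]
  simp only [w52, map_mul, map_pow, conj_conj, conj_ofReal]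
  push_cast
  try simp only [hu, hw]
  ring

theorem W_w52' (s t : ℂ) (u w : ℝ) (hu : (u : ℂ) = s * conj s) (hw : (w : ℂ) = t * conj t) :
    Wf cf (mv 0 0 s t) (mv 0 1 s t) (mv 0 2 s t) = t * ((w52 u 1 w 1 : ℝ) : ℂ) := by
  rw [← Wf_conj, W_w52 s t u w hu hw]
  simp only [map_mul, map_pow, conj_conj, conj_ofReal]

theorem W_w33 (s t : ℂ) (u w : ℝ) (hu : (u : ℂ) = s * conj s) (hw : (w : ℂ) = t * conj t) :
    Wf cf (mv 0 0 s t) (mv 2 0 s t) (mv 2 0 s t) = ((w33 u 1 w 1 : ℝ) : ℂ) := by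
  rw [Wf, ← hp_conj cf (mv 2 0 s t) (mv 0 0 s t), hp_gP s t u w hu hw, hp_g33 s t u w hu hw,
    hp_g3 s t u w hu hw]
  simp only [w33, map_mul, map_pow, conj_conj, conj_ofReal]
  push_cast
  try simp only [hu, hw]
  ring

theorem W_w44 (s t : ℂ) (u w : ℝ) (hu : (u : ℂ) = s * conj s) (hw : (w : ℂ) = t * conj t) :
    Wf cf (mv 0 0 s t) (mv 1 1 s t) (mv 1 1 s t) = ((w44 u 1 w 1 : ℝ) : ℂ) := by
  rw [Wf, ← hp_conj cf (mv 1 1 s t) (mv 0 0 s t), hp_gP s t u w hu hw, hp_g44 s t u w hu hw,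
    hp_g4 s t u w hu hw]
  simp only [w44, map_mul, map_pow, conj_conj, conj_ofReal]
  push_cast
  try simp only [hu, hw]
  ring

theorem W_w55 (s t : ℂ) (u w : ℝ) (hu : (u : ℂ) = s * conj s) (hw : (w : ℂ) = t * conj t) :
    Wf cf (mv 0 0 s t) (mv 0 2 s t) (mv 0 2 s t) = ((w55 u 1 w 1 : ℝ) : ℂ) := by
  rw [Wf, ← hp_conj cf (mv 0 2 s t) (mv 0 0 s t), hp_gP s t u w hu hw, hp_g55 s t u w hu hw,
    hp_g5 s t u w hu hw]
  simp only [w55, map_mul, map_pow, conj_conj, conj_ofReal]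
  push_cast
  try simp only [hu, hw]
  ring

theorem W_w34 (s t : ℂ) (u w : ℝ) (hu : (u : ℂ) = s * conj s) (hw : (w : ℂ) = t * conj t) :
    Wf cf (mv 0 0 s t) (mv 2 0 s t) (mv 1 1 s t) = conj s * t * ((w34 u 1 w 1 : ℝ) : ℂ) := by
  rw [Wf, ← hp_conj cf (mv 1 1 s t) (mv 0 0 s t), hp_gP s t u w hu hw, hp_g34 s t u w hu hw,
    hp_g3 s t u w hu hw, hp_g4 s t u w hu hw]
  simp only [w34, map_mul, map_pow, conj_conj, conj_ofReal]
  push_cast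
  try simp only [hu, hw]
  ring

theorem W_w34' (s t : ℂ) (u w : ℝ) (hu : (u : ℂ) = s * conj s) (hw : (w : ℂ) = t * conj t) :
    Wf cf (mv 0 0 s t) (mv 1 1 s t) (mv 2 0 s t) = s * conj t * ((w34 u 1 w 1 : ℝ) : ℂ) := by
  rw [← Wf_conj, W_w34 s t u w hu hw]
  simp only [map_mul, map_pow, conj_conj, conj_ofReal]

theorem W_w45 (s t : ℂ) (u w : ℝ) (hu : (u : ℂ) = s * conj s) (hw : (w : ℂ) = t * conj t) :
    Wf cf (mv 0 0 s t) (mv 1 1 s t) (mv 0 2 s t) = conj s * t * ((w45 u 1 w 1 : ℝ) : ℂ) := by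
  rw [Wf, ← hp_conj cf (mv 0 2 s t) (mv 0 0 s t), hp_gP s t u w hu hw, hp_g45 s t u w hu hw,
    hp_g4 s t u w hu hw, hp_g5 s t u w hu hw]
  simp only [w45, map_mul, map_pow, conj_conj, conj_ofReal]
  push_cast
  try simp only [hu, hw]
  ring

theorem W_w45' (s t : ℂ) (u w : ℝ) (hu : (u : ℂ) = s * conj s) (hw : (w : ℂ) = t * conj t) :
    Wf cf (mv 0 0 s t) (mv 0 2 s t) (mv 1 1 s t) = s * conj t * ((w45 u 1 w 1 : ℝ) : ℂ) := by
  rw [← Wf_conj, W_w45 s t u w hu hw]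
  simp only [map_mul, map_pow, conj_conj, conj_ofReal]

theorem W_w35 (s t : ℂ) (u w : ℝ) (hu : (u : ℂ) = s * conj s) (hw : (w : ℂ) = t * conj t) :
    Wf cf (mv 0 0 s t) (mv 2 0 s t) (mv 0 2 s t) = conj s ^ 2 * t ^ 2 * ((w35 u 1 w 1 : ℝ) : ℂ) := by
  rw [Wf, ← hp_conj cf (mv 0 2 s t) (mv 0 0 s t), hp_gP s t u w hu hw, hp_g35 s t u w hu hw,
    hp_g3 s t u w hu hw, hp_g5 s t u w hu hw]
  simp only [w35, map_mul, map_pow, conj_conj, conj_ofReal]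
  push_cast
  try simp only [hu, hw]
  ring

theorem W_w35' (s t : ℂ) (u w : ℝ) (hu : (u : ℂ) = s * conj s) (hw : (w : ℂ) = t * conj t) :
    Wf cf (mv 0 0 s t) (mv 0 2 s t) (mv 2 0 s t) = s ^ 2 * conj t ^ 2 * ((w35 u 1 w 1 : ℝ) : ℂ) := by
  rw [← Wf_conj, W_w35 s t u w hu hw]
  simp only [map_mul, map_pow, conj_conj, conj_ofReal]

end Pool.Agent.J6H64.HSC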