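import Pool.Agent.J6H64.HSC.Check

/-!
Soundness of the packed digitwise comparison: polynomials in two variables with natural
number coefficients are compared coefficientwise by evaluating them at large powers of two.
-/

namespace Pool.Agent.J6H64.HSC

open Polynomial

/-- digits of the value of a polynomial with small coefficients. -/
theorem eval_div_pow_mod (b : ℕ) : ∀ (k : ℕ) (f : ℕ[X]), (∀ i, f.coeff i < b) →
    (f.eval b / b ^ k) % b = f.coeff k := by
  intro k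
  induction k with
  | zero =>
    intro f hf
    have h1 : f.eval b = (divX f).eval b * b + f.coeff 0 := by
      conv_lhs => rw [← divX_mul_X_add f]
      simp
    rw [h1]
    simp [Nat.add_mod, Nat.mod_eq_of_lt (hf 0)]
  | succ k ih =>
    intro f hf
    have hb : 0 < b := lt_of_le_of_lt (Nat.zero_le _) (hf 0)
    have h1 : f.eval b = (divX f).eval b * b + f.coeff 0 := by
      conv_lhs => rw [← divX_mul_X_add f]
      simp
    have h2 : f.eval b / b = (divX f).eval b := by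
      rw [h1, Nat.add_comm, Nat.add_mul_div_right _ _ hb, Nat.div_eq_of_lt (hf 0), zero_add]
    rw [pow_succ', ← Nat.div_div_eq_div_mul, h2, ih (divX f) (fun i => by
      rw [coeff_divX]; exact hf _), coeff_divX]

theorem coeff_le_eval (f : ℕ[X]) (x : ℕ) (hx : 1 ≤ x) (i : ℕ) : f.coeff i ≤ f.eval x := by
  rw [eval_eq_sum_range]
  by_cases hi : i ∈ Finset.range (f.natDegree + 1)
  · calc f.coeff i ≤ f.coeff i * x ^ i := Nat.le_mul_of_pos_right _ (Nat.pow_pos hx)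
      _ ≤ _ := Finset.single_le_sum (f := fun i => f.coeff i * x ^ i)
          (fun _ _ => Nat.zero_le _) hi
  · have : f.coeff i = 0 := coeff_eq_zero_of_natDegree_lt (by simpa [Nat.lt_succ_iff] using hi)
    rw [this]; exact Nat.zero_le _

/-- Evaluation of a polynomial in two variables (inner variable first). -/
noncomputable def ev2 {S : Type*} [CommSemiring S] (x y : S) : ℕ[X][X] →+* S :=
  eval₂RingHom (eval₂RingHom (Nat.castRingHom S) x) y

theorem ev2_nat (x y : ℕ) (p : ℕ[X][X]) :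
    ev2 x y p = (p.map (evalRingHom x)).eval y := by
  unfold ev2
  rw [eval_map]
  have : eval₂RingHom (Nat.castRingHom ℕ) x = evalRingHom x := by
    refine Polynomial.ringHom_ext (fun a => ?_) ?_
    · simp
    · exact (eval₂_X _ _).trans eval_X.symm
  rw [this]; rfl

theorem ev2_eq_sum {S : Type*} [CommSemiring S] (x y : S) (p : ℕ[X][X]) (n m : ℕ)
    (hn : p.natDegree < n) (hm : ∀ j, (p.coeff j).natDegree < m) :
    ev2 x y p = ∑ j ∈ Finset.range n, ∑ i ∈ Finset.range m,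
      (((p.coeff j).coeff i : ℕ) : S) * x ^ i * y ^ j := by
  unfold ev2
  simp only [coe_eval₂RingHom]
  rw [eval₂_eq_sum_range' _ hn]
  refine Finset.sum_congr rfl fun j _ => ?_
  simp only [coe_eval₂RingHom]
  rw [eval₂_eq_sum_range' _ (hm j), Finset.sum_mul]
  simp

theorem exists_deg (p q : ℕ[X][X]) : ∃ n m : ℕ, p.natDegree < n ∧ q.natDegree < n ∧
    (∀ j, (p.coeff j).natDegree < m) ∧ (∀ j, (q.coeff j).natDegree < m) := by
  have key : ∀ p : ℕ[X][X], ∃ m : ℕ, ∀ j, (p.coeff j).natDegree < m := by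
    intro p
    refine ⟨(Finset.range (p.natDegree + 1)).sup (fun j => (p.coeff j).natDegree) + 1, ?_⟩
    intro j
    by_cases hj : j ∈ Finset.range (p.natDegree + 1)
    · exact Nat.lt_succ_of_le (Finset.le_sup (f := fun j => (p.coeff j).natDegree) hj)
    · have : p.coeff j = 0 := coeff_eq_zero_of_natDegree_lt (by simpa [Nat.lt_succ_iff] using hj)
      rw [this]; simp
  obtain ⟨m1, h1⟩ := key p
  obtain ⟨m2, h2⟩ := key q
  refine ⟨max p.natDegree q.natDegree + 1, max m1 m2, ?_, ?_, ?_, ?_⟩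
  · exact Nat.lt_succ_of_le (le_max_left _ _)
  · exact Nat.lt_succ_of_le (le_max_right _ _)
  · intro j; exact lt_of_lt_of_le (h1 j) (le_max_left _ _)
  · intro j; exact lt_of_lt_of_le (h2 j) (le_max_right _ _)

theorem chkInner_sound (κ : ℕ) : ∀ (D P Q : ℕ), chkInner κ (2 ^ κ - 1) D P Q = true →
    ∀ i < D, (Q / (2 ^ κ) ^ i) % 2 ^ κ ≤ (P / (2 ^ κ) ^ i) % 2 ^ κ := by
  intro D
  induction D with
  | zero => intro P Q _ i hi; exact absurd hi (Nat.not_lt_zero _)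
  | succ D ih =>
    intro P Q h i hi
    simp only [chkInner, Bool.and_eq_true, Nat.ble_eq] at h
    obtain ⟨h1, h2⟩ := h
    have e1 : ∀ z : ℕ, Nat.land z (2 ^ κ - 1) = z % 2 ^ κ := fun z => Nat.and_two_pow_sub_one_eq_mod z κ
    have e2 : ∀ z : ℕ, Nat.shiftRight z κ = z / 2 ^ κ := fun z => Nat.shiftRight_eq_div_pow z κ
    rw [e1, e1] at h1
    rw [e2, e2] at h2
    cases i with
    | zero => simpa using h1
    | succ i =>
      have := ih _ _ h2 i (Nat.lt_of_succ_lt_succ hi)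
      rwa [Nat.div_div_eq_div_mul, Nat.div_div_eq_div_mul, ← pow_succ'] at this

theorem chkOuter_sound (κ κ' D : ℕ) : ∀ (J P Q : ℕ),
    chkOuter κ (2 ^ κ - 1) κ' (2 ^ κ' - 1) D J P Q = true →
    (∀ j < J, ∀ i < D, ((Q / (2 ^ κ') ^ j) % 2 ^ κ' / (2 ^ κ) ^ i) % 2 ^ κ ≤
      ((P / (2 ^ κ') ^ j) % 2 ^ κ' / (2 ^ κ) ^ i) % 2 ^ κ) ∧ Q / (2 ^ κ') ^ J = 0 := by
  intro J
  induction J with
  | zero =>
    intro P Q h
    refine ⟨fun j hj => absurd hj (Nat.not_lt_zero _), ?_⟩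
    simp only [chkOuter, Nat.beq_eq] at h
    simp [h]
  | succ J ih =>
    intro P Q h
    simp only [chkOuter, Bool.and_eq_true] at h
    obtain ⟨h1, h2⟩ := h
    have e1 : ∀ z : ℕ, Nat.land z (2 ^ κ' - 1) = z % 2 ^ κ' :=
      fun z => Nat.and_two_pow_sub_one_eq_mod z κ'
    have e2 : ∀ z : ℕ, Nat.shiftRight z κ' = z / 2 ^ κ' := fun z => Nat.shiftRight_eq_div_pow z κ'
    rw [e1, e1] at h1
    rw [e2, e2] at h2
    obtain ⟨h3, h4⟩ := ih _ _ h2
    refine ⟨?_, ?_⟩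
    · intro j hj i hi
      cases j with
      | zero => simpa using chkInner_sound κ D _ _ h1 i hi
      | succ j =>
        have := h3 j (Nat.lt_of_succ_lt_succ hj) i hi
        rwa [Nat.div_div_eq_div_mul, Nat.div_div_eq_div_mul, ← pow_succ'] at this
    · rwa [Nat.div_div_eq_div_mul, ← pow_succ'] at h4

/-- Soundness of the packed comparison. -/
theorem ev2_lt_of_chk (p q : ℕ[X][X]) (κ D : ℕ)
    (hp1 : ev2 (1 : ℕ) 1 p < 2 ^ κ) (hq1 : ev2 (1 : ℕ) 1 q < 2 ^ κ)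
    (hp2 : ev2 (2 ^ κ : ℕ) 1 p < 2 ^ (κ * D)) (hq2 : ev2 (2 ^ κ : ℕ) 1 q < 2 ^ (κ * D))
    (h : chkPacked κ D ⟨ev2 (2 ^ κ : ℕ) (2 ^ (κ * D)) p, ev2 (2 ^ κ : ℕ) (2 ^ (κ * D)) q⟩ = true)
    (h0 : ev2 (0 : ℕ) 0 q < ev2 (0 : ℕ) 0 p)
    (x y : ℝ) (hx : 0 ≤ x) (hy : 0 ≤ y) : ev2 x y q < ev2 x y p := by
  -- bounds for all coefficients
  have hc : ∀ r : ℕ[X][X], ev2 (1 : ℕ) 1 r < 2 ^ κ → ∀ j i, (r.coeff j).coeff i < 2 ^ κ := by
    intro r hr j i
    refine lt_of_le_of_lt ?_ hr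
    rw [ev2_nat]
    calc (r.coeff j).coeff i ≤ (r.coeff j).eval 1 := coeff_le_eval _ 1 le_rfl i
      _ = (r.map (evalRingHom 1)).coeff j := by simp
      _ ≤ _ := coeff_le_eval _ 1 le_rfl j
  have hd : ∀ r : ℕ[X][X], ev2 (2 ^ κ : ℕ) 1 r < 2 ^ (κ * D) →
      ∀ j, (r.coeff j).eval (2 ^ κ) < 2 ^ (κ * D) := by
    intro r hr j
    refine lt_of_le_of_lt ?_ hr
    rw [ev2_nat]
    calc (r.coeff j).eval (2 ^ κ) = (r.map (evalRingHom (2 ^ κ))).coeff j := by simp
      _ ≤ _ := coeff_le_eval _ 1 le_rfl j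
  -- extraction of coefficients
  have hex : ∀ r : ℕ[X][X], ev2 (1 : ℕ) 1 r < 2 ^ κ → ev2 (2 ^ κ : ℕ) 1 r < 2 ^ (κ * D) →
      ∀ j i, ((ev2 (2 ^ κ : ℕ) (2 ^ (κ * D)) r / (2 ^ (κ * D)) ^ j) % 2 ^ (κ * D) /
        (2 ^ κ) ^ i) % 2 ^ κ = (r.coeff j).coeff i := by
    intro r hr1 hr2 j i
    rw [ev2_nat, eval_div_pow_mod _ j _ (fun i => by
      rw [coeff_map]; exact hd r hr2 i), coeff_map]
    simp only [coe_evalRingHom]
    exact eval_div_pow_mod _ i _ (fun i => hc r hr1 j i)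
  have hcmp := chkOuter_sound κ (κ * D) D D _ _ h
  obtain ⟨hA, hB⟩ := hcmp
  have hle : ∀ j i, (q.coeff j).coeff i ≤ (p.coeff j).coeff i := by
    intro j i
    by_cases hj : j < D
    · by_cases hi : i < D
      · have := hA j hj i hi
        rwa [hex q hq1 hq2, hex p hp1 hp2] at this
      · rw [← hex q hq1 hq2 j i]
        have h1 : (ev2 (2 ^ κ : ℕ) (2 ^ (κ * D)) q / (2 ^ (κ * D)) ^ j) % 2 ^ (κ * D) <
            (2 ^ κ) ^ i := by
          refine lt_of_lt_of_le (Nat.mod_lt _ (by positivity)) ?_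
          rw [← pow_mul]
          exact Nat.pow_le_pow_right (by norm_num) (Nat.mul_le_mul_left _ (not_lt.mp hi))
        rw [Nat.div_eq_of_lt h1]; simp
    · rw [← hex q hq1 hq2 j i]
      have h1 : ev2 (2 ^ κ : ℕ) (2 ^ (κ * D)) q / (2 ^ (κ * D)) ^ j = 0 := by
        rw [Nat.div_eq_zero_iff] at hB ⊢
        right
        rcases hB with hB | hB
        · exact absurd hB (by positivity)
        · exact lt_of_lt_of_le hB (Nat.pow_le_pow_right (by positivity) (not_lt.mp hj))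
      rw [h1]; simp
  have h00 : (q.coeff 0).coeff 0 < (p.coeff 0).coeff 0 := by
    have e : ∀ r : ℕ[X][X], ev2 (0 : ℕ) 0 r = (r.coeff 0).coeff 0 := by
      intro r
      rw [ev2_nat]
      simp [← coeff_zero_eq_eval_zero]
    rwa [e, e] at h0
  obtain ⟨n, m, hn1, hn2, hm1, hm2⟩ := exists_deg p q
  rw [ev2_eq_sum x y p n m hn1 hm1, ev2_eq_sum x y q n m hn2 hm2]
  have hn0 : 0 < n := lt_of_le_of_lt (Nat.zero_le _) hn1
  have hm0 : 0 < m := lt_of_le_of_lt (Nat.zero_le _) (hm1 0)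
  have hterm : ∀ j i, (((q.coeff j).coeff i : ℕ) : ℝ) * x ^ i * y ^ j ≤
      (((p.coeff j).coeff i : ℕ) : ℝ) * x ^ i * y ^ j := by
    intro j i
    have : (((q.coeff j).coeff i : ℕ) : ℝ) ≤ (((p.coeff j).coeff i : ℕ) : ℝ) := by
      exact_mod_cast hle j i
    gcongr
  refine Finset.sum_lt_sum (fun j _ => Finset.sum_le_sum fun i _ => hterm j i)
    ⟨0, Finset.mem_range.mpr hn0, ?_⟩
  refine Finset.sum_lt_sum (fun i _ => hterm 0 i) ⟨0, Finset.mem_range.mpr hm0, ?_⟩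
  simpa using h00

end Pool.Agent.J6H64.HSC
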