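import Pool.Agent.J6H64.HSC.Defs

/-!
# The projective line and the product of two projective lines

The projective line is the one-point compactification `OnePoint ℂ`, with the two charts
`z` and `1 / z`; the product of two projective lines has the four product charts.
-/

namespace Pool.Agent.J6H64.HSC

open Complex Manifold Filter Topology OnePoint Set

/-- The complex projective line, as a topological space the one-point compactification of
`ℂ`. -/
abbrev P1 : Type := OnePoint ℂ

/-- The coordinate `z` of the projective line; junk value `0` at `∞`. -/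
def toC (x : P1) : ℂ := x.elim 0 id

@[simp] theorem toC_coe (z : ℂ) : toC (z : P1) = z := rfl
@[simp] theorem toC_infty : toC ∞ = 0 := rfl

theorem coe_toC {x : P1} (h : x ≠ ∞) : ((toC x : ℂ) : P1) = x := by
  induction x using OnePoint.rec with
  | infty => exact absurd rfl h
  | coe z => rfl

open Classical in
/-- The inversion `z ↦ 1 / z` of the projective line, exchanging `0` and `∞`. -/
noncomputable def invP (x : P1) : P1 :=
  x.elim ((0 : ℂ) : P1) fun z => if z = 0 then ∞ else ((z⁻¹ : ℂ) : P1)

@[simp] theorem invP_infty : invP ∞ = ((0 : ℂ) : P1) := rfl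

@[simp] theorem invP_zero : invP ((0 : ℂ) : P1) = ∞ := by simp [invP]

theorem invP_coe {z : ℂ} (h : z ≠ 0) : invP (z : P1) = ((z⁻¹ : ℂ) : P1) := by simp [invP, h]

@[simp] theorem invP_invP (x : P1) : invP (invP x) = x := by
  induction x using OnePoint.rec with
  | infty => simp
  | coe z =>
    by_cases h : z = 0
    · subst h; simp
    · rw [invP_coe h, invP_coe (inv_ne_zero h), inv_inv]

@[simp] theorem toC_invP (x : P1) : toC (invP x) = (toC x)⁻¹ := by
  induction x using OnePoint.rec with
  | infty => simp
  | coe z =>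
    by_cases h : z = 0
    · subst h; simp
    · rw [invP_coe h]; simp

theorem invP_eq_infty {x : P1} : invP x = ∞ ↔ x = ((0 : ℂ) : P1) := by
  constructor
  · intro h
    rw [← invP_invP x, h]; rfl
  · rintro rfl; simp

theorem invP_coe_ne_infty {z : ℂ} : invP (z : P1) ≠ ∞ ↔ z ≠ 0 := by
  rw [Ne, invP_eq_infty, OnePoint.coe_eq_coe]

theorem continuous_invP : Continuous invP := by
  rw [OnePoint.continuous_iff]
  constructor
  · rw [Filter.coclosedCompact_eq_cocompact, ← Metric.cobounded_eq_cocompact]
    have h1 : Tendsto (fun z : ℂ => ((z⁻¹ : ℂ) : P1)) (Bornology.cobounded ℂ)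
        (𝓝 ((0 : ℂ) : P1)) :=
      (OnePoint.continuous_coe.tendsto 0).comp Filter.tendsto_inv₀_cobounded
    refine Tendsto.congr' ?_ h1
    filter_upwards [Bornology.eventually_ne_cobounded (0 : ℂ)] with z hz
    rw [invP_coe hz]
  · rw [continuous_iff_continuousAt]
    intro z
    by_cases h : z = 0
    · subst h
      change Tendsto (fun x : ℂ => invP (x : P1)) (𝓝 0) (𝓝 (invP ((0 : ℂ) : P1)))
      rw [invP_zero, ← nhdsNE_sup_pure, Filter.tendsto_sup]
      constructor
      · have h1 : Tendsto (fun z : ℂ => ((z⁻¹ : ℂ) : P1)) (𝓝[≠] 0) (𝓝 ∞) := by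
          refine OnePoint.tendsto_coe_infty.comp ?_
          rw [Filter.coclosedCompact_eq_cocompact, ← Metric.cobounded_eq_cocompact]
          exact Filter.tendsto_inv₀_nhdsNE_zero
        refine Tendsto.congr' ?_ h1
        filter_upwards [self_mem_nhdsWithin] with z hz
        rw [invP_coe hz]
      · rw [Filter.tendsto_pure_left]
        intro s hs
        rw [invP_zero]
        exact mem_of_mem_nhds hs
    · have h1 : ContinuousAt (fun z : ℂ => ((z⁻¹ : ℂ) : P1)) z :=
        ContinuousAt.comp (g := ((↑) : ℂ → P1)) OnePoint.continuous_coe.continuousAt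
          (continuousAt_inv₀ h)
      refine h1.congr ?_
      filter_upwards [isOpen_ne.mem_nhds h] with y hy
      rw [invP_coe hy]

/-- The inversion as a homeomorphism. -/
noncomputable def invH : P1 ≃ₜ P1 where
  toFun := invP
  invFun := invP
  left_inv := invP_invP
  right_inv := invP_invP
  continuous_toFun := continuous_invP
  continuous_invFun := continuous_invP

theorem continuousOn_toC : ContinuousOn toC {x | x ≠ ∞} := by
  intro x hx
  refine ContinuousAt.continuousWithinAt ?_
  obtain ⟨z, rfl⟩ := OnePoint.ne_infty_iff_exists.1 hx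
  rw [OnePoint.continuousAt_coe]
  exact continuousAt_id

theorem isOpen_ne_infty : IsOpen {x : P1 | x ≠ ∞} := OnePoint.isClosed_infty.isOpen_compl

/-- The chart `z` of the projective line, defined outside `∞`. -/
noncomputable def chartZ : OpenPartialHomeomorph P1 ℂ where
  toFun := toC
  invFun := fun z => (z : P1)
  source := {x | x ≠ ∞}
  target := univ
  map_source' := fun _ _ => mem_univ _
  map_target' := fun z _ => OnePoint.coe_ne_infty z
  left_inv' := fun _ h => coe_toC h
  right_inv' := fun _ _ => rfl
  open_source := isOpen_ne_infty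
  open_target := isOpen_univ
  continuousOn_toFun := continuousOn_toC
  continuousOn_invFun := OnePoint.continuous_coe.continuousOn

/-- The chart `1 / z` of the projective line, defined outside `0`. -/
noncomputable def chartInv : OpenPartialHomeomorph P1 ℂ :=
  invH.toOpenPartialHomeomorph.trans chartZ

/-- The projective line is a complex curve, with the two charts `z` and `1 / z`. -/
noncomputable instance : ChartedSpace ℂ P1 where
  atlas := {chartZ, chartInv}
  chartAt := fun x => open Classical in if x = ∞ then chartInv else chartZ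
  mem_chart_source := by
    intro x
    by_cases h : x = ∞
    · subst h
      simp [chartInv, chartZ, invH]
    · simp [h, chartZ]
  chart_mem_atlas := by
    intro x
    by_cases h : x = ∞ <;> simp [h]

/-- The product of two projective lines is a complex surface, with the four product
charts. -/
noncomputable instance : ChartedSpace (ℂ × ℂ) (P1 × P1) := prodChartedSpace ℂ P1 ℂ P1

theorem mem_atlas_P1P1 {e : OpenPartialHomeomorph (P1 × P1) (ℂ × ℂ)} :
    e ∈ atlas (ℂ × ℂ) (P1 × P1) ↔
      ∃ c ∈ ({chartZ, chartInv} : Set (OpenPartialHomeomorph P1 ℂ)),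
        ∃ c' ∈ ({chartZ, chartInv} : Set (OpenPartialHomeomorph P1 ℂ)), c.prod c' = e :=
  Iff.rfl

theorem trans_P1 {c c' : OpenPartialHomeomorph P1 ℂ}
    (hc : c ∈ ({chartZ, chartInv} : Set (OpenPartialHomeomorph P1 ℂ)))
    (hc' : c' ∈ ({chartZ, chartInv} : Set (OpenPartialHomeomorph P1 ℂ))) :
    ContDiffOn ℂ ⊤ (fun z => c' (c.symm z)) {z | c.symm z ∈ c'.source} := by
  have hinv : ContDiffOn ℂ ⊤ (fun z : ℂ => z⁻¹) {z | z ≠ 0} := fun z hz =>
    (contDiffAt_inv ℂ hz).contDiffWithinAt
  have hid : ∀ s, ContDiffOn ℂ ⊤ (fun z : ℂ => z) s := fun s => contDiffOn_id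
  rcases hc with rfl | rfl <;> rcases hc' with rfl | rfl
  · exact hid _
  · have h1 : (fun z => chartInv (chartZ.symm z)) = fun z : ℂ => z⁻¹ := by
      funext z
      change toC (invP (z : P1)) = z⁻¹
      simp
    have h2 : {z : ℂ | chartZ.symm z ∈ chartInv.source} = {z | z ≠ 0} := by
      ext z
      change z ∈ {z : ℂ | (z : P1) ∈ chartInv.source} ↔ z ≠ 0
      rw [← invP_coe_ne_infty]
      simp [chartInv, chartZ, invH]
    rw [h1, h2]
    exact hinv
  · have h1 : (fun z => chartZ (chartInv.symm z)) = fun z : ℂ => z⁻¹ := by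
      funext z
      change toC (invP (z : P1)) = z⁻¹
      simp
    have h2 : {z : ℂ | chartInv.symm z ∈ chartZ.source} = {z | z ≠ 0} := by
      ext z
      exact invP_coe_ne_infty
    rw [h1, h2]
    exact hinv
  · have h1 : (fun z => chartInv (chartInv.symm z)) = fun z : ℂ => z := by
      funext z
      change toC (invP (invP (z : P1))) = z
      simp
    rw [h1]
    exact hid _

instance : IsManifold 𝓘(ℂ, ℂ × ℂ) ⊤ (P1 × P1) := by
  refine isManifold_of_contDiffOn _ _ _ fun e e' he he' => ?_
  rw [mem_atlas_P1P1] at he he'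
  obtain ⟨c, hc, d, hd, rfl⟩ := he
  obtain ⟨c', hc', d', hd', rfl⟩ := he'
  have h1 := trans_P1 hc hc'
  have h2 := trans_P1 hd hd'
  have h3 := ContDiffOn.prodMap h1 h2
  refine h3.mono ?_
  rintro ⟨a, b⟩ hab
  have h4 : (a ∈ c.target ∧ c.symm a ∈ c'.source) ∧ b ∈ d.target ∧ d.symm b ∈ d'.source := by
    simpa using hab.1
  exact ⟨h4.1.2, h4.2.2⟩

end Pool.Agent.J6H64.HSC
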