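import Pool.Agent.J6H64.HSC.Main

/-!
The rotation of the hexagon and positivity at all points.
-/

namespace Pool.Agent.J6H64.HSC

open Complex ComplexConjugate

/-- permutation of the lattice points. -/
def sg : Fin 19 → Fin 19 :=
  ![2, 6, 11, 1, 5, 10, 15, 0, 4, 9, 14, 18, 3, 8, 13, 17, 7, 12, 16]

theorem sg_bij : Function.Bijective sg := by decide

theorem cf_sg : ∀ k, cf (sg k) = cf k := by
  intro k
  fin_cases k <;> simp [cf, sg]

theorem hp_sg (x y : Fin 19 → ℂ) : hp cf (x ∘ sg) (y ∘ sg) = hp cf x y := by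
  unfold hp
  rw [← sg_bij.sum_comp (fun i => (cf i : ℂ) * (x i * conj (y i)))]
  refine Finset.sum_congr rfl fun k _ => ?_
  simp only [cf_sg, Function.comp]

theorem Wf_sg (Z x y : Fin 19 → ℂ) : Wf cf (Z ∘ sg) (x ∘ sg) (y ∘ sg) = Wf cf Z x y := by
  simp only [Wf, hp_sg]

/-- the rotation -/
noncomputable def rot (z : ℂ × ℂ) : ℂ × ℂ := (z.1 * z.2, z.1⁻¹)

/-- its derivative -/
noncomputable def drot (z v : ℂ × ℂ) : ℂ × ℂ := (v.1 * z.2 + z.1 * v.2, -(v.1 / z.1 ^ 2))

/-- its second derivative -/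
noncomputable def ddrot (z v : ℂ × ℂ) : ℂ × ℂ := (2 * v.1 * v.2, 2 * v.1 ^ 2 / z.1 ^ 3)

theorem Z_rot (z : ℂ × ℂ) (h : z.1 ≠ 0) :
    hexMap.Z z ∘ sg = z.1 ^ 2 • hexMap.Z (rot z) := by
  funext k
  simp only [Function.comp, Pi.smul_apply, smul_eq_mul, hexMap, monoMap, mono, rot]
  fin_cases k <;> simp [ex, sg, Nat.descFactorial] <;> field_simp <;> try exact Or.inl trivial

theorem Z1_rot (z v : ℂ × ℂ) (h : z.1 ≠ 0) :
    hexMap.Z1 z v ∘ sg = (2 * z.1 * v.1) • hexMap.Z (rot z) +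
      z.1 ^ 2 • hexMap.Z1 (rot z) (drot z v) := by
  funext k
  simp only [Function.comp, Pi.smul_apply, smul_eq_mul, hexMap, monoMap, mono, rot, drot,
    Pi.add_apply]
  fin_cases k <;> simp [ex, sg, Nat.descFactorial] <;> field_simp <;> ring

theorem Z2_rot (z v : ℂ × ℂ) (h : z.1 ≠ 0) :
    hexMap.Z2 z v v ∘ sg = (2 * v.1 ^ 2) • hexMap.Z (rot z) +
      (4 * z.1 * v.1) • hexMap.Z1 (rot z) (drot z v) +
      z.1 ^ 2 • (hexMap.Z2 (rot z) (drot z v) (drot z v) + hexMap.Z1 (rot z) (ddrot z v)) := by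
  funext k
  simp only [Function.comp, Pi.smul_apply, smul_eq_mul, hexMap, monoMap, mono, rot, drot, ddrot,
    Pi.add_apply]
  fin_cases k <;> simp [ex, sg, Nat.descFactorial] <;> field_simp <;> ring

theorem normSq_pow2 (a : ℂ) : a ^ 2 * conj (a ^ 2) = ((Complex.normSq a ^ 2 : ℝ) : ℂ) := by
  rw [Complex.mul_conj, map_pow]

/-- invariance of `P`. -/
theorem P_rot (z : ℂ × ℂ) (h : z.1 ≠ 0) :
    hp cf (hexMap.Z z) (hexMap.Z z) =
      z.1 ^ 2 * conj (z.1 ^ 2) * hp cf (hexMap.Z (rot z)) (hexMap.Z (rot z)) := by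
  rw [← hp_sg, Z_rot z h, hp_smul_left, hp_smul_right]; ring

/-- invariance of the form `W` on first derivatives. -/
theorem W1_rot (z v w : ℂ × ℂ) (h : z.1 ≠ 0) :
    Wf cf (hexMap.Z z) (hexMap.Z1 z v) (hexMap.Z1 z w) =
      (z.1 ^ 2 * conj (z.1 ^ 2)) ^ 2 * Wf cf (hexMap.Z (rot z)) (hexMap.Z1 (rot z) (drot z v))
        (hexMap.Z1 (rot z) (drot z w)) := by
  rw [← Wf_sg, Z_rot z h, Z1_rot z v h, Z1_rot z w h, Wf_smul_base]
  simp only [Wf_add_left, Wf_add_right, Wf_smul_left, Wf_smul_right, Wf_self_left, Wf_self_right]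
  ring

/-- The metric of the hexagon. -/
noncomputable def hexG (z v w : ℂ × ℂ) : ℂ := hexMap.g cf z v w

theorem P_pos (z : ℂ × ℂ) : 0 < (hexMap.P cf z).re := by
  unfold HolMap.P
  rw [hp_self_re]
  refine lt_of_lt_of_le ?_ (Finset.single_le_sum (fun i _ => ?_) (Finset.mem_univ 0))
  · simp [cf, hexMap, monoMap, mono, ex]
  · have : ∀ i, 0 ≤ cf i := by
      intro i
      fin_cases i <;> norm_num [cf]
    exact mul_nonneg (this i) (Complex.normSq_nonneg _)

theorem P_real (z : ℂ × ℂ) : hexMap.P cf z = (((hexMap.P cf z).re : ℝ) : ℂ) := hp_self_real cf _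

theorem P_ne (z : ℂ × ℂ) : hexMap.P cf z ≠ 0 := by
  intro h
  have := P_pos z
  rw [h] at this
  simp at this

theorem hexG_rot (z v w : ℂ × ℂ) (h : z.1 ≠ 0) :
    hexG z v w = hexG (rot z) (drot z v) (drot z w) := by
  unfold hexG HolMap.g
  rw [W1_rot z v w h]
  have e : hexMap.P cf z = z.1 ^ 2 * conj (z.1 ^ 2) * hexMap.P cf (rot z) := P_rot z h
  rw [e]
  have h1 : z.1 ^ 2 * conj (z.1 ^ 2) ≠ 0 := by
    refine mul_ne_zero (pow_ne_zero _ h) ?_
    rw [Ne, map_eq_zero]
    exact pow_ne_zero _ h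
  rw [mul_pow (z.1 ^ 2 * conj (z.1 ^ 2)) (hexMap.P cf (rot z)) 2,
    mul_div_mul_left _ _ (pow_ne_zero _ h1)]

/-- inverse of the derivative of the rotation. -/
theorem drot_surj (z : ℂ × ℂ) (h : z.1 ≠ 0) (w : ℂ × ℂ) : ∃ v, drot z v = w := by
  refine ⟨(-(w.2 * z.1 ^ 2), (w.1 + w.2 * z.1 ^ 2 * z.2) / z.1), ?_⟩
  unfold drot
  ext
  · simp only
    field_simp
    ring
  · simp only
    field_simp

theorem drot_sub (z : ℂ × ℂ) (v w : ℂ × ℂ) : drot z (v - w) = drot z v - drot z w := by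
  unfold drot
  ext
  · simp only [Prod.fst_sub, Prod.snd_sub]; ring
  · simp only [Prod.fst_sub, Prod.snd_sub]; ring

theorem drot_eq_zero (z : ℂ × ℂ) (h : z.1 ≠ 0) (v : ℂ × ℂ) (hv : drot z v = 0) : v = 0 := by
  unfold drot at hv
  rw [Prod.ext_iff] at hv
  simp only [Prod.fst_zero, Prod.snd_zero] at hv
  obtain ⟨h1, h2⟩ := hv
  have h3 : v.1 = 0 := by
    rw [neg_eq_zero, div_eq_zero_iff] at h2
    rcases h2 with h2 | h2
    · exact h2
    · exact absurd h2 (pow_ne_zero _ h)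
  rw [h3, zero_mul, zero_add, mul_eq_zero] at h1
  rcases h1 with h1 | h1
  · exact absurd h1 h
  · ext <;> simp [h3, h1]

/-- transfer of the second derivative term -/
theorem W2_rot (z v η : ℂ × ℂ) (h : z.1 ≠ 0) :
    Wf cf (hexMap.Z z) (hexMap.Z2 z v v - hexMap.Z1 z η) (hexMap.Z2 z v v - hexMap.Z1 z η) =
      (z.1 ^ 2 * conj (z.1 ^ 2)) ^ 2 * Wf cf (hexMap.Z (rot z))
        (hexMap.Z2 (rot z) (drot z v) (drot z v) -
          hexMap.Z1 (rot z) (drot z η - ddrot z v - (4 * v.1 / z.1) • drot z v))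
        (hexMap.Z2 (rot z) (drot z v) (drot z v) -
          hexMap.Z1 (rot z) (drot z η - ddrot z v - (4 * v.1 / z.1) • drot z v)) := by
  have e : (hexMap.Z2 z v v - hexMap.Z1 z η) ∘ sg =
      (2 * v.1 ^ 2 - 2 * z.1 * η.1) • hexMap.Z (rot z) +
      z.1 ^ 2 • (hexMap.Z2 (rot z) (drot z v) (drot z v) -
          hexMap.Z1 (rot z) (drot z η - ddrot z v - (4 * v.1 / z.1) • drot z v)) := by
    have e1 : (hexMap.Z2 z v v - hexMap.Z1 z η) ∘ sg =
        hexMap.Z2 z v v ∘ sg - hexMap.Z1 z η ∘ sg := rfl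
    rw [e1, Z2_rot z v h, Z1_rot z η h]
    have e2 : drot z η - ddrot z v - (4 * v.1 / z.1) • drot z v =
        drot z η + (-1 : ℂ) • ddrot z v + (-(4 * v.1 / z.1)) • drot z v := by
      simp only [neg_smul, one_smul]; abel
    rw [e2, hexMap.Z1_add, hexMap.Z1_add, hexMap.Z1_smul, hexMap.Z1_smul]
    funext k
    simp only [Pi.add_apply, Pi.sub_apply, Pi.smul_apply, smul_eq_mul]
    field_simp
    ring
  rw [← Wf_sg, e, Z_rot z h, Wf_smul_base]
  simp only [Wf_add_left, Wf_add_right, Wf_smul_left, Wf_smul_right, Wf_self_left, Wf_self_right]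
  ring

theorem posExpr_rot (z v η : ℂ × ℂ) (h : z.1 ≠ 0) :
    (2 * (Wf cf (hexMap.Z z) (hexMap.Z1 z v) (hexMap.Z1 z v)) ^ 2 -
    (hp cf (hexMap.Z z) (hexMap.Z z)) ^ 2 * Wf cf (hexMap.Z z)
      (hexMap.Z2 z v v - hexMap.Z1 z η) (hexMap.Z2 z v v - hexMap.Z1 z η)).re =
    Complex.normSq z.1 ^ 8 * (2 * (Wf cf (hexMap.Z (rot z)) (hexMap.Z1 (rot z) (drot z v))
      (hexMap.Z1 (rot z) (drot z v))) ^ 2 -
    (hp cf (hexMap.Z (rot z)) (hexMap.Z (rot z))) ^ 2 * Wf cf (hexMap.Z (rot z))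
      (hexMap.Z2 (rot z) (drot z v) (drot z v) -
          hexMap.Z1 (rot z) (drot z η - ddrot z v - (4 * v.1 / z.1) • drot z v))
        (hexMap.Z2 (rot z) (drot z v) (drot z v) -
          hexMap.Z1 (rot z) (drot z η - ddrot z v - (4 * v.1 / z.1) • drot z v))).re := by
  rw [W1_rot z v v h, W2_rot z v η h, P_rot z h, normSq_pow2, ← Complex.re_ofReal_mul]
  congr 1
  push_cast
  ring

/-- positivity in all directions -/
def AllPos (z : ℂ × ℂ) : Prop := ∀ v, v ≠ 0 → PosAt z v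

theorem allPos_rot (z : ℂ × ℂ) (h : z.1 ≠ 0) : AllPos z ↔ AllPos (rot z) := by
  have hn : 0 < Complex.normSq z.1 ^ 8 := pow_pos (Complex.normSq_pos.mpr h) 8
  constructor
  · intro H w hw
    obtain ⟨v, rfl⟩ := drot_surj z h w
    have hv : v ≠ 0 := by
      rintro rfl
      apply hw
      simp [drot]
    obtain ⟨η, hη⟩ := H v hv
    rw [posExpr_rot z v η h] at hη
    exact ⟨_, (mul_pos_iff_of_pos_left hn).mp hη⟩
  · intro H v hv
    have hv' : drot z v ≠ 0 := fun h0 => hv (drot_eq_zero z h v h0)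
    obtain ⟨η', hη'⟩ := H _ hv'
    obtain ⟨η, hη⟩ := drot_surj z h (η' + ddrot z v + (4 * v.1 / z.1) • drot z v)
    refine ⟨η, ?_⟩
    rw [posExpr_rot z v η h]
    refine mul_pos hn ?_
    have e : drot z η - ddrot z v - (4 * v.1 / z.1) • drot z v = η' := by
      rw [hη]; abel
    rw [e]
    exact hη'

theorem allPos_bidisc (z : ℂ × ℂ) (h1 : ‖z.1‖ ≤ 1) (h2 : ‖z.2‖ ≤ 1) : AllPos z :=
  fun v hv => posAt_of_mem z v h1 h2 hv

/-- Positivity at every point. -/
theorem allPos (z : ℂ × ℂ) : AllPos z := by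
  obtain ⟨s, t⟩ := z
  rcases le_total ‖s‖ 1 with hs | hs
  · rcases le_total ‖t‖ 1 with ht | ht
    · exact allPos_bidisc _ hs ht
    · have ht0 : t ≠ 0 := by
        intro h; rw [h, norm_zero] at ht; norm_num at ht
      rcases le_total ‖s * t‖ 1 with hst | hst
      · -- z = rot (t⁻¹, s t)
        have hy := allPos_bidisc (t⁻¹, s * t)
          (by simp only [norm_inv]; exact inv_le_one_of_one_le₀ ht) hst
        have e : rot (t⁻¹, s * t) = (s, t) := by
          unfold rot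
          ext
          · simp only; field_simp
          · simp only [inv_inv]
        rw [← e]
        exact (allPos_rot _ (inv_ne_zero ht0)).mp hy
      · have hst0 : s * t ≠ 0 := by
          intro h; rw [h, norm_zero] at hst; norm_num at hst
        have hs0 : s ≠ 0 := left_ne_zero_of_mul hst0
        have hy := allPos_bidisc ((s * t)⁻¹, s)
          (by simp only [norm_inv]; exact inv_le_one_of_one_le₀ hst) hs
        have e1 : rot (s, t) = (s * t, s⁻¹) := rfl
        have e2 : rot (s * t, s⁻¹) = (t, (s * t)⁻¹) := by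
          unfold rot
          ext
          · simp only; field_simp
          · rfl
        have e3 : rot (t, (s * t)⁻¹) = (s⁻¹, t⁻¹) := by
          unfold rot
          ext
          · simp only; field_simp
          · rfl
        have e4 : rot (s⁻¹, t⁻¹) = ((s * t)⁻¹, s) := by
          unfold rot
          ext
          · simp only; rw [mul_inv]
          · simp
        rw [allPos_rot (s, t) hs0, e1, allPos_rot (s * t, s⁻¹) hst0, e2,
          allPos_rot (t, (s * t)⁻¹) ht0, e3, allPos_rot (s⁻¹, t⁻¹) (inv_ne_zero hs0), e4]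
        exact hy
  · have hs0 : s ≠ 0 := by
      intro h; rw [h, norm_zero] at hs; norm_num at hs
    have e1 : rot (s, t) = (s * t, s⁻¹) := rfl
    rcases le_total ‖s * t‖ 1 with hst | hst
    · have hy := allPos_bidisc (s * t, s⁻¹) hst
          (by simp only [norm_inv]; exact inv_le_one_of_one_le₀ hs)
      rw [allPos_rot (s, t) hs0, e1]
      exact hy
    · have hst0 : s * t ≠ 0 := by
        intro h; rw [h, norm_zero] at hst; norm_num at hst
      have ht0 : t ≠ 0 := right_ne_zero_of_mul hst0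
      have e2 : rot (s * t, s⁻¹) = (t, (s * t)⁻¹) := by
        unfold rot
        ext
        · simp only; field_simp
        · rfl
      rcases le_total ‖t‖ 1 with ht | ht
      · have hy := allPos_bidisc (t, (s * t)⁻¹) ht
          (by simp only [norm_inv]; exact inv_le_one_of_one_le₀ hst)
        rw [allPos_rot (s, t) hs0, e1, allPos_rot (s * t, s⁻¹) hst0, e2]
        exact hy
      · have e3 : rot (t, (s * t)⁻¹) = (s⁻¹, t⁻¹) := by
          unfold rot
          ext
          · simp only; field_simp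
          · rfl
        have hy := allPos_bidisc (s⁻¹, t⁻¹)
          (by simp only [norm_inv]; exact inv_le_one_of_one_le₀ hs)
          (by simp only [norm_inv]; exact inv_le_one_of_one_le₀ ht)
        rw [allPos_rot (s, t) hs0, e1, allPos_rot (s * t, s⁻¹) hst0, e2,
          allPos_rot (t, (s * t)⁻¹) ht0, e3]
        exact hy

end Pool.Agent.J6H64.HSC
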