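import Pool.Agent.J6H64.HSC.MapLemmas

/-!
Homogeneity of all formulas over the reals.
-/

set_option linter.unusedSimpArgs false
namespace Pool.Agent.J6H64.HSC

theorem gP_sc (u E w H : ℝ) :
    gP (u * E) E (w * H) H = E ^ 4 * H ^ 4 * gP u 1 w 1 := by
  simp only [gP]; ring

theorem g1_sc (u E w H : ℝ) :
    g1 (u * E) E (w * H) H = E ^ 3 * H ^ 4 * g1 u 1 w 1 := by
  simp only [g1]; ring

theorem g2_sc (u E w H : ℝ) :
    g2 (u * E) E (w * H) H = E ^ 4 * H ^ 3 * g2 u 1 w 1 := by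
  simp only [g2]; ring

theorem g3_sc (u E w H : ℝ) :
    g3 (u * E) E (w * H) H = E ^ 2 * H ^ 4 * g3 u 1 w 1 := by
  simp only [g3]; ring

theorem g4_sc (u E w H : ℝ) :
    g4 (u * E) E (w * H) H = E ^ 3 * H ^ 3 * g4 u 1 w 1 := by
  simp only [g4]; ring

theorem g5_sc (u E w H : ℝ) :
    g5 (u * E) E (w * H) H = E ^ 4 * H ^ 2 * g5 u 1 w 1 := by
  simp only [g5]; ring

theorem g11_sc (u E w H : ℝ) :
    g11 (u * E) E (w * H) H = E ^ 3 * H ^ 4 * g11 u 1 w 1 := by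
  simp only [g11]; ring

theorem g12_sc (u E w H : ℝ) :
    g12 (u * E) E (w * H) H = E ^ 3 * H ^ 3 * g12 u 1 w 1 := by
  simp only [g12]; ring

theorem g22_sc (u E w H : ℝ) :
    g22 (u * E) E (w * H) H = E ^ 4 * H ^ 3 * g22 u 1 w 1 := by
  simp only [g22]; ring

theorem g13_sc (u E w H : ℝ) :
    g13 (u * E) E (w * H) H = E ^ 2 * H ^ 4 * g13 u 1 w 1 := by
  simp only [g13]; ring

theorem g23_sc (u E w H : ℝ) :
    g23 (u * E) E (w * H) H = E ^ 2 * H ^ 3 * g23 u 1 w 1 := by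
  simp only [g23]; ring

theorem g14_sc (u E w H : ℝ) :
    g14 (u * E) E (w * H) H = E ^ 3 * H ^ 3 * g14 u 1 w 1 := by
  simp only [g14]; ring

theorem g24_sc (u E w H : ℝ) :
    g24 (u * E) E (w * H) H = E ^ 3 * H ^ 3 * g24 u 1 w 1 := by
  simp only [g24]; ring

theorem g15_sc (u E w H : ℝ) :
    g15 (u * E) E (w * H) H = E ^ 3 * H ^ 2 * g15 u 1 w 1 := by
  simp only [g15]; ring

theorem g25_sc (u E w H : ℝ) :
    g25 (u * E) E (w * H) H = E ^ 4 * H ^ 2 * g25 u 1 w 1 := by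
  simp only [g25]; ring

theorem g33_sc (u E w H : ℝ) :
    g33 (u * E) E (w * H) H = E ^ 2 * H ^ 4 * g33 u 1 w 1 := by
  simp only [g33]; ring

theorem g34_sc (u E w H : ℝ) :
    g34 (u * E) E (w * H) H = E ^ 2 * H ^ 3 * g34 u 1 w 1 := by
  simp only [g34]; ring

theorem g35_sc (u E w H : ℝ) :
    g35 (u * E) E (w * H) H = E ^ 2 * H ^ 2 * g35 u 1 w 1 := by
  simp only [g35]; ring

theorem g44_sc (u E w H : ℝ) :
    g44 (u * E) E (w * H) H = E ^ 3 * H ^ 3 * g44 u 1 w 1 := by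
  simp only [g44]; ring

theorem g45_sc (u E w H : ℝ) :
    g45 (u * E) E (w * H) H = E ^ 3 * H ^ 2 * g45 u 1 w 1 := by
  simp only [g45]; ring

theorem g55_sc (u E w H : ℝ) :
    g55 (u * E) E (w * H) H = E ^ 4 * H ^ 2 * g55 u 1 w 1 := by
  simp only [g55]; ring

theorem w11_sc (u E w H : ℝ) :
    w11 (u * E) E (w * H) H = E ^ 7 * H ^ 8 * w11 u 1 w 1 := by
  simp only [w11, gP_sc, g11_sc, g1_sc]; ring

theorem w22_sc (u E w H : ℝ) :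
    w22 (u * E) E (w * H) H = E ^ 8 * H ^ 7 * w22 u 1 w 1 := by
  simp only [w22, gP_sc, g22_sc, g2_sc]; ring

theorem w12_sc (u E w H : ℝ) :
    w12 (u * E) E (w * H) H = E ^ 7 * H ^ 7 * w12 u 1 w 1 := by
  simp only [w12, gP_sc, g12_sc, g1_sc, g2_sc]; ring

theorem w31_sc (u E w H : ℝ) :
    w31 (u * E) E (w * H) H = E ^ 6 * H ^ 8 * w31 u 1 w 1 := by
  simp only [w31, gP_sc, g13_sc, g3_sc, g1_sc]; ring

theorem w32_sc (u E w H : ℝ) :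
    w32 (u * E) E (w * H) H = E ^ 6 * H ^ 7 * w32 u 1 w 1 := by
  simp only [w32, gP_sc, g23_sc, g3_sc, g2_sc]; ring

theorem w41_sc (u E w H : ℝ) :
    w41 (u * E) E (w * H) H = E ^ 7 * H ^ 7 * w41 u 1 w 1 := by
  simp only [w41, gP_sc, g14_sc, g4_sc, g1_sc]; ring

theorem w42_sc (u E w H : ℝ) :
    w42 (u * E) E (w * H) H = E ^ 7 * H ^ 7 * w42 u 1 w 1 := by
  simp only [w42, gP_sc, g24_sc, g4_sc, g2_sc]; ring

theorem w51_sc (u E w H : ℝ) :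
    w51 (u * E) E (w * H) H = E ^ 7 * H ^ 6 * w51 u 1 w 1 := by
  simp only [w51, gP_sc, g15_sc, g5_sc, g1_sc]; ring

theorem w52_sc (u E w H : ℝ) :
    w52 (u * E) E (w * H) H = E ^ 8 * H ^ 6 * w52 u 1 w 1 := by
  simp only [w52, gP_sc, g25_sc, g5_sc, g2_sc]; ring

theorem w33_sc (u E w H : ℝ) :
    w33 (u * E) E (w * H) H = E ^ 6 * H ^ 8 * w33 u 1 w 1 := by
  simp only [w33, gP_sc, g33_sc, g3_sc]; ring

theorem w44_sc (u E w H : ℝ) :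
    w44 (u * E) E (w * H) H = E ^ 7 * H ^ 7 * w44 u 1 w 1 := by
  simp only [w44, gP_sc, g44_sc, g4_sc]; ring

theorem w55_sc (u E w H : ℝ) :
    w55 (u * E) E (w * H) H = E ^ 8 * H ^ 6 * w55 u 1 w 1 := by
  simp only [w55, gP_sc, g55_sc, g5_sc]; ring

theorem w34_sc (u E w H : ℝ) :
    w34 (u * E) E (w * H) H = E ^ 6 * H ^ 7 * w34 u 1 w 1 := by
  simp only [w34, gP_sc, g34_sc, g3_sc, g4_sc]; ring

theorem w45_sc (u E w H : ℝ) :
    w45 (u * E) E (w * H) H = E ^ 7 * H ^ 6 * w45 u 1 w 1 := by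
  simp only [w45, gP_sc, g45_sc, g4_sc, g5_sc]; ring

theorem w35_sc (u E w H : ℝ) :
    w35 (u * E) E (w * H) H = E ^ 6 * H ^ 6 * w35 u 1 w 1 := by
  simp only [w35, gP_sc, g35_sc, g3_sc, g5_sc]; ring

theorem z11_sc (u E w H q A C₁ : ℝ) :
    z11 (u * E) E (w * H) H (q * E * H) (q * E * H * A) (q * E * H * C₁) =
      q ^ 2 * E ^ 12 * H ^ 10 * z11 u 1 w 1 1 A C₁ := by
  simp only [z11, w11_sc, w22_sc, w12_sc, w31_sc, w32_sc, w41_sc, w42_sc, w51_sc, w52_sc, w33_sc, w44_sc, w55_sc, w34_sc, w45_sc, w35_sc]; ring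

theorem z22_sc (u E w H q C A₁ : ℝ) :
    z22 (u * E) E (w * H) H (q * E * H) (q * E * H * C) (q * E * H * A₁) =
      q ^ 2 * E ^ 10 * H ^ 12 * z22 u 1 w 1 1 C A₁ := by
  simp only [z22, w11_sc, w22_sc, w12_sc, w31_sc, w32_sc, w41_sc, w42_sc, w51_sc, w52_sc, w33_sc, w44_sc, w55_sc, w34_sc, w45_sc, w35_sc]; ring

theorem z12_sc (u E w H q B B₁ : ℝ) :
    z12 (u * E) E (w * H) H (q * E * H) (q * E * H * B) (q * E * H * B₁) =
      q ^ 2 * E ^ 11 * H ^ 11 * z12 u 1 w 1 1 B B₁ := by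
  simp only [z12, w11_sc, w22_sc, w12_sc, w31_sc, w32_sc, w41_sc, w42_sc, w51_sc, w52_sc, w33_sc, w44_sc, w55_sc, w34_sc, w45_sc, w35_sc]; ring

theorem x12_sc (u E w H q A C₁ B B₁ : ℝ) :
    x12 (u * E) E (w * H) H (q * E * H) (q * E * H * A) (q * E * H * C₁) (q * E * H * B) (q * E * H * B₁) =
      q ^ 2 * E ^ 11 * H ^ 10 * x12 u 1 w 1 1 A C₁ B B₁ := by
  simp only [x12, w11_sc, w22_sc, w12_sc, w31_sc, w32_sc, w41_sc, w42_sc, w51_sc, w52_sc, w33_sc, w44_sc, w55_sc, w34_sc, w45_sc, w35_sc]; ring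

theorem x23_sc (u E w H q B B₁ C A₁ : ℝ) :
    x23 (u * E) E (w * H) H (q * E * H) (q * E * H * B) (q * E * H * B₁) (q * E * H * C) (q * E * H * A₁) =
      q ^ 2 * E ^ 10 * H ^ 11 * x23 u 1 w 1 1 B B₁ C A₁ := by
  simp only [x23, w11_sc, w22_sc, w12_sc, w31_sc, w32_sc, w41_sc, w42_sc, w51_sc, w52_sc, w33_sc, w44_sc, w55_sc, w34_sc, w45_sc, w35_sc]; ring

theorem x13_sc (u E w H q A C₁ C A₁ : ℝ) :
    x13 (u * E) E (w * H) H (q * E * H) (q * E * H * A) (q * E * H * C₁) (q * E * H * C) (q * E * H * A₁) =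
      q ^ 2 * E ^ 10 * H ^ 10 * x13 u 1 w 1 1 A C₁ C A₁ := by
  simp only [x13, w11_sc, w22_sc, w12_sc, w31_sc, w32_sc, w41_sc, w42_sc, w51_sc, w52_sc, w33_sc, w44_sc, w55_sc, w34_sc, w45_sc, w35_sc]; ring

theorem fAA_sc (u E w H q A C₁ : ℝ) :
    fAA (u * E) E (w * H) H (q * E * H) (q * E * H * A) (q * E * H * C₁) =
      q ^ 2 * E ^ 20 * H ^ 18 * fAA u 1 w 1 1 A C₁ := by
  simp only [fAA, gP_sc, w11_sc, w22_sc, w12_sc, w31_sc, w32_sc, w41_sc, w42_sc, w51_sc, w52_sc, w33_sc, w44_sc, w55_sc, w34_sc, w45_sc, w35_sc, z11_sc, z22_sc, z12_sc, x12_sc, x23_sc, x13_sc]; ring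

theorem fBB_sc (u E w H q C A₁ : ℝ) :
    fBB (u * E) E (w * H) H (q * E * H) (q * E * H * C) (q * E * H * A₁) =
      q ^ 2 * E ^ 18 * H ^ 20 * fBB u 1 w 1 1 C A₁ := by
  simp only [fBB, gP_sc, w11_sc, w22_sc, w12_sc, w31_sc, w32_sc, w41_sc, w42_sc, w51_sc, w52_sc, w33_sc, w44_sc, w55_sc, w34_sc, w45_sc, w35_sc, z11_sc, z22_sc, z12_sc, x12_sc, x23_sc, x13_sc]; ring

theorem fAB_sc (u E w H q A C₁ B B₁ C A₁ lam : ℝ) :
    fAB (u * E) E (w * H) H (q * E * H) (q * E * H * A) (q * E * H * C₁) (q * E * H * B) (q * E * H * B₁) (q * E * H * C) (q * E * H * A₁) lam =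
      q ^ 2 * E ^ 19 * H ^ 19 * fAB u 1 w 1 1 A C₁ B B₁ C A₁ lam := by
  simp only [fAB, gP_sc, w11_sc, w22_sc, w12_sc, w31_sc, w32_sc, w41_sc, w42_sc, w51_sc, w52_sc, w33_sc, w44_sc, w55_sc, w34_sc, w45_sc, w35_sc, z11_sc, z22_sc, z12_sc, x12_sc, x23_sc, x13_sc]; ring

theorem fAR_sc (u E w H q A C₁ B B₁ : ℝ) :
    fAR (u * E) E (w * H) H (q * E * H) (q * E * H * A) (q * E * H * C₁) (q * E * H * B) (q * E * H * B₁) =
      q ^ 2 * E ^ 19 * H ^ 18 * fAR u 1 w 1 1 A C₁ B B₁ := by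
  simp only [fAR, gP_sc, w11_sc, w22_sc, w12_sc, w31_sc, w32_sc, w41_sc, w42_sc, w51_sc, w52_sc, w33_sc, w44_sc, w55_sc, w34_sc, w45_sc, w35_sc, z11_sc, z22_sc, z12_sc, x12_sc, x23_sc, x13_sc]; ring

theorem fBR_sc (u E w H q B B₁ C A₁ : ℝ) :
    fBR (u * E) E (w * H) H (q * E * H) (q * E * H * B) (q * E * H * B₁) (q * E * H * C) (q * E * H * A₁) =
      q ^ 2 * E ^ 18 * H ^ 19 * fBR u 1 w 1 1 B B₁ C A₁ := by
  simp only [fBR, gP_sc, w11_sc, w22_sc, w12_sc, w31_sc, w32_sc, w41_sc, w42_sc, w51_sc, w52_sc, w33_sc, w44_sc, w55_sc, w34_sc, w45_sc, w35_sc, z11_sc, z22_sc, z12_sc, x12_sc, x23_sc, x13_sc]; ring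

theorem fRR_sc (u E w H q A C₁ C A₁ lam : ℝ) :
    fRR (u * E) E (w * H) H (q * E * H) (q * E * H * A) (q * E * H * C₁) (q * E * H * C) (q * E * H * A₁) lam =
      q ^ 2 * E ^ 18 * H ^ 18 * fRR u 1 w 1 1 A C₁ C A₁ lam := by
  simp only [fRR, gP_sc, w11_sc, w22_sc, w12_sc, w31_sc, w32_sc, w41_sc, w42_sc, w51_sc, w52_sc, w33_sc, w44_sc, w55_sc, w34_sc, w45_sc, w35_sc, z11_sc, z22_sc, z12_sc, x12_sc, x23_sc, x13_sc]; ring

end Pool.Agent.J6H64.HSC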