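import Pool.Agent.J6H64.HSC.Scaling

/-!
Soundness of the cell check.
-/

namespace Pool.Agent.J6H64.HSC

open Polynomial

/-- Induced map on formal differences. -/
def Df.map {R S : Type*} (f : R → S) (x : Df R) : Df S := ⟨f x.p, f x.n⟩

theorem Df.isPre_map {R S : Type*} [CommSemiring R] [CommSemiring S] (f : R →+* S) :
    IsPre (Df.map f) where
  add x y := by
    show Df.mk _ _ = Df.mk _ _
    rw [show (x + y).p = x.p + y.p from rfl, show (x + y).n = x.n + y.n from rfl, map_add, map_add]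
    rfl
  sub x y := by
    show Df.mk _ _ = Df.mk _ _
    rw [show (x - y).p = x.p + y.n from rfl, show (x - y).n = x.n + y.p from rfl, map_add, map_add]
    rfl
  mul x y := by
    show Df.mk _ _ = Df.mk _ _
    rw [show (x * y).p = x.p * y.p + x.n * y.n from rfl,
      show (x * y).n = x.p * y.n + x.n * y.p from rfl]
    simp only [map_add, map_mul]
    rfl
  nat k := by
    show Df.mk (f (k : R)) (f ((0 : ℕ) : R)) = _
    rw [map_natCast, map_natCast]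
    rfl

/-- The value of a formal difference. -/
def Df.val (x : Df ℝ) : ℝ := x.p - x.n

theorem Df.isPre_val : IsPre Df.val where
  add x y := by
    show (x.p + y.p) - (x.n + y.n) = (x.p - x.n) + (y.p - y.n)
    ring
  sub x y := by
    show (x.p + y.n) - (x.n + y.p) = (x.p - x.n) - (y.p - y.n)
    ring
  mul x y := by
    show (x.p * y.p + x.n * y.n) - (x.p * y.n + x.n * y.p) = (x.p - x.n) * (y.p - y.n)
    ring
  nat k := by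
    show (k : ℝ) - ((0 : ℕ) : ℝ) = k
    simp

theorem ev2_CX {S : Type*} [CommSemiring S] (x y : S) : ev2 x y (C X) = x := by
  unfold ev2
  rw [coe_eval₂RingHom, eval₂_C, coe_eval₂RingHom, eval₂_X]

theorem ev2_X {S : Type*} [CommSemiring S] (x y : S) : ev2 x y X = y := by
  unfold ev2
  rw [coe_eval₂RingHom, eval₂_X]

/-- The check for one function of two variables. -/
def chkFun (κ D : ℕ) (F : Df ℕ → Df ℕ → Df ℕ) : Bool :=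
  chkLt (2 ^ κ) (F ⟨1, 0⟩ ⟨1, 0⟩) && chkLt (2 ^ (κ * D)) (F ⟨2 ^ κ, 0⟩ ⟨1, 0⟩) &&
    chkConst (F ⟨0, 0⟩ ⟨0, 0⟩) && chkPacked κ D (F ⟨2 ^ κ, 0⟩ ⟨2 ^ (κ * D), 0⟩)

/-- General soundness. -/
theorem pos_of_chkFun (κ D : ℕ) (F : Df ℕ → Df ℕ → Df ℕ) (FP : Df ℕ[X][X])
    (FR : Df ℝ)
    (x y : ℝ) (hx : 0 ≤ x) (hy : 0 ≤ y)
    (hF : ∀ a b : ℕ, F ⟨a, 0⟩ ⟨b, 0⟩ = Df.map (ev2 a b) FP)
    (hR : FR = Df.map (ev2 x y) FP)
    (h : chkFun κ D F = true) : 0 < FR.val := by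
  simp only [chkFun, Bool.and_eq_true, chkLt, chkConst] at h
  obtain ⟨⟨⟨h1, h2⟩, h3⟩, h4⟩ := h
  rw [hF] at h1 h2 h3 h4
  simp only [Nat.blt_eq] at h1 h2 h3
  have := ev2_lt_of_chk FP.p FP.n κ D h1.1 h1.2 h2.1 h2.2 h4 h3 x y hx hy
  rw [hR]
  show 0 < ev2 x y FP.p - ev2 x y FP.n
  linarith

theorem N1_pos (c : CellCert) (a0 a1 b0 b1 κ D : ℕ)
    (h : chkFun κ D (fun X Y => N1 c a0 a1 b0 b1 X Y) = true) (x y : ℝ) (hx : 0 ≤ x)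
    (hy : 0 ≤ y) : 0 < N1 c a0 a1 b0 b1 x y := by
  have key := pos_of_chkFun κ D (fun X Y => N1 c a0 a1 b0 b1 X Y)
    (N1 c a0 a1 b0 b1 (⟨C X, 0⟩ : Df ℕ[X][X]) ⟨X, 0⟩)
    (N1 c a0 a1 b0 b1 (⟨x, 0⟩ : Df ℝ) ⟨y, 0⟩) x y hx hy
    (fun a b => by
      have e := N1_map (Df.isPre_map (ev2 a b)) c a0 a1 b0 b1 (⟨C X, 0⟩ : Df ℕ[X][X]) ⟨X, 0⟩
      have e1 : Df.map (ev2 a b) (⟨C X, 0⟩ : Df ℕ[X][X]) = ⟨a, 0⟩ := by
        simp only [Df.map, ev2_CX, map_zero]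
      have e2 : Df.map (ev2 a b) (⟨X, 0⟩ : Df ℕ[X][X]) = ⟨b, 0⟩ := by
        simp only [Df.map, ev2_X, map_zero]
      rw [e1, e2] at e
      exact e.symm)
    (by
      have e := N1_map (Df.isPre_map (ev2 x y)) c a0 a1 b0 b1 (⟨C X, 0⟩ : Df ℕ[X][X]) ⟨X, 0⟩
      have e1 : Df.map (ev2 x y) (⟨C X, 0⟩ : Df ℕ[X][X]) = ⟨x, 0⟩ := by
        simp only [Df.map, ev2_CX, map_zero]
      have e2 : Df.map (ev2 x y) (⟨X, 0⟩ : Df ℕ[X][X]) = ⟨y, 0⟩ := by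
        simp only [Df.map, ev2_X, map_zero]
      rw [e1, e2] at e
      exact e.symm) h
  rw [N1_map Df.isPre_val] at key
  simpa [Df.val] using key

theorem N2_pos (c : CellCert) (a0 a1 b0 b1 κ D : ℕ)
    (h : chkFun κ D (fun X Y => N2 c a0 a1 b0 b1 X Y) = true) (x y : ℝ) (hx : 0 ≤ x)
    (hy : 0 ≤ y) : 0 < N2 c a0 a1 b0 b1 x y := by
  have key := pos_of_chkFun κ D (fun X Y => N2 c a0 a1 b0 b1 X Y)
    (N2 c a0 a1 b0 b1 (⟨C X, 0⟩ : Df ℕ[X][X]) ⟨X, 0⟩)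
    (N2 c a0 a1 b0 b1 (⟨x, 0⟩ : Df ℝ) ⟨y, 0⟩) x y hx hy
    (fun a b => by
      have e := N2_map (Df.isPre_map (ev2 a b)) c a0 a1 b0 b1 (⟨C X, 0⟩ : Df ℕ[X][X]) ⟨X, 0⟩
      have e1 : Df.map (ev2 a b) (⟨C X, 0⟩ : Df ℕ[X][X]) = ⟨a, 0⟩ := by
        simp only [Df.map, ev2_CX, map_zero]
      have e2 : Df.map (ev2 a b) (⟨X, 0⟩ : Df ℕ[X][X]) = ⟨b, 0⟩ := by
        simp only [Df.map, ev2_X, map_zero]
      rw [e1, e2] at e
      exact e.symm)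
    (by
      have e := N2_map (Df.isPre_map (ev2 x y)) c a0 a1 b0 b1 (⟨C X, 0⟩ : Df ℕ[X][X]) ⟨X, 0⟩
      have e1 : Df.map (ev2 x y) (⟨C X, 0⟩ : Df ℕ[X][X]) = ⟨x, 0⟩ := by
        simp only [Df.map, ev2_CX, map_zero]
      have e2 : Df.map (ev2 x y) (⟨X, 0⟩ : Df ℕ[X][X]) = ⟨y, 0⟩ := by
        simp only [Df.map, ev2_X, map_zero]
      rw [e1, e2] at e
      exact e.symm) h
  rw [N2_map Df.isPre_val] at key
  simpa [Df.val] using key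

theorem N3_pos (c : CellCert) (a0 a1 b0 b1 κ D : ℕ)
    (h : chkFun κ D (fun X Y => N3 c a0 a1 b0 b1 X Y) = true) (x y : ℝ) (hx : 0 ≤ x)
    (hy : 0 ≤ y) : 0 < N3 c a0 a1 b0 b1 x y := by
  have key := pos_of_chkFun κ D (fun X Y => N3 c a0 a1 b0 b1 X Y)
    (N3 c a0 a1 b0 b1 (⟨C X, 0⟩ : Df ℕ[X][X]) ⟨X, 0⟩)
    (N3 c a0 a1 b0 b1 (⟨x, 0⟩ : Df ℝ) ⟨y, 0⟩) x y hx hy
    (fun a b => by
      have e := N3_map (Df.isPre_map (ev2 a b)) c a0 a1 b0 b1 (⟨C X, 0⟩ : Df ℕ[X][X]) ⟨X, 0⟩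
      have e1 : Df.map (ev2 a b) (⟨C X, 0⟩ : Df ℕ[X][X]) = ⟨a, 0⟩ := by
        simp only [Df.map, ev2_CX, map_zero]
      have e2 : Df.map (ev2 a b) (⟨X, 0⟩ : Df ℕ[X][X]) = ⟨b, 0⟩ := by
        simp only [Df.map, ev2_X, map_zero]
      rw [e1, e2] at e
      exact e.symm)
    (by
      have e := N3_map (Df.isPre_map (ev2 x y)) c a0 a1 b0 b1 (⟨C X, 0⟩ : Df ℕ[X][X]) ⟨X, 0⟩
      have e1 : Df.map (ev2 x y) (⟨C X, 0⟩ : Df ℕ[X][X]) = ⟨x, 0⟩ := by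
        simp only [Df.map, ev2_CX, map_zero]
      have e2 : Df.map (ev2 x y) (⟨X, 0⟩ : Df ℕ[X][X]) = ⟨y, 0⟩ := by
        simp only [Df.map, ev2_X, map_zero]
      rw [e1, e2] at e
      exact e.symm) h
  rw [N3_map Df.isPre_val] at key
  simpa [Df.val] using key

end Pool.Agent.J6H64.HSC
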