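import Pool.Agent.J6H64.HSC.ProjLine

/-!
# The toric surface of the hexagon

The degree six del Pezzo surface, as a subspace of `(ℙ¹)⁶`, with its six affine charts.
-/

namespace Pool.Agent.J6H64.HSC

open Complex Manifold Filter Topology OnePoint Set

/-- The point `(a, ab, b, 1/a, 1/(ab), 1/b)` of `(ℙ¹)⁶`, for `z = (a, b)`. -/
noncomputable def hx (z : ℂ × ℂ) : Fin 6 → P1 :=
  ![(z.1 : P1), ((z.1 * z.2 : ℂ) : P1), (z.2 : P1), invP (z.1 : P1),
    invP ((z.1 * z.2 : ℂ) : P1), invP (z.2 : P1)]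

/-- The same point with the coordinates shifted by `l`. -/
noncomputable def psi (l : Fin 6) (z : ℂ × ℂ) : Fin 6 → P1 := fun m => hx z (m - l)

/-- The transition functions. -/
noncomputable def tr (d : Fin 6) (z : ℂ × ℂ) : ℂ × ℂ := (toC (hx z d), toC (hx z (d + 2)))

theorem hx_tr (d : Fin 6) (z : ℂ × ℂ) (h1 : hx z d ≠ ∞) (h2 : hx z (d + 2) ≠ ∞) (m : Fin 6) :
    hx (tr d z) m = hx z (m + d) := by
  obtain ⟨a, b⟩ := z
  fin_cases d
  · fin_cases m <;> simp [hx, tr]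
  · have ha : a ≠ 0 := invP_coe_ne_infty.1 h2
    have e : a * b * a⁻¹ = b := by field_simp
    fin_cases m <;> simp [hx, tr, invP_coe, ha, e]
  · have hab : a * b ≠ 0 := invP_coe_ne_infty.1 h2
    have ha : a ≠ 0 := left_ne_zero_of_mul hab
    have hb : b ≠ 0 := right_ne_zero_of_mul hab
    fin_cases m <;> simp [hx, tr, invP_coe, ha, hb]
  · have ha : a ≠ 0 := invP_coe_ne_infty.1 h1
    have hb : b ≠ 0 := invP_coe_ne_infty.1 h2
    fin_cases m <;> simp [hx, tr, invP_coe, ha, hb, mul_comm]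
  · have hab : a * b ≠ 0 := invP_coe_ne_infty.1 h1
    have ha : a ≠ 0 := left_ne_zero_of_mul hab
    have hb : b ≠ 0 := right_ne_zero_of_mul hab
    fin_cases m <;> simp [hx, tr, invP_coe, ha, hb]
  · have hb : b ≠ 0 := invP_coe_ne_infty.1 h1
    have e : b⁻¹ * (a * b) = a := by field_simp
    fin_cases m <;> simp [hx, tr, invP_coe, hb, e]

theorem hx_continuous : Continuous hx := by
  have h1 : Continuous fun z : ℂ × ℂ => (z.1 : P1) := OnePoint.continuous_coe.comp continuous_fst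
  have h2 : Continuous fun z : ℂ × ℂ => (z.2 : P1) := OnePoint.continuous_coe.comp continuous_snd
  have h3 : Continuous fun z : ℂ × ℂ => ((z.1 * z.2 : ℂ) : P1) :=
    OnePoint.continuous_coe.comp (continuous_fst.mul continuous_snd)
  refine continuous_pi fun m => ?_
  fin_cases m
  · exact h1
  · exact h3
  · exact h2
  · exact continuous_invP.comp h1
  · exact continuous_invP.comp h3
  · exact continuous_invP.comp h2

theorem psi_continuous (l : Fin 6) : Continuous (psi l) :=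
  continuous_pi fun m => (continuous_apply (m - l)).comp hx_continuous

theorem hx_zero_ne (z : ℂ × ℂ) : hx z 0 ≠ ∞ := OnePoint.coe_ne_infty _
theorem hx_one_ne (z : ℂ × ℂ) : hx z 1 ≠ ∞ := OnePoint.coe_ne_infty _
theorem hx_two_ne (z : ℂ × ℂ) : hx z 2 ≠ ∞ := OnePoint.coe_ne_infty _

theorem fin6_a : ∀ l k : Fin 6, l + 2 - k = (l - k) + 2 := by decide
theorem fin6_b : ∀ m l k : Fin 6, m - l + (l - k) = m - k := by decide
theorem fin6_c : ∀ l : Fin 6, l + 2 - l = 2 := by decide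

/-- The toric surface of the hexagon: the six affine planes `psi l`, glued inside
`(ℙ¹)⁶`. -/
abbrev HexSurface : Type := {s : Fin 6 → P1 // ∃ (l : Fin 6) (z : ℂ × ℂ), s = psi l z}

/-- The six affine charts of the surface. -/
noncomputable def chartHex (l : Fin 6) : OpenPartialHomeomorph HexSurface (ℂ × ℂ) where
  toFun := fun s => (toC (s.1 l), toC (s.1 (l + 2)))
  invFun := fun z => ⟨psi l z, l, z, rfl⟩
  source := {s | s.1 l ≠ ∞ ∧ s.1 (l + 2) ≠ ∞}
  target := univ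
  map_source' := fun _ _ => mem_univ _
  map_target' := by
    intro z _
    refine ⟨?_, ?_⟩
    · change hx z (l - l) ≠ ∞
      rw [sub_self]
      exact hx_zero_ne z
    · change hx z (l + 2 - l) ≠ ∞
      rw [fin6_c]
      exact hx_two_ne z
  left_inv' := by
    rintro ⟨s, k, z, rfl⟩ ⟨h1, h2⟩
    change hx z (l - k) ≠ ∞ at h1
    change hx z (l + 2 - k) ≠ ∞ at h2
    rw [fin6_a] at h2
    refine Subtype.ext ?_
    funext m
    change hx (toC (hx z (l - k)), toC (hx z (l + 2 - k))) (m - l) = hx z (m - k)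
    rw [fin6_a]
    have := hx_tr (l - k) z h1 h2 (m - l)
    rw [fin6_b] at this
    exact this
  right_inv' := by
    intro z _
    change (toC (hx z (l - l)), toC (hx z (l + 2 - l))) = z
    rw [sub_self, fin6_c]
    rfl
  open_source := by
    have h1 (m : Fin 6) : Continuous fun s : HexSurface => s.1 m :=
      (continuous_apply m).comp continuous_subtype_val
    exact (isOpen_ne_infty.preimage (h1 l)).inter (isOpen_ne_infty.preimage (h1 (l + 2)))
  open_target := isOpen_univ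
  continuousOn_toFun := by
    refine ContinuousOn.prodMk ?_ ?_
    · exact continuousOn_toC.comp
        ((continuous_apply l).comp continuous_subtype_val).continuousOn fun s hs => hs.1
    · exact continuousOn_toC.comp
        ((continuous_apply (l + 2)).comp continuous_subtype_val).continuousOn fun s hs => hs.2
  continuousOn_invFun := ((psi_continuous l).subtype_mk _).continuousOn

theorem exists_mem_source (s : HexSurface) : ∃ l, s ∈ (chartHex l).source := by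
  obtain ⟨s, l, z, rfl⟩ := s
  exact ⟨l, (chartHex l).map_target (mem_univ z)⟩

noncomputable instance : ChartedSpace (ℂ × ℂ) HexSurface where
  atlas := range chartHex
  chartAt := fun s => chartHex (exists_mem_source s).choose
  mem_chart_source := fun s => (exists_mem_source s).choose_spec
  chart_mem_atlas := fun _ => mem_range_self _

theorem mem_atlas_hex {e : OpenPartialHomeomorph HexSurface (ℂ × ℂ)} :
    e ∈ atlas (ℂ × ℂ) HexSurface ↔ ∃ l, chartHex l = e := Iff.rfl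

theorem toC_invP_coe (x : ℂ) : toC (invP (x : P1)) = x⁻¹ := by simp

theorem tr_zero (z : ℂ × ℂ) : tr 0 z = z := rfl
theorem tr_one (z : ℂ × ℂ) : tr 1 z = (z.1 * z.2, z.1⁻¹) := Prod.ext rfl (toC_invP_coe z.1)
theorem tr_two (z : ℂ × ℂ) : tr 2 z = (z.2, (z.1 * z.2)⁻¹) :=
  Prod.ext rfl (toC_invP_coe (z.1 * z.2))
theorem tr_three (z : ℂ × ℂ) : tr 3 z = (z.1⁻¹, z.2⁻¹) :=
  Prod.ext (toC_invP_coe z.1) (toC_invP_coe z.2)
theorem tr_four (z : ℂ × ℂ) : tr 4 z = ((z.1 * z.2)⁻¹, z.1) :=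
  Prod.ext (toC_invP_coe (z.1 * z.2)) rfl
theorem tr_five (z : ℂ × ℂ) : tr 5 z = (z.2⁻¹, z.1 * z.2) :=
  Prod.ext (toC_invP_coe z.2) rfl

/-- The source of a transition function. -/
theorem trans_source_hex (k l : Fin 6) :
    ((chartHex k).symm.trans (chartHex l)).source =
      {z | hx z (l - k) ≠ ∞ ∧ hx z (l - k + 2) ≠ ∞} := by
  ext z
  rw [OpenPartialHomeomorph.trans_source]
  change (z ∈ univ ∧ hx z (l - k) ≠ ∞ ∧ hx z (l + 2 - k) ≠ ∞) ↔ _
  rw [fin6_a]
  exact ⟨fun h => h.2, fun h => ⟨mem_univ _, h⟩⟩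

theorem trans_hex (k l : Fin 6) (z : ℂ × ℂ) :
    chartHex l ((chartHex k).symm z) = tr (l - k) z := by
  change (toC (hx z (l - k)), toC (hx z (l + 2 - k))) = _
  rw [fin6_a]
  rfl

theorem contDiffOn_toC_hx (d : Fin 6) :
    ContDiffOn ℂ ⊤ (fun z : ℂ × ℂ => toC (hx z d)) {z | hx z d ≠ ∞} := by
  have h1 : ContDiff ℂ ⊤ fun z : ℂ × ℂ => z.1 := contDiff_fst
  have h2 : ContDiff ℂ ⊤ fun z : ℂ × ℂ => z.2 := contDiff_snd
  have h3 : ContDiff ℂ ⊤ fun z : ℂ × ℂ => z.1 * z.2 := h1.mul h2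
  fin_cases d
  · exact h1.contDiffOn
  · exact h3.contDiffOn
  · exact h2.contDiffOn
  · have e : (fun z : ℂ × ℂ => toC (hx z 3)) = fun z => z.1⁻¹ := by
      funext z; exact toC_invP_coe z.1
    intro z hz
    change ContDiffWithinAt ℂ ⊤ (fun z : ℂ × ℂ => toC (hx z 3)) _ z
    rw [e]
    exact (h1.contDiffAt.inv (invP_coe_ne_infty.1 hz)).contDiffWithinAt
  · have e : (fun z : ℂ × ℂ => toC (hx z 4)) = fun z => (z.1 * z.2)⁻¹ := by
      funext z; exact toC_invP_coe (z.1 * z.2)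
    intro z hz
    change ContDiffWithinAt ℂ ⊤ (fun z : ℂ × ℂ => toC (hx z 4)) _ z
    rw [e]
    exact (h3.contDiffAt.inv (invP_coe_ne_infty.1 hz)).contDiffWithinAt
  · have e : (fun z : ℂ × ℂ => toC (hx z 5)) = fun z => z.2⁻¹ := by
      funext z; exact toC_invP_coe z.2
    intro z hz
    change ContDiffWithinAt ℂ ⊤ (fun z : ℂ × ℂ => toC (hx z 5)) _ z
    rw [e]
    exact (h2.contDiffAt.inv (invP_coe_ne_infty.1 hz)).contDiffWithinAt

instance : IsManifold 𝓘(ℂ, ℂ × ℂ) ⊤ HexSurface := by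
  refine isManifold_of_contDiffOn _ _ _ fun e e' he he' => ?_
  obtain ⟨k, rfl⟩ := he
  obtain ⟨l, rfl⟩ := he'
  have h1 : ContDiffOn ℂ ⊤ (tr (l - k)) {z | hx z (l - k) ≠ ∞ ∧ hx z (l - k + 2) ≠ ∞} :=
    ((contDiffOn_toC_hx (l - k)).mono fun z hz => hz.1).prodMk
      ((contDiffOn_toC_hx (l - k + 2)).mono fun z hz => hz.2)
  rw [← trans_source_hex] at h1
  refine (h1.mono (s := _) ?_).congr ?_
  · rintro z ⟨hz, -⟩
    exact hz
  · intro z _
    exact trans_hex k l z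

instance : T2Space HexSurface := inferInstance

theorem cover_hex (z : ℂ × ℂ) :
    ∃ d : Fin 6, hx z d ≠ ∞ ∧ hx z (d + 2) ≠ ∞ ∧ tr d z ∈ Metric.closedBall (0 : ℂ × ℂ) 1 := by
  obtain ⟨a, b⟩ := z
  have key : ∀ x y : ℂ, ‖x‖ ≤ 1 → ‖y‖ ≤ 1 → ((x, y) : ℂ × ℂ) ∈ Metric.closedBall (0 : ℂ × ℂ) 1 := by
    intro x y hx hy
    rw [mem_closedBall_zero_iff, Prod.norm_def]
    exact max_le hx hy
  have inv1 : ∀ x : ℂ, 1 < ‖x‖ → ‖x⁻¹‖ ≤ 1 := by
    intro x hx
    rw [norm_inv]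
    exact inv_le_one_of_one_le₀ hx.le
  have ne0 : ∀ x : ℂ, 1 < ‖x‖ → x ≠ 0 := by
    rintro x hx rfl
    rw [norm_zero] at hx
    linarith
  rcases le_or_gt ‖a‖ 1 with ha | ha <;> rcases le_or_gt ‖b‖ 1 with hb | hb
  · exact ⟨0, hx_zero_ne _, hx_two_ne _, key a b ha hb⟩
  · rcases le_or_gt ‖a * b‖ 1 with hab | hab
    · refine ⟨5, invP_coe_ne_infty.2 (ne0 _ hb), hx_one_ne _, ?_⟩
      rw [tr_five]
      exact key _ _ (inv1 _ hb) hab
    · refine ⟨4, invP_coe_ne_infty.2 (ne0 _ hab), hx_zero_ne _, ?_⟩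
      rw [tr_four]
      exact key _ _ (inv1 _ hab) ha
  · rcases le_or_gt ‖a * b‖ 1 with hab | hab
    · refine ⟨1, hx_one_ne _, invP_coe_ne_infty.2 (ne0 _ ha), ?_⟩
      rw [tr_one]
      exact key _ _ hab (inv1 _ ha)
    · refine ⟨2, hx_two_ne _, invP_coe_ne_infty.2 (ne0 _ hab), ?_⟩
      rw [tr_two]
      exact key _ _ hb (inv1 _ hab)
  · refine ⟨3, invP_coe_ne_infty.2 (ne0 _ ha), invP_coe_ne_infty.2 (ne0 _ hb), ?_⟩
    rw [tr_three]
    exact key _ _ (inv1 _ ha) (inv1 _ hb)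

theorem fin6_d : ∀ m k d : Fin 6, m - (k + d) + d = m - k := by decide

theorem range_eq : {s : Fin 6 → P1 | ∃ (l : Fin 6) (z : ℂ × ℂ), s = psi l z} =
    ⋃ l : Fin 6, psi l '' Metric.closedBall (0 : ℂ × ℂ) 1 := by
  ext s
  rw [mem_iUnion]
  constructor
  · rintro ⟨k, z, rfl⟩
    obtain ⟨d, h1, h2, h3⟩ := cover_hex z
    refine ⟨k + d, tr d z, h3, ?_⟩
    funext m
    change hx (tr d z) (m - (k + d)) = hx z (m - k)
    rw [hx_tr d z h1 h2, fin6_d]
  · rintro ⟨l, z, -, rfl⟩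
    exact ⟨l, z, rfl⟩

instance : CompactSpace HexSurface := by
  refine isCompact_iff_compactSpace.1 (?_ : IsCompact
    {s : Fin 6 → P1 | ∃ (l : Fin 6) (z : ℂ × ℂ), s = psi l z})
  rw [range_eq]
  exact isCompact_iUnion fun l => (isCompact_closedBall _ _).image (psi_continuous l)

theorem psi_one (l : Fin 6) : psi l (1, 1) = fun _ => ((1 : ℂ) : P1) := by
  have h : ∀ m, hx (1, 1) m = ((1 : ℂ) : P1) := by
    intro m
    fin_cases m <;> simp [hx, invP_coe]
  funext m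
  exact h _

instance : ConnectedSpace HexSurface := by
  refine isConnected_iff_connectedSpace.1 (?_ : IsConnected
    {s : Fin 6 → P1 | ∃ (l : Fin 6) (z : ℂ × ℂ), s = psi l z})
  have h : {s : Fin 6 → P1 | ∃ (l : Fin 6) (z : ℂ × ℂ), s = psi l z} =
      ⋃ l : Fin 6, range (psi l) := by
    ext s
    simp only [mem_iUnion, mem_range]
    exact ⟨fun ⟨l, z, h⟩ => ⟨l, z, h.symm⟩, fun ⟨l, z, h⟩ => ⟨l, z, h.symm⟩⟩
  rw [h]
  refine ⟨⟨psi 0 (1, 1), mem_iUnion.2 ⟨0, mem_range_self _⟩⟩, ?_⟩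
  refine isPreconnected_iUnion ⟨fun _ => ((1 : ℂ) : P1), mem_iInter.2 fun l => ?_⟩ fun l => ?_
  · exact ⟨(1, 1), psi_one l⟩
  · exact isPreconnected_range (psi_continuous l)

end Pool.Agent.J6H64.HSC
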