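import Pool.Agent.J6H64.HSC.Defs

/-!
Wirtinger derivatives of functions on `ℂ × ℂ`.
-/

namespace Pool.Agent.J6H64.HSC

open Complex ComplexConjugate

/-- `f` has real derivative `A + B` at `z` with `A` complex linear and `B` conjugate linear. -/
def HasW (f : ℂ × ℂ → ℂ) (z : ℂ × ℂ) (A B : ℂ × ℂ → ℂ) : Prop :=
  ∃ f' : (ℂ × ℂ) →L[ℝ] ℂ, HasFDerivAt f f' z ∧ (∀ v, f' v = A v + B v) ∧
    (∀ v, A (I • v) = I * A v) ∧ ∀ v, B (I • v) = -(I * B v)

namespace HasW

variable {f g : ℂ × ℂ → ℂ} {z : ℂ × ℂ} {A B A' B' : ℂ × ℂ → ℂ}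

theorem dHol_eq (h : HasW f z A B) (v : ℂ × ℂ) : dHol v f z = A v := by
  obtain ⟨f', h1, h2, h3, h4⟩ := h
  unfold dHol
  rw [h1.fderiv, h2, h2, h3, h4]
  linear_combination (-(A v) / 2 + B v / 2) * I_mul_I

theorem dAnti_eq (h : HasW f z A B) (v : ℂ × ℂ) : dAnti v f z = B v := by
  obtain ⟨f', h1, h2, h3, h4⟩ := h
  unfold dAnti
  rw [h1.fderiv, h2, h2, h3, h4]
  linear_combination ((A v) / 2 - B v / 2) * I_mul_I

theorem congr_right (h : HasW f z A B) (hA : ∀ v, A v = A' v) (hB : ∀ v, B v = B' v) :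
    HasW f z A' B' := by
  have e1 : A = A' := funext hA
  have e2 : B = B' := funext hB
  rwa [← e1, ← e2]

theorem holo {f' : (ℂ × ℂ) →L[ℂ] ℂ} (h : HasFDerivAt f f' z) : HasW f z f' (fun _ => 0) := by
  refine ⟨f'.restrictScalars ℝ, h.restrictScalars ℝ, fun v => ?_, fun v => ?_, fun v => ?_⟩
  · simp
  · simp
  · simp

theorem const (a : ℂ) : HasW (fun _ => a) z (fun _ => 0) (fun _ => 0) := by
  refine ⟨0, hasFDerivAt_const _ _, ?_, ?_, ?_⟩ <;> simp

theorem conj' (h : HasW f z A B) :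
    HasW (fun x => conj (f x)) z (fun v => conj (B v)) (fun v => conj (A v)) := by
  obtain ⟨f', h1, h2, h3, h4⟩ := h
  refine ⟨(conjCLE : ℂ →L[ℝ] ℂ).comp f', ?_, fun v => ?_, fun v => ?_, fun v => ?_⟩
  · exact (conjCLE : ℂ →L[ℝ] ℂ).hasFDerivAt.comp z h1
  · simp [h2, add_comm]
  · simp only [h4, map_neg, map_mul, conj_I]; ring
  · simp only [h3, map_mul, conj_I]; ring

theorem add (hf : HasW f z A B) (hg : HasW g z A' B') :
    HasW (fun x => f x + g x) z (fun v => A v + A' v) (fun v => B v + B' v) := by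
  obtain ⟨f', h1, h2, h3, h4⟩ := hf
  obtain ⟨g', k1, k2, k3, k4⟩ := hg
  refine ⟨f' + g', h1.add k1, fun v => ?_, fun v => ?_, fun v => ?_⟩
  · simp only [ContinuousLinearMap.add_apply, h2, k2]; ring
  · simp only [h3, k3]; ring
  · simp only [h4, k4]; ring

theorem sub (hf : HasW f z A B) (hg : HasW g z A' B') :
    HasW (fun x => f x - g x) z (fun v => A v - A' v) (fun v => B v - B' v) := by
  obtain ⟨f', h1, h2, h3, h4⟩ := hf
  obtain ⟨g', k1, k2, k3, k4⟩ := hg
  refine ⟨f' - g', h1.sub k1, fun v => ?_, fun v => ?_, fun v => ?_⟩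
  · simp only [ContinuousLinearMap.sub_apply, h2, k2]; ring
  · simp only [h3, k3]; ring
  · simp only [h4, k4]; ring

theorem mul (hf : HasW f z A B) (hg : HasW g z A' B') :
    HasW (fun x => f x * g x) z (fun v => A v * g z + f z * A' v)
      (fun v => B v * g z + f z * B' v) := by
  obtain ⟨f', h1, h2, h3, h4⟩ := hf
  obtain ⟨g', k1, k2, k3, k4⟩ := hg
  refine ⟨f z • g' + g z • f', h1.mul k1, fun v => ?_, fun v => ?_, fun v => ?_⟩
  · simp only [ContinuousLinearMap.add_apply, ContinuousLinearMap.smul_apply, h2, k2,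
      smul_eq_mul]
    ring
  · simp only [h3, k3]; ring
  · simp only [h4, k4]; ring

theorem inv (hf : HasW f z A B) (h0 : f z ≠ 0) :
    HasW (fun x => (f x)⁻¹) z (fun v => -(A v) / (f z) ^ 2) (fun v => -(B v) / (f z) ^ 2) := by
  obtain ⟨f', h1, h2, h3, h4⟩ := hf
  have hi : HasFDerivAt (fun x : ℂ => x⁻¹)
      ((ContinuousLinearMap.toSpanSingleton ℂ (-((f z) ^ 2)⁻¹) : ℂ →L[ℂ] ℂ).restrictScalars ℝ)
      (f z) := (hasDerivAt_inv h0).hasFDerivAt.restrictScalars ℝ
  refine ⟨_, hi.comp z h1, fun v => ?_, fun v => ?_, fun v => ?_⟩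
  · simp only [ContinuousLinearMap.comp_apply, ContinuousLinearMap.coe_restrictScalars',
      ContinuousLinearMap.toSpanSingleton_apply, h2, smul_eq_mul]
    ring
  · simp only [h3]; ring
  · simp only [h4]; ring

theorem div (hf : HasW f z A B) (hg : HasW g z A' B') (h0 : g z ≠ 0) :
    HasW (fun x => f x / g x) z (fun v => (A v * g z - f z * A' v) / (g z) ^ 2)
      (fun v => (B v * g z - f z * B' v) / (g z) ^ 2) := by
  have := hf.mul (hg.inv h0)
  simp only [div_eq_mul_inv]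
  refine this.congr_right (fun v => ?_) (fun v => ?_)
  · field_simp
    ring
  · field_simp
    ring

theorem sum {ι : Type*} (s : Finset ι) {F : ι → ℂ × ℂ → ℂ} {A B : ι → ℂ × ℂ → ℂ}
    (h : ∀ i ∈ s, HasW (F i) z (A i) (B i)) :
    HasW (fun x => ∑ i ∈ s, F i x) z (fun v => ∑ i ∈ s, A i v) (fun v => ∑ i ∈ s, B i v) := by
  classical
  induction s using Finset.induction_on with
  | empty => simpa using (const (z := z) 0)
  | insert a s ha ih =>
    simp only [Finset.sum_insert ha]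
    exact (h a (Finset.mem_insert_self a s)).add
      (ih fun i hi => h i (Finset.mem_insert_of_mem hi))

end HasW

end Pool.Agent.J6H64.HSC
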